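import Pool.Agent.Y547.KI.Artin
import Pool.Agent.Y80.Shang.Defs

set_option autoImplicit false

open scoped BigOperators

/-! Dimensions of the free alternative algebra in two letters. -/

namespace Pool.Agent.Y80.KI

open Pool.Agent.Y80.KM Pool.Agent.Y960.KM

section words

variable {d : ℕ}

theorem toWord_length (w : FreeMagma (Fin d)) : (toWord w).toList.length = w.length := by
  induction w with
  | ih1 i => rfl
  | ih2 x y hx hy =>
    change (toWord x * toWord y).toList.length = x.length + y.length
    rw [FreeMonoid.toList_mul, List.length_append, hx, hy]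

/-- the content of a list -/
noncomputable def lcont (l : List (Fin d)) : Fin d →₀ ℕ := (l.map fun i => Finsupp.single i 1).sum

theorem content_eq (w : FreeMagma (Fin d)) : content w = lcont (toWord w).toList := by
  induction w with
  | ih1 i =>
    change Finsupp.single i 1 = lcont [i]
    simp [lcont]
  | ih2 x y hx hy =>
    change content x + content y = lcont (toWord x * toWord y).toList
    rw [hx, hy, FreeMonoid.toList_mul, lcont, lcont, lcont, List.map_append, List.sum_append]

theorem lcont_apply (l : List (Fin d)) (a : Fin d) : lcont l a = l.count a := by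
  induction l with
  | nil => rfl
  | cons b l ih =>
    have h1 : lcont (b :: l) = Finsupp.single b 1 + lcont l := by
      simp [lcont]
    rw [h1, Finsupp.add_apply, ih, List.count_cons, Finsupp.single_apply, add_comm]
    congr 1
    by_cases h : b = a <;> simp [h]

variable {k : Type*} [Field k]

/-- the generators -/
noncomputable def gen (R : Set (NF k d)) (i : Fin d) : QAlg R :=
  qmk R (MonoidAlgebra.single (FreeMagma.of i) 1)

theorem qmk_lift (R : Set (NF k d)) (w : FreeMagma (Fin d)) :
    qmk R (MonoidAlgebra.single w 1) = FreeMagma.lift (gen R) w := by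
  induction w with
  | ih1 i => rfl
  | ih2 x y hx hy =>
    have : (MonoidAlgebra.single (x * y) 1 : NF k d) =
        MonoidAlgebra.single x 1 * MonoidAlgebra.single y 1 := by
      rw [MonoidAlgebra.single_mul_single, one_mul]
    rw [this, qmk_mul, hx, hy, map_mul]

theorem isAlt_free : IsAlt (FreeAlt k d) := fun p q => ⟨alt_left p q, alt_right p q⟩

/-- collapse to two letters -/
def two (i : Fin d) : Fin d → Fin 2 := fun a => if a = i then 0 else 1

theorem lift_two {A : Type*} [NonUnitalNonAssocRing A] (f : Fin d → A) (i j : Fin d)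
    (w : FreeMagma (Fin d)) (hw : ∀ a ∈ (toWord w).toList, a = i ∨ a = j) (hij : i ≠ j) :
    FreeMagma.lift f w = FreeMagma.lift (fun a : Fin 2 => f (if a = 0 then i else j))
      (FreeMagma.map (two i) w) := by
  induction w with
  | ih1 a =>
    rcases hw a (List.mem_singleton.mpr rfl) with rfl | rfl
    · simp [two]
    · simp [two, hij.symm]
  | ih2 x y hx hy =>
    have h1 : (toWord (x * y)).toList = (toWord x).toList ++ (toWord y).toList := by
      change (toWord x * toWord y).toList = _
      rw [FreeMonoid.toList_mul]
    rw [h1] at hw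
    rw [map_mul, hx fun a ha => hw a (List.mem_append_left _ ha),
      hy fun a ha => hw a (List.mem_append_right _ ha), map_mul, map_mul]

theorem toWord_map (i : Fin d) (w : FreeMagma (Fin d)) :
    (toWord (FreeMagma.map (two i) w)).toList = (toWord w).toList.map (two i) := by
  induction w with
  | ih1 a => rfl
  | ih2 x y hx hy =>
    rw [map_mul]
    change (toWord (FreeMagma.map (two i) x) * toWord (FreeMagma.map (two i) y)).toList =
      (toWord x * toWord y).toList.map (two i)
    rw [FreeMonoid.toList_mul, FreeMonoid.toList_mul, hx, hy, List.map_append]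

theorem two_letters (i j : Fin d) (hij : i ≠ j) (w w' : FreeMagma (Fin d))
    (hw : ∀ a ∈ (toWord w).toList, a = i ∨ a = j) (h : toWord w = toWord w') :
    qmk (altRel k d) (MonoidAlgebra.single w 1) = qmk (altRel k d) (MonoidAlgebra.single w' 1) := by
  rw [qmk_lift, qmk_lift, lift_two _ i j w hw hij, lift_two _ i j w' (h ▸ hw) hij]
  apply Pool.Agent.Y547.KI.artin isAlt_free
  apply FreeMonoid.toList.injective
  rw [toWord_map, toWord_map, h]

theorem li_words {n : ℕ} {ι : Type*} (b : ι → (Fin (n + 1) → Fin d)) (hb : Function.Injective b) :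
    LinearIndependent k fun s : ι => qmk (altRel k d)
      (MonoidAlgebra.single (pw (b s 0) (List.ofFn fun q : Fin n => b s q.succ)) 1) := by
  apply LinearIndependent.of_comp (altMap k d)
  have hinj : Function.Injective (fun f : Fin (n + 1) → Fin d =>
      (FreeMonoid.ofList (List.ofFn f) : FreeMonoid (Fin d))) := by
    intro f g h
    exact List.ofFn_injective (FreeMonoid.ofList.injective h)
  have hli : LinearIndependent k (fun w : FreeMonoid (Fin d) => (Finsupp.single w (1 : k))) :=
    Finsupp.linearIndependent_single_one k _
  have h1 := hli.comp _ (hinj.comp hb)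
  have h2 := h1.map'
    (MonoidAlgebra.coeffLinearEquiv (S := k) (M := FreeMonoid (Fin d)) k).symm.toLinearMap
    (LinearEquiv.ker _)
  have h3 : ((altMap k d) ∘ fun s : ι => qmk (altRel k d)
      (MonoidAlgebra.single (pw (b s 0) (List.ofFn fun q : Fin n => b s q.succ)) 1)) =
      (MonoidAlgebra.coeffLinearEquiv (S := k) (M := FreeMonoid (Fin d)) k).symm.toLinearMap ∘
        ((fun w => (Finsupp.single w (1 : k))) ∘ ((fun f : Fin (n + 1) → Fin d =>
          (FreeMonoid.ofList (List.ofFn f) : FreeMonoid (Fin d))) ∘ b)) := by
    funext s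
    simp only [Function.comp_apply]
    rw [altMap_mk, toWord_pw, ← List.ofFn_succ]
    rfl
  rw [h3]
  exact h2

theorem toWord_pword {n : ℕ} (b : Fin (n + 1) → Fin d) :
    (toWord (pw (b 0) (List.ofFn fun q : Fin n => b q.succ))).toList = List.ofFn b := by
  rw [toWord_pw, ← List.ofFn_succ]
  rfl

theorem exists_pword {n : ℕ} (w : FreeMagma (Fin d)) (hw : w.length = n + 1) :
    ∃ b : Fin (n + 1) → Fin d,
      toWord w = toWord (pw (b 0) (List.ofFn fun q : Fin n => b q.succ)) := by
  have h1 := (toWord_length w).trans hw
  refine ⟨fun p => (toWord w).toList.get (p.cast h1.symm), ?_⟩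
  apply FreeMonoid.toList.injective
  rw [toWord_pword (fun p => (toWord w).toList.get (p.cast h1.symm))]
  apply List.ext_get
  · simp [h1]
  · intro m h2 h3
    rw [List.get_ofFn]
    rfl

theorem alt_two (n : ℕ) (hn : 1 ≤ n) :
    Module.finrank k (qcomp (altRel k 2) n) = 2 ^ n := by
  apply le_antisymm _ (alt_dim k 2 n hn)
  obtain ⟨m, rfl⟩ : ∃ m, n = m + 1 := ⟨n - 1, by omega⟩
  have h1 : qcomp (altRel k 2) (m + 1) ≤ Submodule.span k (Set.range
      fun b : Fin (m + 1) → Fin 2 => qmk (altRel k 2)
        (MonoidAlgebra.single (pw (b 0) (List.ofFn fun q : Fin m => b q.succ)) 1)) := by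
    refine Submodule.span_le.mpr ?_
    rintro x ⟨w, hw, rfl⟩
    obtain ⟨b, hb⟩ := exists_pword w hw
    refine Submodule.subset_span ⟨b, ?_⟩
    refine (two_letters 0 1 (by decide) w _ ?_ hb).symm
    intro a _
    fin_cases a
    · exact Or.inl rfl
    · exact Or.inr rfl
  haveI : FiniteDimensional k (Submodule.span k (Set.range
      fun b : Fin (m + 1) → Fin 2 => qmk (altRel k 2)
        (MonoidAlgebra.single (pw (b 0) (List.ofFn fun q : Fin m => b q.succ)) 1))) :=
    FiniteDimensional.span_of_finite k (Set.finite_range _)
  refine (Submodule.finrank_mono h1).trans ?_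
  refine (finrank_range_le_card _).trans ?_
  rw [Fintype.card_fun, Fintype.card_fin, Fintype.card_fin]

/-- the word with letters `i` at the places of `s` -/
def wfun {n : ℕ} (i j : Fin d) (s : Finset (Fin n)) : Fin n → Fin d :=
  fun p => if p ∈ s then i else j

theorem wfun_inj {n : ℕ} {i j : Fin d} (hij : i ≠ j) :
    Function.Injective (wfun i j : Finset (Fin n) → Fin n → Fin d) := by
  intro s t h
  ext p
  have := congrFun h p
  unfold wfun at this
  by_cases h1 : p ∈ s <;> by_cases h2 : p ∈ t <;> simp_all

theorem count_ofFn {n : ℕ} (f : Fin n → Fin d) (a : Fin d) :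
    (List.ofFn f).count a = (Finset.univ.filter fun p => f p = a).card := by
  classical
  induction n with
  | zero => simp
  | succ n ih =>
    rw [List.ofFn_succ, List.count_cons, ih, Finset.card_filter, Finset.card_filter,
      Fin.sum_univ_succ, add_comm]
    congr 1
    by_cases h : f 0 = a <;> simp [h]

theorem count_wfun {n : ℕ} (i j : Fin d) (hij : i ≠ j) (s : Finset (Fin n)) (a : Fin d) :
    (List.ofFn (wfun i j s)).count a =
      (if a = i then s.card else 0) + (if a = j then n - s.card else 0) := by
  classical
  rw [count_ofFn]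
  by_cases hi : a = i
  · subst hi
    rw [if_pos rfl, if_neg hij, add_zero]
    congr 1
    ext p
    simp only [Finset.mem_filter, Finset.mem_univ, true_and, wfun]
    by_cases hp : p ∈ s
    · simp [hp]
    · simp [hp, hij.symm]
  · by_cases hj : a = j
    · subst hj
      rw [if_neg hi, if_pos rfl, zero_add]
      have : (Finset.univ.filter fun p => wfun i a s p = a) = sᶜ := by
        ext p
        simp only [Finset.mem_filter, Finset.mem_univ, true_and, wfun, Finset.mem_compl]
        by_cases hp : p ∈ s
        · simp [hp, hij]
        · simp [hp]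
      rw [this, Finset.card_compl, Fintype.card_fin]
    · rw [if_neg hi, if_neg hj, Finset.card_eq_zero.mpr]
      rw [Finset.filter_eq_empty_iff]
      intro p _
      unfold wfun
      split_ifs
      · exact fun h => hi h.symm
      · exact fun h => hj h.symm

theorem lcont_wfun {n : ℕ} (i j : Fin d) (hij : i ≠ j) (s : Finset (Fin n)) (α : Fin d →₀ ℕ)
    (hα : ∀ l, l ≠ i → l ≠ j → α l = 0) (hi : s.card = α i) (hj : n = α i + α j) :
    lcont (List.ofFn (wfun i j s)) = α := by
  ext a
  rw [lcont_apply, count_wfun i j hij]
  by_cases h1 : a = i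
  · subst h1
    rw [if_pos rfl, if_neg hij, add_zero, hi]
  · by_cases h2 : a = j
    · subst h2
      rw [if_neg h1, if_pos rfl]
      omega
    · rw [if_neg h1, if_neg h2, hα a h1 h2]

theorem finrank_qmcomp_two (d : ℕ) (α : Fin d →₀ ℕ) (i j : Fin d)
    (hij : i ≠ j) (hα : ∀ l, l ≠ i → l ≠ j → α l = 0) (h0 : α ≠ 0) :
    Module.finrank k (qmcomp (altRel k d) α) = (α i + α j).choose (α i) := by
  classical
  obtain ⟨m, hm⟩ : ∃ m, α i + α j = m + 1 := by
    refine Nat.exists_eq_succ_of_ne_zero fun h => h0 ?_
    ext a
    by_cases h1 : a = i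
    · subst h1; change α a = 0; omega
    · by_cases h2 : a = j
      · subst h2; change α a = 0; omega
      · exact hα a h1 h2
  let S : Type := {s : Finset (Fin (m + 1)) // s.card = α i}
  have hS : Fintype.card S = (m + 1).choose (α i) := by
    rw [Fintype.card_subtype]
    have : (Finset.univ.filter fun s : Finset (Fin (m + 1)) => s.card = α i) =
        Finset.powersetCard (α i) Finset.univ := by
      ext s
      simp [Finset.mem_powersetCard]
    rw [this, Finset.card_powersetCard, Finset.card_univ, Fintype.card_fin]
  let b : S → (Fin (m + 1) → Fin d) := fun s => wfun i j s.1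
  have hb : Function.Injective b := (wfun_inj hij).comp Subtype.val_injective
  have hli := li_words (k := k) b hb
  let v : S → QAlg (altRel k d) := fun s => qmk (altRel k d)
      (MonoidAlgebra.single (pw (b s 0) (List.ofFn fun q : Fin m => b s q.succ)) 1)
  have hspan : qmcomp (altRel k d) α = Submodule.span k (Set.range v) := by
    apply le_antisymm
    · refine Submodule.span_le.mpr ?_
      rintro x ⟨w, hw, rfl⟩
      rw [content_eq] at hw
      have hcount : ∀ a, (toWord w).toList.count a = α a := fun a => by
        rw [← lcont_apply, hw]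
      have hmem : ∀ a ∈ (toWord w).toList, a = i ∨ a = j := by
        intro a ha
        by_contra hcon
        push Not at hcon
        have := hα a hcon.1 hcon.2
        rw [← hcount, List.count_eq_zero] at this
        exact this ha
      have hlen : w.length = m + 1 := by
        rw [← toWord_length, ← hm, ← hcount, ← hcount]
        generalize (toWord w).toList = l at hmem
        induction l with
        | nil => rfl
        | cons a l ih =>
          rw [List.count_cons, List.count_cons, List.length_cons,
            ih fun a ha => hmem a (List.mem_cons_of_mem _ ha)]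
          rcases hmem a List.mem_cons_self with h | h
          · subst h
            simp [hij]
            omega
          · subst h
            simp [hij.symm]
            omega
      obtain ⟨c, hc⟩ := exists_pword w hlen
      have hcl : (toWord w).toList = List.ofFn c := by
        rw [hc, toWord_pword]
      have hcb : c = wfun i j (Finset.univ.filter fun p => c p = i) := by
        funext p
        unfold wfun
        have : c p ∈ (toWord w).toList := by
          rw [hcl]
          exact (List.mem_ofFn' c (c p)).mpr ⟨p, rfl⟩
        rcases hmem _ this with h | h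
        · simp [h]
        · simp [h, hij.symm]
      refine Submodule.subset_span ⟨⟨Finset.univ.filter fun p => c p = i, ?_⟩, ?_⟩
      · rw [← count_ofFn, ← hcl, hcount]
      · change qmk (altRel k d) _ = _
        have hbc : b ⟨Finset.univ.filter fun p => c p = i, by
            rw [← count_ofFn, ← hcl, hcount]⟩ = c := hcb.symm
        rw [hbc]
        exact (two_letters i j hij w _ hmem hc).symm
    · refine Submodule.span_le.mpr ?_
      rintro x ⟨s, rfl⟩
      refine Submodule.subset_span ⟨_, ?_, rfl⟩
      rw [content_eq, toWord_pword]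
      exact lcont_wfun i j hij s.1 α hα s.2 hm.symm
  rw [hspan, finrank_span_eq_card hli, hS, hm]

theorem altIdeal_eq (k : Type*) [Field k] (d : ℕ) :
    Pool.Agent.Y80.Shang.altIdeal k d = idealOf (altRel k d) := by
  unfold Pool.Agent.Y80.Shang.altIdeal idealOf
  congr 1
  ext I
  constructor
  · rintro ⟨h1, h2⟩
    refine ⟨?_, h2⟩
    rintro x ⟨a, b, rfl | rfl⟩
    · exact (h1 a b).1
    · exact (h1 a b).2
  · rintro ⟨h1, h2⟩
    exact ⟨fun a b => ⟨h1 ⟨a, b, Or.inl rfl⟩, h1 ⟨a, b, Or.inr rfl⟩⟩, h2⟩

theorem content_shang (w : FreeMagma (Fin d)) :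
    Pool.Agent.Y80.Shang.content w = content w := by
  induction w with
  | ih1 i => rfl
  | ih2 x y hx hy =>
    change Pool.Agent.Y80.Shang.content x + Pool.Agent.Y80.Shang.content y =
      content x + content y
    rw [hx, hy]

theorem finrank_map_mkQ {M : Type*} [AddCommGroup M] [Module k M] {I J : Submodule k M}
    (h : I = J) (S : Submodule k M) :
    Module.finrank k (S.map I.mkQ) = Module.finrank k (S.map J.mkQ) := by
  subst h
  rfl

theorem altComponent_two (k : Type*) [Field k] (d : ℕ) (α : Fin d →₀ ℕ) (i j : Fin d)
    (hij : i ≠ j) (hα : ∀ l, l ≠ i → l ≠ j → α l = 0) (h0 : α ≠ 0) :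
    Module.finrank k (Pool.Agent.Y80.Shang.altComponent k d α) = (α i + α j).choose (α i) := by
  rw [← finrank_qmcomp_two (k := k) d α i j hij hα h0]
  unfold Pool.Agent.Y80.Shang.altComponent
  rw [finrank_map_mkQ (altIdeal_eq k d)]
  have : qmcomp (altRel k d) α = Submodule.map (idealOf (altRel k d)).mkQ
      (Submodule.span k {x | ∃ w : FreeMagma (Fin d), Pool.Agent.Y80.Shang.content w = α ∧
        x = MonoidAlgebra.single w 1}) := by
    rw [Submodule.map_span, qmcomp]
    congr 1
    ext x
    constructor
    · rintro ⟨w, hw, rfl⟩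
      exact ⟨_, ⟨w, (content_shang w).trans hw, rfl⟩, rfl⟩
    · rintro ⟨_, ⟨w, hw, rfl⟩, rfl⟩
      exact ⟨w, (content_shang w).symm.trans hw, rfl⟩
  rw [this]
  rfl

end words

end Pool.Agent.Y80.KI
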