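import Pool.Agent.Y80.KI.GDefs
import Pool.Agent.Y80.KM.ADefs

set_option autoImplicit false

/-! Trivial and adjoint components of the homology of a Lie algebra with an action of `sl_N`. -/

namespace Pool.Agent.Y80.KI

open Pool.Agent.Y80.KM

/-- The `sl_N`-module `H_p(L, k)` has a nonzero invariant vector or a submodule isomorphic to the
adjoint module. -/
def HasH {k L : Type*} [Field k] [LieRing L] [LieAlgebra k L] {N : ℕ} (E : Sl N k → L →ₗ[k] L)
    (hE : ∀ X x y, E X ⁅x, y⁆ = ⁅E X x, y⁆ + ⁅x, E X y⁆) (p : ℕ) : Prop :=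
  HasG (k := k) (H := LieHomology k L p) fun X => hact (E X) (hE X) p

/-- The total multiplicity of the trivial and of the adjoint module in all the `sl_N`-modules
`H_p(L, k)`, `p ≥ 2`, is finite: all the spaces of invariants of `H_p(L, k)` and of homomorphisms
from `sl_N` to `H_p(L, k)`, `p ≥ 2`, are finite-dimensional, and from some `p₀` on `H_p(L, k)` has
neither a nonzero invariant vector nor a submodule isomorphic to the adjoint module. -/
def FinH {k L : Type*} [Field k] [LieRing L] [LieAlgebra k L] {N : ℕ} (E : Sl N k → L →ₗ[k] L)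
    (hE : ∀ X x y, E X ⁅x, y⁆ = ⁅E X x, y⁆ + ⁅x, E X y⁆) : Prop :=
  FinG (k := k) (H := LieHomology k L) fun p X => hact (E X) (hE X) p

end Pool.Agent.Y80.KI
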