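import Pool.Agent.Y80.KI.Hom
import Pool.Agent.Y80.KI.GDefs2
import Pool.Agent.Y708.KM.Simple

set_option autoImplicit false
set_option linter.unusedSectionVars false

open scoped BigOperators Topology DirectSum TensorProduct

/-! Infinite multiplicity implies existence of components. -/

namespace Pool.Agent.Y80.KI

open Pool.Agent.Y80.KM

variable {k L : Type*} [Field k] [CharZero k] [LieRing L] [LieAlgebra k L] {N : ℕ}

/-- a nonzero homomorphism from the adjoint module is injective -/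
theorem inj_of_ne [NeZero N] {E : Sl N k → L →ₗ[k] L}
    {hE : ∀ X x y, E X ⁅x, y⁆ = ⁅E X x, y⁆ + ⁅x, E X y⁆} {p : ℕ}
    {f : Sl N k →ₗ[k] LieHomology k L p}
    (hf : ∀ X Y, f ⁅X, Y⁆ = hact (E X) (hE X) p (f Y)) (hne : f ≠ 0) : Function.Injective f := by
  have hN0 : (N : k) ≠ 0 := Nat.cast_ne_zero.2 (NeZero.ne N)
  rw [← LinearMap.ker_eq_bot]
  by_contra hker
  apply hne
  let v : Sl N k →ₗ[k] Matrix (Fin N) (Fin N) k :=
    { toFun := fun Y => Y.1
      map_add' := fun _ _ => rfl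
      map_smul' := fun _ _ => rfl }
  let K : Submodule k (Matrix (Fin N) (Fin N) k) := (LinearMap.ker f).map v
  have hK : ∀ Z, Z ∈ K ↔ ∃ Y : Sl N k, f Y = 0 ∧ Y.1 = Z := fun Z => Iff.rfl
  have hall := Pool.Agent.Y708.KM.sl_ideal K (by
    intro X Z hZ
    rw [hK] at hZ ⊢
    obtain ⟨Y, hY, rfl⟩ := hZ
    have htr : (X - (X.trace / N) • (1 : Matrix (Fin N) (Fin N) k)).trace = 0 := by
      rw [Matrix.trace_sub, Matrix.trace_smul, Matrix.trace_one, Fintype.card_fin, smul_eq_mul,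
        div_mul_cancel₀ _ hN0, sub_self]
    refine ⟨⁅(⟨_, htr⟩ : Sl N k), Y⁆, ?_, ?_⟩
    · rw [hf, hY, map_zero]
    · change (X - (X.trace / N) • (1 : Matrix (Fin N) (Fin N) k)) * Y.1 -
        Y.1 * (X - (X.trace / N) • (1 : Matrix (Fin N) (Fin N) k)) = X * Y.1 - Y.1 * X
      rw [sub_mul, mul_sub, smul_mul_assoc, mul_smul_comm, one_mul, mul_one]
      abel) (by
    intro Z hZ
    rw [hK] at hZ
    obtain ⟨Y, hY, rfl⟩ := hZ
    exact Y.2) (by
    obtain ⟨Y, hY, hY0⟩ := (Submodule.ne_bot_iff _).1 hker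
    exact ⟨Y.1, (hK _).2 ⟨Y, hY, rfl⟩, fun h => hY0 (Subtype.ext h)⟩)
  ext Y
  obtain ⟨Y', hY', e⟩ := (hK _).1 (hall Y.1 Y.2)
  have : Y' = Y := Subtype.ext e
  rw [← this, hY']
  rfl

/-- if there is no component then the multiplicity spaces are zero -/
theorem bot_of_not [NeZero N] {E : Sl N k → L →ₗ[k] L}
    {hE : ∀ X x y, E X ⁅x, y⁆ = ⁅E X x, y⁆ + ⁅x, E X y⁆} {p : ℕ} (h : ¬ HasH E hE p) :
    trivH E hE p = ⊥ ∧ adjH E hE p = ⊥ := by
  unfold HasH HasG at h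
  rw [not_or] at h
  constructor
  · rw [eq_bot_iff]
    intro m hm
    by_contra hne
    exact h.1 ⟨m, hne, hm⟩
  · rw [eq_bot_iff]
    intro f hf
    by_contra hne
    exact h.2 ⟨f, inj_of_ne hf hne, hf⟩

theorem finH_prop [NeZero N] {E : Sl N k → L →ₗ[k] L}
    {hE : ∀ X x y, E X ⁅x, y⁆ = ⁅E X x, y⁆ + ⁅x, E X y⁆} (h : FinH E hE) :
    (∀ p, 2 ≤ p → Module.Finite k (trivH E hE p) ∧ Module.Finite k (adjH E hE p)) ∧
      ∃ p₀, ∀ p, p₀ ≤ p → trivH E hE p = ⊥ ∧ adjH E hE p = ⊥ := by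
  obtain ⟨h1, p₀, h2⟩ := h
  exact ⟨h1, p₀, fun p hp => bot_of_not (h2 p hp)⟩

/-- if the total multiplicity is infinite then there is a component -/
theorem exists_hasH [NeZero N] {E : Sl N k → L →ₗ[k] L}
    {hE : ∀ X x y, E X ⁅x, y⁆ = ⁅E X x, y⁆ + ⁅x, E X y⁆} (h : ¬ FinH E hE) :
    ∃ p, 2 ≤ p ∧ HasH E hE p := by
  by_contra hcon
  push Not at hcon
  apply h
  refine ⟨fun p hp => ?_, 2, fun p hp => hcon p hp⟩
  have h1 : invG (k := k) (H := LieHomology k L p) (fun X => hact (E X) (hE X) p) = ⊥ :=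
    (bot_of_not (hcon p hp)).1
  have h2 : homG (k := k) (H := LieHomology k L p) (fun X => hact (E X) (hE X) p) = ⊥ :=
    (bot_of_not (hcon p hp)).2
  constructor
  · rw [h1]
    infer_instance
  · rw [h2]
    infer_instance

end Pool.Agent.Y80.KI
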