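import Pool.Agent.Y80.KI.Hom

set_option autoImplicit false
set_option linter.unusedSectionVars false

open scoped BigOperators Topology DirectSum TensorProduct
open MeasureTheory

/-! The homology of `ABG(Alt(V))` for `dim V ≥ 2`. -/

namespace Pool.Agent.Y80.KI

open Pool.Agent.Y80.KM

universe u

/-- for a retract -/
theorem prop_retract {k L L' : Type*} [Field k] [LieRing L] [LieAlgebra k L] [LieRing L']
    [LieAlgebra k L'] {N : ℕ} (F : L' →ₗ[k] L) (G : L →ₗ[k] L')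
    (hF : ∀ x y, F ⁅x, y⁆ = ⁅F x, F y⁆) (hG : ∀ x y, G ⁅x, y⁆ = ⁅G x, G y⁆)
    (hGF : ∀ x, G (F x) = x)
    (E : Sl N k → L →ₗ[k] L) (hE : ∀ X x y, E X ⁅x, y⁆ = ⁅E X x, y⁆ + ⁅x, E X y⁆)
    (E' : Sl N k → L' →ₗ[k] L') (hE' : ∀ X x y, E' X ⁅x, y⁆ = ⁅E' X x, y⁆ + ⁅x, E' X y⁆)
    (hEE : ∀ X x, F (E' X x) = E X (F x))
    (h : (∀ p, 2 ≤ p → Module.Finite k (trivH E hE p) ∧ Module.Finite k (adjH E hE p)) ∧
      ∃ p₀, ∀ p, p₀ ≤ p → trivH E hE p = ⊥ ∧ adjH E hE p = ⊥) :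
    (∀ p, 2 ≤ p → Module.Finite k (trivH E' hE' p) ∧ Module.Finite k (adjH E' hE' p)) ∧
      ∃ p₀, ∀ p, p₀ ≤ p → trivH E' hE' p = ⊥ ∧ adjH E' hE' p = ⊥ := by
  obtain ⟨h1, p₀, h2⟩ := h
  have hm := fun p => Pool.Agent.Y275.KI.mult_mono F G hF hG hGF E hE E' hE' hEE p
  constructor
  · intro p hp
    obtain ⟨⟨f, hf⟩, ⟨g, hg⟩⟩ := hm p
    have i1 := (h1 p hp).1
    have i2 := (h1 p hp).2
    have i3 := IsNoetherian.iff_fg (K := k) (V := adjH E hE p)
    have i4 := i3.mpr i2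
    exact ⟨Module.Finite.of_injective f hf, Module.Finite.of_injective g hg⟩
  · refine ⟨p₀, fun p hp => ?_⟩
    obtain ⟨⟨f, hf⟩, ⟨g, hg⟩⟩ := hm p
    obtain ⟨h3, h4⟩ := h2 p hp
    constructor
    · rw [eq_bot_iff]
      intro m hm
      have h7 : ∀ y ∈ trivH E hE p, y = 0 := by
        rw [h3]
        intro y hy
        exact hy
      have h5 := h7 _ (f ⟨m, hm⟩).2
      have h6 : f ⟨m, hm⟩ = f 0 := by
        rw [map_zero]
        exact Subtype.ext h5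
      exact congrArg Subtype.val (hf h6)
    · rw [eq_bot_iff]
      intro m hm
      have h7 : ∀ y ∈ adjH E hE p, y = 0 := by
        rw [h4]
        intro y hy
        exact hy
      have h5 := h7 _ (g ⟨m, hm⟩).2
      have h6 : g ⟨m, hm⟩ = g 0 := by
        rw [map_zero]
        exact Subtype.ext h5
      exact congrArg Subtype.val (hg h6)

section hdata

variable {k A : Type u} [Field k] [CharZero k] [NonUnitalNonAssocRing A] [Module k A]
  [IsScalarTower k A A] [SMulCommClass k A A] {N : ℕ} [NeZero N] {T : TitsData k A N}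
  {𝒜 : ℕ → Submodule k A}

theorem prop_hdata (hd : GrData T 𝒜)
    (h : (∀ p, 2 ≤ p → Module.Finite k (trivH (fun X : Sl N k => glAct T X.1)
        (fun X => Pool.Agent.Y484.KM.glAct_br T X.1) p) ∧
        Module.Finite k (adjH (fun X : Sl N k => glAct T X.1)
        (fun X => Pool.Agent.Y484.KM.glAct_br T X.1) p)) ∧
      ∃ p₀, ∀ p, p₀ ≤ p → trivH (fun X : Sl N k => glAct T X.1)
        (fun X => Pool.Agent.Y484.KM.glAct_br T X.1) p = ⊥ ∧
        adjH (fun X : Sl N k => glAct T X.1)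
        (fun X => Pool.Agent.Y484.KM.glAct_br T X.1) p = ⊥) :
    (∀ p, 2 ≤ p → FiniteDimensional k (hInv (tData hd) p) ∧
      FiniteDimensional k (hAdj (tData hd) p)) ∧
    ∃ p₀, ∀ p, p₀ ≤ p → hInv (tData hd) p = ⊥ ∧ hAdj (tData hd) p = ⊥ := by
  have e1 : ∀ p, hInv (tData hd) p = trivH (fun X : Sl N k => glAct T X.1)
        (fun X => Pool.Agent.Y484.KM.glAct_br T X.1) p := by
    intro p
    ext m
    exact ⟨fun hm X => hm X.1 X.2, fun hm X hX => hm ⟨X, hX⟩⟩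
  have e2 : ∀ p, hAdj (tData hd) p = adjH (fun X : Sl N k => glAct T X.1)
        (fun X => Pool.Agent.Y484.KM.glAct_br T X.1) p := fun p => rfl
  refine ⟨fun p hp => ⟨?_, (h.1 p hp).2⟩, ?_⟩
  · rw [e1 p]
    exact (h.1 p hp).1
  · obtain ⟨p₀, h2⟩ := h.2
    refine ⟨p₀, fun p hp => ⟨?_, (h2 p hp).2⟩⟩
    rw [e1 p]
    exact (h2 p hp).1

end hdata

section alt

variable {k : Type u} [Field k] [CharZero k]

/-- two generators -/
theorem alt_two_inf (hdim : ∀ n, 1 ≤ n → Module.finrank k (qcomp (altRel k 2) n) = 2 ^ n)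
    (h : (∀ p, 2 ≤ p → Module.Finite k (trivH (fun X : Sl 3 k =>
          glAct (abgData k (FreeAlt k 2) alt_left alt_right) X.1)
        (fun X => Pool.Agent.Y484.KM.glAct_br _ X.1) p) ∧
        Module.Finite k (adjH (fun X : Sl 3 k =>
          glAct (abgData k (FreeAlt k 2) alt_left alt_right) X.1)
        (fun X => Pool.Agent.Y484.KM.glAct_br _ X.1) p)) ∧
      ∃ p₀, ∀ p, p₀ ≤ p → trivH (fun X : Sl 3 k =>
          glAct (abgData k (FreeAlt k 2) alt_left alt_right) X.1)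
        (fun X => Pool.Agent.Y484.KM.glAct_br _ X.1) p = ⊥ ∧
        adjH (fun X : Sl 3 k => glAct (abgData k (FreeAlt k 2) alt_left alt_right) X.1)
        (fun X => Pool.Agent.Y484.KM.glAct_br _ X.1) p = ⊥) : False := by
  obtain ⟨h1, h2⟩ := prop_hdata (alt_gr k 2) h
  have h0 : Module.finrank k (qcomp (altRel k 2) 0) = 0 := by
    rw [Pool.Agent.Y960.KM.qcomp_zero]
    exact finrank_bot k _
  refine inf_of_gr (Or.inr rfl) (alt_gr k 2) (repN3 k)
    (hgen3 (alt_gr k 2) (inv_ne_zero three_ne_zero)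
      (fun n hn => Pool.Agent.Y960.KM.qcomp_gen _ hn)) 1 ?_ 1 1 one_pos (by norm_num)
    (fun _ => -1) (differentiableOn_const _) (fun t _ => by simp) (csum_alt ?_) h1 h2
  · intro n
    rcases Nat.eq_zero_or_pos n with rfl | hn
    · rw [h0]; simp
    · rw [hdim n hn, one_mul]
      push_cast
      rw [abs_of_nonneg (by positivity)]
      exact pow_le_pow_left₀ (by norm_num) (by norm_num) n
  · intro n hn
    rw [hdim n hn]
    push_cast
    rfl

variable {A : Type u} [NonUnitalNonAssocRing A] [Module k A]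
  [IsScalarTower k A A] [SMulCommClass k A A]

theorem alt_inf (hdim : ∀ n, 1 ≤ n → Module.finrank k (qcomp (altRel k 2) n) = 2 ^ n) {d : ℕ}
    (hd2 : 2 ≤ d) {x : Fin d → A} (hx : IsFreeAlt k x) {L : Type u} [LieRing L] [LieAlgebra k L]
    {s : Sl 3 k →ₗ[k] A →ₗ[k] L} {w : BSp k A →ₗ[k] L} {E : Sl 3 k → L →ₗ[k] L}
    (hL : IsABG s w) (hE : IsSlAct s w E)
    (hfin : (∀ p, 2 ≤ p → Module.Finite k (trivH E hE.der p) ∧
        Module.Finite k (adjH E hE.der p)) ∧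
      ∃ p₀, ∀ p, p₀ ≤ p → trivH E hE.der p = ⊥ ∧ adjH E hE.der p = ⊥) : False := by
  have h1 : ∀ a b : A, (a * a) * b = a * (a * b) := fun a b => (hx.1 a b).1
  have h2 : ∀ a b : A, (b * a) * a = b * (a * a) := fun a b => (hx.1 a b).2
  -- the retract
  have hF := Pool.Agent.Y681.KM.freeAlt_isFree k 2
  obtain ⟨φ, hφ, -⟩ := hF.2 A hx.1 ![x ⟨0, by omega⟩, x ⟨1, by omega⟩]
  obtain ⟨ψ, hψ, -⟩ := hx.2 (FreeAlt k 2) hF.1 (fun i : Fin d => if i.1 = 0 then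
    qmk (altRel k 2) (MonoidAlgebra.single (FreeMagma.of 0) 1) else
      qmk (altRel k 2) (MonoidAlgebra.single (FreeMagma.of 1) 1))
  have hφψ : ∀ a, ψ (φ a) = a := by
    obtain ⟨χ, -, hχ⟩ := hF.2 (FreeAlt k 2) hF.1
      (fun i : Fin 2 => qmk (altRel k 2) (MonoidAlgebra.single (FreeMagma.of i) 1))
    have e1 := hχ (ψ.comp φ) (by
      intro i
      rw [NonUnitalAlgHom.comp_apply, hφ]
      fin_cases i
      · exact (hψ ⟨0, by omega⟩).trans (if_pos rfl)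
      · exact (hψ ⟨1, by omega⟩).trans (if_neg (by norm_num)))
    have e2 := hχ (NonUnitalAlgHom.id k (FreeAlt k 2)) (fun i => rfl)
    intro a
    exact DFunLike.congr_fun (e1.trans e2.symm) a
  obtain ⟨F, G, hF1, hG1, hGF, hact⟩ := Pool.Agent.Y275.KI.tfun
    (abgData k (FreeAlt k 2) alt_left alt_right) (abgData k A h1 h2) rfl φ ψ hφψ
    (fun a b c => map_dop (φ : FreeAlt k 2 →+ A) (fun a b => map_mul φ a b) a b c)
    (fun a b c => map_dop (ψ : A →+ FreeAlt k 2) (fun a b => map_mul ψ a b) a b c)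
  obtain ⟨θ, hθ⟩ := exists_theta' k A 3
  obtain ⟨Ψ, hS, hW⟩ := exists_psi (T := abgData k A h1 h2) θ hθ s w hL.1
  have hΨ := lie_iso θ hθ s w Ψ hS hW (by
    intro X Y p q
    have hZ : ((2 : k)⁻¹ • (X.1 * Y.1 + Y.1 * X.1) -
        ((3 : k)⁻¹ * (X.1 * Y.1).trace) • (1 : Matrix (Fin 3) (Fin 3) k)).trace = 0 := by
      rw [Matrix.trace_sub, Matrix.trace_smul, Matrix.trace_add, Matrix.trace_smul,
        Matrix.trace_one, Matrix.trace_mul_comm Y.1 X.1, Fintype.card_fin, smul_eq_mul,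
        smul_eq_mul, ← two_mul, inv_mul_cancel_left₀ two_ne_zero]
      push_cast
      rw [mul_right_comm, inv_mul_cancel₀ three_ne_zero, one_mul, sub_self]
    rw [br_abg h1 h2 X Y ⟨_, hZ⟩ p q rfl, hL.2.1 X Y ⟨_, hZ⟩ p q rfl]
    rw [map_add, map_add, map_smul, hS, hS, hW]) hL.2.2
  have hΨs : ∀ x y, Ψ.symm.toLinearMap ⁅x, y⁆ = ⁅Ψ.symm.toLinearMap x, Ψ.symm.toLinearMap y⁆ := by
    intro x y
    apply Ψ.injective
    show Ψ (Ψ.symm ⁅x, y⁆) = Ψ ⁅Ψ.symm x, Ψ.symm y⁆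
    rw [hΨ, Ψ.apply_symm_apply, Ψ.apply_symm_apply, Ψ.apply_symm_apply]
  refine alt_two_inf hdim ?_
  refine prop_retract (Ψ.toLinearMap ∘ₗ F) (G ∘ₗ Ψ.symm.toLinearMap) ?_ ?_ ?_ E hE.der _ _ ?_
    hfin
  · intro x y
    show Ψ (F ⁅x, y⁆) = ⁅Ψ (F x), Ψ (F y)⁆
    rw [hF1, hΨ]
  · intro x y
    show G (Ψ.symm.toLinearMap ⁅x, y⁆) = _
    rw [hΨs, hG1]
    rfl
  · intro x
    show G (Ψ.symm (Ψ (F x))) = x
    rw [Ψ.symm_apply_apply, hGF]
  · intro X x
    show Ψ (F (glAct _ X.1 x)) = E X (Ψ (F x))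
    rw [hact]
    exact act_psi θ hθ s w Ψ hS hW E hE X (F x)

end alt

end Pool.Agent.Y80.KI
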