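import Pool.Agent.Y80.KI.Defs
import Pool.Agent.Y275.KI.LimRat
import Pool.Agent.Y547.KI.Hol

set_option autoImplicit false

open scoped BigOperators Topology
open MeasureTheory

/-! The analytic contradiction. -/

namespace Pool.Agent.Y80.KI

section fun_an

variable {K : Type*} [TopologicalSpace K] [CompactSpace K] [MeasurableSpace K] [BorelSpace K]
  (μ : Measure K) [IsFiniteMeasure μ]

/-- integration against a continuous function -/
noncomputable def ell (g : C(K, ℝ)) : C(K, ℂ) →L[ℂ] ℂ :=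
  LinearMap.mkContinuous
    { toFun := fun f => ∫ θ, f θ * (g θ : ℂ) ∂μ
      map_add' := fun f f' => by
        have hint : ∀ f : C(K, ℂ), Integrable (fun θ => f θ * (g θ : ℂ)) μ := fun f =>
          Continuous.integrable_of_hasCompactSupport (by fun_prop)
            (HasCompactSupport.of_compactSpace _)
        rw [← integral_add (hint f) (hint f')]
        refine integral_congr_ae (Filter.Eventually.of_forall fun θ => ?_)
        simp only [ContinuousMap.add_apply]
        ring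
      map_smul' := fun c f => by
        rw [RingHom.id_apply, smul_eq_mul, ← integral_const_mul]
        refine integral_congr_ae (Filter.Eventually.of_forall fun θ => ?_)
        simp only [ContinuousMap.smul_apply, smul_eq_mul]
        ring }
    (‖g‖ * μ.real Set.univ) (by
      intro f
      have h : ∀ᵐ θ ∂μ, ‖f θ * (g θ : ℂ)‖ ≤ ‖f‖ * ‖g‖ := Filter.Eventually.of_forall fun θ => by
        rw [norm_mul]
        refine mul_le_mul (f.norm_coe_le_norm θ) ?_ (norm_nonneg _) (norm_nonneg _)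
        rw [Complex.norm_real]
        exact g.norm_coe_le_norm θ
      refine (MeasureTheory.norm_integral_le_of_norm_le_const h).trans (le_of_eq ?_)
      ring)

theorem ell_apply (g : C(K, ℝ)) (f : C(K, ℂ)) : ell μ g f = ∫ θ, f θ * (g θ : ℂ) ∂μ := rfl

theorem exp_apply (f : C(K, ℂ)) (θ : K) : (NormedSpace.exp f) θ = Complex.exp (f θ) := by
  rw [Complex.exp_eq_exp_ℂ]
  let e : C(K, ℂ) →+* ℂ := 
    { toFun := fun f => f θ
      map_one' := rfl
      map_mul' := fun _ _ => rfl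
      map_zero' := rfl
      map_add' := fun _ _ => rfl }
  exact NormedSpace.map_exp e (continuous_eval_const θ) f

end fun_an

/-- an open connected set around `0` and `1/2` that avoids `1/2` -/
def Vset (ρ : ℝ) : Set ℂ :=
  (Metric.ball 0 ρ ∩ {z | z.re < 1 / 2}) ∪ (Metric.ball 0 ρ ∩ {z | 0 < z.im}) ∪
    (Metric.ball 0 ρ ∩ {z | 1 / 2 < z.re})

theorem Vset_open (ρ : ℝ) : IsOpen (Vset ρ) := by
  refine IsOpen.union (IsOpen.union ?_ ?_) ?_
  · exact Metric.isOpen_ball.inter (isOpen_lt Complex.continuous_re continuous_const)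
  · exact Metric.isOpen_ball.inter (isOpen_lt continuous_const Complex.continuous_im)
  · exact Metric.isOpen_ball.inter (isOpen_lt continuous_const Complex.continuous_re)

theorem Vset_conn {ρ : ℝ} (hρ : 1 / 2 < ρ) : IsPreconnected (Vset ρ) := by
  have h1 : IsPreconnected (Metric.ball (0 : ℂ) ρ ∩ {z | z.re < 1 / 2}) :=
    ((convex_ball (0 : ℂ) ρ).inter (convex_halfSpace_re_lt _)).isPreconnected
  have h2 : IsPreconnected (Metric.ball (0 : ℂ) ρ ∩ {z | 0 < z.im}) :=
    ((convex_ball (0 : ℂ) ρ).inter (convex_halfSpace_im_gt _)).isPreconnected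
  have h3 : IsPreconnected (Metric.ball (0 : ℂ) ρ ∩ {z | 1 / 2 < z.re}) :=
    ((convex_ball (0 : ℂ) ρ).inter (convex_halfSpace_re_gt _)).isPreconnected
  have hx : ∀ z : ℂ, z.re ^ 2 + z.im ^ 2 < ρ ^ 2 → z ∈ Metric.ball (0 : ℂ) ρ := by
    intro z hz
    rw [mem_ball_zero_iff, ← Real.sqrt_sq (by linarith : (0 : ℝ) ≤ ρ), Complex.norm_eq_sqrt_sq_add_sq]
    exact Real.sqrt_lt_sqrt (by positivity) hz
  refine (h1.union' ?_ h2).union' ?_ h3
  · refine ⟨⟨0, 1 / 4⟩, ⟨hx _ ?_, ?_⟩, hx _ ?_, ?_⟩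
    · norm_num; nlinarith
    · norm_num
    · norm_num; nlinarith
    · norm_num
  · obtain ⟨η, h1, h2⟩ : ∃ η : ℝ, 0 < η ∧ (1 / 2 + η) ^ 2 + η ^ 2 < ρ ^ 2 := by
      refine ⟨min (1 / 8) ((ρ ^ 2 - 1 / 4) / 4), ?_, ?_⟩
      · apply lt_min (by norm_num)
        nlinarith
      · set η := min (1 / 8) ((ρ ^ 2 - 1 / 4) / 4) with hη
        have e1 : η ≤ 1 / 8 := min_le_left _ _
        have e2 : η ≤ (ρ ^ 2 - 1 / 4) / 4 := min_le_right _ _
        have e3 : 0 < η := lt_min (by norm_num) (by nlinarith)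
        nlinarith
    refine ⟨⟨1 / 2 + η, η⟩, Or.inr ⟨hx _ h2, h1⟩, hx _ h2, ?_⟩
    show (1 : ℝ) / 2 < 1 / 2 + η
    linarith

theorem Vset_sub {ρ : ℝ} {z : ℂ} (hz : z ∈ Vset ρ) : z ∈ Metric.ball (0 : ℂ) ρ ∧ z ≠ 1 / 2 := by
  rcases hz with (h | h) | h
  · refine ⟨h.1, ?_⟩
    rintro rfl
    have := h.2
    norm_num at this
  · refine ⟨h.1, ?_⟩
    rintro rfl
    have := h.2
    norm_num at this
  · refine ⟨h.1, ?_⟩
    rintro rfl
    have := h.2
    norm_num at this

theorem mem_Vset_real {ρ t : ℝ} (h1 : |t| < ρ) (h2 : t ≠ 1 / 2) : (t : ℂ) ∈ Vset ρ := by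
  have h3 : (t : ℂ) ∈ Metric.ball (0 : ℂ) ρ := by
    rw [mem_ball_zero_iff, Complex.norm_real]
    exact h1
  rcases lt_or_gt_of_ne h2 with h | h
  · left; left
    exact ⟨h3, h⟩
  · right
    exact ⟨h3, h⟩

end Pool.Agent.Y80.KI
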