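import Pool.Agent.Y80.KI.Ana

set_option autoImplicit false

open scoped BigOperators Topology
open MeasureTheory

/-! The analytic contradiction: main theorem. -/

namespace Pool.Agent.Y80.KI

theorem differentiableAt_expB {B : Type*} [NormedCommRing B] [NormedAlgebra ℂ B] [CompleteSpace B]
    (x : B) : DifferentiableAt ℂ (NormedSpace.exp : B → B) x :=
  (NormedSpace.exp_analytic x).differentiableAt

theorem an {K : Type*} [TopologicalSpace K] [CompactSpace K] [MeasurableSpace K] [BorelSpace K]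
    (μ : Measure K) [IsFiniteMeasure μ] [μ.IsOpenPosMeasure] (S : ℕ → C(K, ℝ)) (M : ℝ)
    (hM : ∀ k θ, |S k θ| ≤ M) (w : C(K, ℝ)) (hw : ∀ θ, 0 ≤ w θ) (θ₀ θ₁ : K) (hw0 : 0 < w θ₀)
    (hw1 : 0 < w θ₁) (hS : S 1 θ₀ < S 1 θ₁) (A : ℕ → ℤ) (r ρ : ℝ) (hr : 0 < r) (hρ : 1 / 2 < ρ)
    (h : ℂ → ℂ) (hh : DifferentiableOn ℂ h (Metric.ball 0 ρ))
    (hreal : ∀ t : ℝ, |t| < ρ → (h t).im = 0)
    (hc : ∀ᶠ t in 𝓝 (0 : ℂ), csum A t = r / (1 - 2 * t) + h t)
    (p : ℕ → C(K, ℂ)) (hp : ∀ᶠ t in 𝓝 (0 : ℂ), HasSum (fun m => t ^ m • p m)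
        (NormedSpace.exp (-∑' k : ℕ, (csum A (t ^ (k + 1)) / ((k : ℂ) + 1)) • toC (S (k + 1)))))
    (P0 P1 : Polynomial ℝ) (hP : P0 ≠ 0)
    (hrel : ∀ n, ∑ x ∈ Finset.HasAntidiagonal.antidiagonal n, ell μ w (p x.1) * (P1.coeff x.2 : ℂ) =
      ∑ x ∈ Finset.HasAntidiagonal.antidiagonal n, ell μ (S 1 * w) (p x.1) * (P0.coeff x.2 : ℂ)) : False := by
  -- the value at zero
  have h0 : h 0 = -r := by
    have h1 := hc.self_of_nhds
    have h2 : csum A 0 = 0 := by
      rw [csum]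
      simp
    rw [h2] at h1
    linear_combination -h1
  obtain ⟨ρ', hρ1, hρ2, hρ3, G, hG, hGs⟩ := Pool.Agent.Y547.KI.hol S M hM r ρ hρ h hh h0
  set c : ℂ → ℂ := fun t => r / (1 - 2 * t) + h t with hcdef
  set F : ℂ → C(K, ℂ) := fun t => NormedSpace.exp (-(c t • toC (S 1) + G t)) with hF
  have hne : ∀ t ∈ Vset ρ', (1 : ℂ) - 2 * t ≠ 0 := by
    intro t ht h1
    apply (Vset_sub ht).2
    linear_combination (-1 / 2 : ℂ) * h1
  have hcd : DifferentiableOn ℂ c (Vset ρ') := by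
    refine DifferentiableOn.add ?_ (hh.mono fun z hz => ?_)
    · refine DifferentiableOn.div (differentiableOn_const _) ?_ hne
      fun_prop
    · exact Metric.ball_subset_ball hρ2 (Vset_sub hz).1
  have hFd : DifferentiableOn ℂ F (Vset ρ') := by
    intro t ht
    have h1 : DifferentiableWithinAt ℂ (fun t => -(c t • toC (S 1) + G t)) (Vset ρ') t :=
      (((hcd t ht).smul_const _).add ((hG t (Vset_sub ht).1).mono fun z hz => (Vset_sub hz).1)).neg
    exact (differentiableAt_expB _).comp_differentiableWithinAt t h1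
  -- the two functions
  set D : ℂ → ℂ := fun t => ell μ w (F t) with hD
  set X : ℂ → ℂ := fun t => ell μ (S 1 * w) (F t) with hX
  have hDd : DifferentiableOn ℂ D (Vset ρ') := fun t ht =>
    (ell μ w).differentiableAt.comp_differentiableWithinAt t (hFd t ht)
  have hXd : DifferentiableOn ℂ X (Vset ρ') := fun t ht =>
    (ell μ (S 1 * w)).differentiableAt.comp_differentiableWithinAt t (hFd t ht)
  set Q0 : Polynomial ℂ := P0.map (algebraMap ℝ ℂ) with hQ0
  set Q1 : Polynomial ℂ := P1.map (algebraMap ℝ ℂ) with hQ1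
  set Φ : ℂ → ℂ := fun t => D t * Q1.eval t - X t * Q0.eval t with hΦ
  have hΦd : DifferentiableOn ℂ Φ (Vset ρ') :=
    (hDd.mul Q1.differentiable.differentiableOn).sub (hXd.mul Q0.differentiable.differentiableOn)
  have h0V : (0 : ℂ) ∈ Vset ρ' := by
    have := mem_Vset_real (ρ := ρ') (t := 0) (by rw [abs_zero]; linarith) (by norm_num)
    simpa using this
  -- the series of F near zero
  have hcev : ∀ᶠ t in 𝓝 (0 : ℂ), ∀ k : ℕ, csum A (t ^ (k + 1)) = c (t ^ (k + 1)) := by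
    rw [Metric.eventually_nhds_iff] at hc
    obtain ⟨ε, hε, hc⟩ := hc
    rw [Metric.eventually_nhds_iff]
    refine ⟨min ε 1, lt_min hε one_pos, fun t ht k => hc ?_⟩
    rw [dist_zero_right] at ht ⊢
    have h1 : ‖t‖ < 1 := lt_of_lt_of_le ht (min_le_right _ _)
    rw [norm_pow]
    calc ‖t‖ ^ (k + 1) ≤ ‖t‖ ^ 1 := pow_le_pow_of_le_one (norm_nonneg _) h1.le (by omega)
      _ = ‖t‖ := pow_one _
      _ < ε := lt_of_lt_of_le ht (min_le_left _ _)
  have hFs : ∀ᶠ t in 𝓝 (0 : ℂ), HasSum (fun m => t ^ m • p m) (F t) := by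
    have hball : ∀ᶠ t in 𝓝 (0 : ℂ), t ∈ Metric.ball (0 : ℂ) ρ' :=
      Metric.ball_mem_nhds _ (by linarith)
    filter_upwards [hcev, hp, hball] with t h1 h2 h3
    have h4 : (∑' k : ℕ, (csum A (t ^ (k + 1)) / ((k : ℂ) + 1)) • toC (S (k + 1))) =
        c t • toC (S 1) + G t := by
      have h5 : HasSum (fun k : ℕ => (csum A (t ^ (k + 1)) / ((k : ℂ) + 1)) • toC (S (k + 1)))
          (c t • toC (S 1) + G t) := by
        rw [← hasSum_nat_add_iff' 1]
        have h6 := hGs t h3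
        have e1 : (fun n : ℕ => (csum A (t ^ (n + 1 + 1)) / (((n + 1 : ℕ) : ℂ) + 1)) •
            toC (S (n + 1 + 1))) = fun k : ℕ =>
            ((r / (1 - 2 * t ^ (k + 2)) + h (t ^ (k + 2))) / ((k : ℂ) + 2)) • toC (S (k + 2)) := by
          funext k
          rw [h1 (k + 1)]
          simp only [hcdef]
          have e2 : (((k + 1 : ℕ) : ℂ) + 1) = (k : ℂ) + 2 := by push_cast; ring
          rw [e2]
        have e3 : (c t • toC (S 1) + G t) - ∑ i ∈ Finset.range 1,
            (csum A (t ^ (i + 1)) / ((i : ℂ) + 1)) • toC (S (i + 1)) = G t := by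
          rw [Finset.sum_range_one, h1 0]
          simp
        rw [e1, e3]
        exact h6
      exact h5.tsum_eq
    rw [h4] at h2
    exact h2
  -- vanishing near zero
  have hser : ∀ (g : C(K, ℝ)) (Q : Polynomial ℝ) (t : ℂ), HasSum (fun m => t ^ m • p m) (F t) →
      ell μ g (F t) * (Q.map (algebraMap ℝ ℂ)).eval t =
        ∑' n, t ^ n * ∑ x ∈ Finset.HasAntidiagonal.antidiagonal n, ell μ g (p x.1) * (Q.coeff x.2 : ℂ) := by
    intro g Q t ht
    have h1 : HasSum (fun m => t ^ m * ell μ g (p m)) (ell μ g (F t)) := by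
      have := (ell μ g).hasSum ht
      simpa only [map_smul, smul_eq_mul] using this
    have h2 : HasSum (fun m => (Q.coeff m : ℂ) * t ^ m) ((Q.map (algebraMap ℝ ℂ)).eval t) := by
      rw [Polynomial.eval_eq_sum_range]
      have : ∀ m ∉ Finset.range ((Q.map (algebraMap ℝ ℂ)).natDegree + 1),
          (Q.coeff m : ℂ) * t ^ m = 0 := by
        intro m hm
        rw [Finset.mem_range, not_lt] at hm
        have h3 : (Q.map (algebraMap ℝ ℂ)).coeff m = 0 :=
          Polynomial.coeff_eq_zero_of_natDegree_lt (by omega)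
        rw [Polynomial.coeff_map] at h3
        have h4 : (Q.coeff m : ℂ) = 0 := h3
        rw [h4, zero_mul]
      have h5 : HasSum (fun m => (Q.coeff m : ℂ) * t ^ m)
          (∑ m ∈ Finset.range ((Q.map (algebraMap ℝ ℂ)).natDegree + 1),
            (Q.coeff m : ℂ) * t ^ m) := hasSum_sum_of_ne_finset_zero this
      convert h5 using 1
      refine Finset.sum_congr rfl fun m _ => ?_
      rw [Polynomial.coeff_map]
      rfl
    rw [← h1.tsum_eq, ← h2.tsum_eq,
      tsum_mul_tsum_eq_tsum_sum_antidiagonal_of_summable_norm h1.summable.norm h2.summable.norm]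
    refine tsum_congr fun n => ?_
    rw [Finset.mul_sum]
    refine Finset.sum_congr rfl fun x hx => ?_
    rw [Finset.HasAntidiagonal.mem_antidiagonal] at hx
    rw [← hx, pow_add]
    ring
  have hΦ0 : ∀ᶠ t in 𝓝 (0 : ℂ), Φ t = 0 := by
    filter_upwards [hFs] with t ht
    simp only [hΦ, hD, hX]
    rw [hser w P1 t ht, hser (S 1 * w) P0 t ht, sub_eq_zero]
    refine tsum_congr fun n => ?_
    rw [hrel n]
  have hΦV : Set.EqOn Φ 0 (Vset ρ') :=
    (hΦd.analyticOnNhd (Vset_open ρ')).eqOn_zero_of_preconnected_of_eventuallyEq_zero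
      (Vset_conn hρ1) h0V hΦ0
  -- real points
  have hcre : ∀ t : ℝ, |t| < ρ' → ((c t).re : ℂ) = c t := by
    intro t ht
    apply Complex.ext
    · simp
    · rw [Complex.ofReal_im]
      simp only [hcdef]
      have e1 : ((r : ℂ) / (1 - 2 * (t : ℂ))) = ((r / (1 - 2 * t) : ℝ) : ℂ) := by push_cast; ring
      rw [e1, Complex.add_im, Complex.ofReal_im, hreal t (by linarith), add_zero]
  have hGre : ∀ t : ℝ, |t| < ρ' → ∀ θ, ((G t θ).re : ℂ) = G t θ := by
    intro t ht θ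
    have h1 : (t : ℂ) ∈ Metric.ball (0 : ℂ) ρ' := by
      rw [mem_ball_zero_iff, Complex.norm_real]
      exact ht
    have h2 := (ContinuousMap.evalCLM ℂ θ).hasSum (hGs t h1)
    have h3 : HasSum (fun k : ℕ => (((c ((t ^ (k + 2) : ℝ) : ℂ)).re / ((k : ℝ) + 2) *
        S (k + 2) θ : ℝ) : ℂ)) (G t θ) := by
      suffices e : (fun k : ℕ => (((c ((t ^ (k + 2) : ℝ) : ℂ)).re / ((k : ℝ) + 2) *
          S (k + 2) θ : ℝ) : ℂ)) = fun k : ℕ => ContinuousMap.evalCLM ℂ θ
          (((r / (1 - 2 * (t : ℂ) ^ (k + 2)) + h ((t : ℂ) ^ (k + 2))) / ((k : ℂ) + 2)) •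
            toC (S (k + 2))) by
        rw [e]
        exact h2
      funext k
      have h4 : |t ^ (k + 2)| < ρ' := by
        rw [abs_pow]
        calc |t| ^ (k + 2) ≤ |t| ^ 1 := pow_le_pow_of_le_one (abs_nonneg _) (by linarith) (by omega)
          _ = |t| := pow_one _
          _ < ρ' := ht
      have h5 := hcre (t ^ (k + 2)) h4
      rw [map_smul, smul_eq_mul]
      show _ = _ * ((S (k + 2) θ : ℝ) : ℂ)
      have h6 : (r / (1 - 2 * (t : ℂ) ^ (k + 2)) + h ((t : ℂ) ^ (k + 2))) =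
          c ((t ^ (k + 2) : ℝ) : ℂ) := by
        simp only [hcdef]
        push_cast
        rfl
      rw [h6, ← h5]
      push_cast
      rfl
    have h7 := Complex.hasSum_im h3
    simp only [Complex.ofReal_im] at h7
    have h8 : (G t θ).im = 0 := by
      have := h7.unique hasSum_zero
      exact this
    apply Complex.ext
    · simp
    · rw [Complex.ofReal_im, h8]
  set cR : ℝ → ℝ := fun t => (c t).re with hcR
  set ψ : ℝ → C(K, ℝ) := fun t => ⟨fun θ => (G t θ).re, by fun_prop⟩ with hψ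
  have hFreal : ∀ t : ℝ, |t| < ρ' → ∀ θ, F t θ = ((Real.exp (-cR t * S 1 θ - ψ t θ) : ℝ) : ℂ) := by
    intro t ht θ
    simp only [hF]
    rw [exp_apply, Complex.ofReal_exp]
    congr 1
    show -(c t * ((S 1 θ : ℝ) : ℂ) + G t θ) =
      ((-(c t).re * S 1 θ - (G t θ).re : ℝ) : ℂ)
    rw [← hcre t ht, ← hGre t ht θ]
    push_cast
    simp only [Complex.ofReal_re]
    ring
  set Dr : ℝ → ℝ := fun t => ∫ θ, Real.exp (-cR t * S 1 θ - ψ t θ) * w θ ∂μ with hDr
  set Xr : ℝ → ℝ := fun t => ∫ θ, S 1 θ * (Real.exp (-cR t * S 1 θ - ψ t θ) * w θ) ∂μ with hXr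
  have hDe : ∀ t : ℝ, |t| < ρ' → D t = (Dr t : ℂ) := by
    intro t ht
    simp only [hD, hDr]
    rw [ell_apply, ← integral_complex_ofReal]
    refine integral_congr_ae (Filter.Eventually.of_forall fun θ => ?_)
    simp only []
    rw [hFreal t ht θ]
    push_cast
    ring
  have hXe : ∀ t : ℝ, |t| < ρ' → X t = (Xr t : ℂ) := by
    intro t ht
    simp only [hX, hXr]
    rw [ell_apply, ← integral_complex_ofReal]
    refine integral_congr_ae (Filter.Eventually.of_forall fun θ => ?_)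
    simp only [ContinuousMap.mul_apply]
    rw [hFreal t ht θ]
    push_cast
    ring
  -- bounds near one half
  have hhalf : ((1 / 2 : ℝ) : ℂ) ∈ Metric.ball (0 : ℂ) ρ' := by
    rw [mem_ball_zero_iff, Complex.norm_real, Real.norm_eq_abs, abs_of_pos (by norm_num)]
    exact hρ1
  have hGc : ContinuousAt (fun t : ℝ => G t) (1 / 2) := by
    have h1 : ContinuousAt G ((1 / 2 : ℝ) : ℂ) :=
      (hG.differentiableAt (Metric.isOpen_ball.mem_nhds hhalf)).continuousAt
    exact ContinuousAt.comp (f := fun t : ℝ => (t : ℂ)) h1 Complex.continuous_ofReal.continuousAt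
  have hhc : ContinuousAt (fun t : ℝ => h t) (1 / 2) := by
    have h1 : ContinuousAt h ((1 / 2 : ℝ) : ℂ) :=
      (hh.differentiableAt (Metric.isOpen_ball.mem_nhds
        (Metric.ball_subset_ball hρ2 hhalf))).continuousAt
    exact ContinuousAt.comp (f := fun t : ℝ => (t : ℂ)) h1 Complex.continuous_ofReal.continuousAt
  obtain ⟨δ1, hδ1, hb1⟩ : ∃ δ1 > 0, ∀ t : ℝ, |t - 1 / 2| < δ1 →
      ‖G t‖ ≤ ‖G ((1 / 2 : ℝ) : ℂ)‖ + 1 := by
    have h1 : ∀ᶠ t : ℝ in 𝓝 (1 / 2), ‖G t‖ < ‖G ((1 / 2 : ℝ) : ℂ)‖ + 1 :=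
      hGc.norm.eventually_lt continuousAt_const (by linarith)
    rw [Metric.eventually_nhds_iff] at h1
    obtain ⟨δ, hδ, h1⟩ := h1
    exact ⟨δ, hδ, fun t ht => (h1 (by rw [Real.dist_eq]; exact ht)).le⟩
  obtain ⟨δ2, hδ2, hb2⟩ : ∃ δ2 > 0, ∀ t : ℝ, |t - 1 / 2| < δ2 →
      ‖h t‖ ≤ ‖h ((1 / 2 : ℝ) : ℂ)‖ + 1 := by
    have h1 : ∀ᶠ t : ℝ in 𝓝 (1 / 2), ‖h t‖ < ‖h ((1 / 2 : ℝ) : ℂ)‖ + 1 :=
      hhc.norm.eventually_lt continuousAt_const (by linarith)
    rw [Metric.eventually_nhds_iff] at h1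
    obtain ⟨δ, hδ, h1⟩ := h1
    exact ⟨δ, hδ, fun t ht => (h1 (by rw [Real.dist_eq]; exact ht)).le⟩
  set MG : ℝ := ‖G ((1 / 2 : ℝ) : ℂ)‖ + 1 with hMG
  set Mh : ℝ := ‖h ((1 / 2 : ℝ) : ℂ)‖ + 1 with hMh
  set ε : ℝ := (S 1 θ₁ - S 1 θ₀) / 3 with hε
  have hεpos : 0 < ε := by simp only [hε]; linarith
  obtain ⟨C1, hC1⟩ := Pool.Agent.Y275.KI.lim μ w (S 1) hw θ₀ hw0 MG ε hεpos
  obtain ⟨C2, hC2⟩ := Pool.Agent.Y275.KI.lim μ w (-S 1) hw θ₁ hw1 MG ε hεpos
  have hψb : ∀ t : ℝ, |t - 1 / 2| < δ1 → ∀ θ, |ψ t θ| ≤ MG := by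
    intro t ht θ
    calc |ψ t θ| = |(G t θ).re| := rfl
      _ ≤ ‖G t θ‖ := Complex.abs_re_le_norm _
      _ ≤ ‖G t‖ := (G t).norm_coe_le_norm θ
      _ ≤ MG := hb1 t ht
  -- size of c
  set C : ℝ := max (max C1 C2) 0 + Mh + 1 with hC
  have hCpos : 0 < C := by
    have h1 : 0 ≤ max (max C1 C2) 0 := le_max_right _ _
    have h2 : 0 < Mh := by simp only [hMh]; positivity
    linarith
  set δ : ℝ := min (min δ1 δ2) (min (ρ' - 1 / 2) (r / (2 * C))) with hδ
  have hδpos : 0 < δ := by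
    apply lt_min (lt_min hδ1 hδ2)
    apply lt_min (by linarith)
    positivity
  have hd1 : δ ≤ δ1 := (min_le_left _ _).trans (min_le_left _ _)
  have hd2 : δ ≤ δ2 := (min_le_left _ _).trans (min_le_right _ _)
  have hd3 : δ ≤ ρ' - 1 / 2 := (min_le_right _ _).trans (min_le_left _ _)
  have hd4 : δ ≤ r / (2 * C) := (min_le_right _ _).trans (min_le_right _ _)
  have htρ : ∀ t : ℝ, |t - 1 / 2| < δ → |t| < ρ' := by
    intro t ht
    rw [abs_lt] at ht ⊢
    constructor <;> linarith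
  have hcabs : ∀ t : ℝ, |t - 1 / 2| < δ → cR t = r / (1 - 2 * t) + (h t).re := by
    intro t _
    simp only [hcR, hcdef]
    have e1 : ((r : ℂ) / (1 - 2 * (t : ℂ))) = ((r / (1 - 2 * t) : ℝ) : ℂ) := by push_cast; ring
    rw [Complex.add_re, e1, Complex.ofReal_re]
  have hhre : ∀ t : ℝ, |t - 1 / 2| < δ → |(h t).re| ≤ Mh := by
    intro t ht
    exact (Complex.abs_re_le_norm _).trans (hb2 t (lt_of_lt_of_le ht hd2))
  have hrC : ∀ s : ℝ, 0 < s → s < 2 * δ → C ≤ r / s := by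
    intro s hs hs2
    rw [le_div_iff₀ hs]
    have h1 : s ≤ r / C := by
      have : 2 * δ ≤ r / C := by
        calc 2 * δ ≤ 2 * (r / (2 * C)) := by linarith
          _ = r / C := by field_simp
      linarith
    calc C * s ≤ C * (r / C) := mul_le_mul_of_nonneg_left h1 hCpos.le
      _ = r := by field_simp
  have hleft : ∀ t : ℝ, 1 / 2 - δ < t → t < 1 / 2 → max C1 C2 ≤ cR t := by
    intro t ht1 ht2
    have ht : |t - 1 / 2| < δ := by rw [abs_lt]; constructor <;> linarith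
    rw [hcabs t ht]
    have h1 := hrC (1 - 2 * t) (by linarith) (by linarith)
    have h2 := (abs_le.mp (hhre t ht)).1
    have h3 : max C1 C2 ≤ max (max C1 C2) 0 := le_max_left _ _
    linarith
  have hright : ∀ t : ℝ, 1 / 2 < t → t < 1 / 2 + δ → max C1 C2 ≤ -cR t := by
    intro t ht1 ht2
    have ht : |t - 1 / 2| < δ := by rw [abs_lt]; constructor <;> linarith
    rw [hcabs t ht]
    have h1 := hrC (2 * t - 1) (by linarith) (by linarith)
    have h2 := (abs_le.mp (hhre t ht)).2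
    have h3 : max C1 C2 ≤ max (max C1 C2) 0 := le_max_left _ _
    have h4 : r / (1 - 2 * t) = -(r / (2 * t - 1)) := by
      rw [← div_neg]
      congr 1
      ring
    rw [h4]
    linarith
  have hint : ∀ f : K → ℝ, Continuous f → Integrable f μ := fun f hf =>
    hf.integrable_of_hasCompactSupport (HasCompactSupport.of_compactSpace f)
  refine Pool.Agent.Y275.KI.rat P0 P1 hP Dr Xr (S 1 θ₀ + ε) (S 1 θ₁ - ε) M δ
    (by simp only [hε]; linarith) hδpos ?_ ?_ ?_ ?_ ?_
  · intro t _ _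
    simp only [hDr]
    rw [integral_pos_iff_support_of_nonneg]
    · have h1 : IsOpen {θ | 0 < w θ} := isOpen_lt continuous_const w.continuous
      have h2 : 0 < μ {θ | 0 < w θ} := h1.measure_pos μ ⟨θ₀, hw0⟩
      refine lt_of_lt_of_le h2 (measure_mono fun θ hθ => ?_)
      have h3 : 0 < w θ := hθ
      rw [Function.mem_support]
      positivity
    · intro θ
      exact mul_nonneg (Real.exp_pos _).le (hw θ)
    · exact hint _ (by fun_prop)
  · intro t _ _
    simp only [hDr, hXr]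
    rw [← Real.norm_eq_abs, ← integral_const_mul]
    refine (norm_integral_le_integral_norm _).trans ?_
    refine integral_mono (hint _ (by fun_prop)) (hint _ (by fun_prop)) fun θ => ?_
    simp only []
    rw [norm_mul, Real.norm_eq_abs, Real.norm_eq_abs,
      abs_of_nonneg (mul_nonneg (Real.exp_pos _).le (hw θ))]
    exact mul_le_mul_of_nonneg_right (hM 1 θ) (mul_nonneg (Real.exp_pos _).le (hw θ))
  · intro t ht1 ht2
    have ht : |t - 1 / 2| < δ := by rw [abs_lt]; constructor <;> linarith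
    have h1 := hC1 (cR t) ((le_max_left _ _).trans (hleft t ht1 ht2)) (ψ t)
      (hψb t (lt_of_lt_of_le ht hd1))
    exact h1
  · intro t ht1 ht2
    have ht : |t - 1 / 2| < δ := by rw [abs_lt]; constructor <;> linarith
    have h1 := hC2 (-cR t) ((le_max_right _ _).trans (hright t ht1 ht2)) (ψ t)
      (hψb t (lt_of_lt_of_le ht hd1))
    simp only [ContinuousMap.neg_apply, neg_mul, neg_neg, mul_neg, integral_neg] at h1
    simp only [hDr, hXr]
    simp only [neg_mul]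
    linarith
  · intro t ht1 ht
    have h1 : (t : ℂ) ∈ Vset ρ' := mem_Vset_real (htρ t ht) ht1
    have h2 : Φ t = 0 := hΦV h1
    simp only [hΦ] at h2
    rw [hDe t (htρ t ht), hXe t (htρ t ht), hQ0, hQ1] at h2
    have h3 : ∀ Q : Polynomial ℝ, (Q.map (algebraMap ℝ ℂ)).eval (t : ℂ) = ((Q.eval t : ℝ) : ℂ) := by
      intro Q
      exact Polynomial.eval_map_apply (f := algebraMap ℝ ℂ) t
    rw [h3, h3] at h2
    have h4 : ((Dr t * P1.eval t : ℝ) : ℂ) = ((Xr t * P0.eval t : ℝ) : ℂ) := by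
      push_cast
      exact sub_eq_zero.mp h2
    exact_mod_cast h4

end Pool.Agent.Y80.KI
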