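import Pool.Agent.Y80.KI.AltFin
import Pool.Agent.Y515.KI.ShirC
import Pool.Agent.Y515.KI.JDimA

set_option autoImplicit false
set_option linter.unusedSectionVars false

open scoped BigOperators Topology DirectSum TensorProduct
open MeasureTheory

/-! The homology of `TAG(Jord(V))` for `dim V ≥ 2`. -/

namespace Pool.Agent.Y80.KI

open Pool.Agent.Y80.KM

universe u

/-- `∑ 2^n t^n + ∑ 2^⌈n/2⌉ t^n` -/
theorem csum_jord {A : ℕ → ℤ} (hA : ∀ n, 1 ≤ n → 2 * A n = 2 ^ n + 2 ^ ((n + 1) / 2)) :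
    ∀ᶠ t in 𝓝 (0 : ℂ), csum A t = ((1 / 2 : ℝ) : ℂ) / (1 - 2 * t) +
      (fun t => -(1 / 2) + (t + t ^ 2) / (1 - 2 * t ^ 2) : ℂ → ℂ) t := by
  have hball : ∀ᶠ t in 𝓝 (0 : ℂ), t ∈ Metric.ball (0 : ℂ) (1 / 4) :=
    Metric.ball_mem_nhds _ (by norm_num)
  filter_upwards [hball] with t ht
  rw [mem_ball_zero_iff] at ht
  have h1 : ‖2 * t‖ < 1 := by
    rw [norm_mul]
    norm_num
    linarith
  have h1' : ‖2 * t ^ 2‖ < 1 := by
    rw [norm_mul, norm_pow]
    norm_num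
    nlinarith [norm_nonneg t]
  have h2 := hasSum_geometric_of_norm_lt_one h1
  have h3 := (hasSum_nat_add_iff' 1).mpr h2
  have h5 := hasSum_geometric_of_norm_lt_one h1'
  -- the even and the odd terms
  have he : HasSum (fun m : ℕ => (2 : ℂ) ^ (m + 1) * t ^ (2 * m + 1)) (2 * t * (1 - 2 * t ^ 2)⁻¹) := by
    have e : (fun m : ℕ => (2 : ℂ) ^ (m + 1) * t ^ (2 * m + 1)) =
        fun m => 2 * t * (2 * t ^ 2) ^ m := by
      funext m
      rw [mul_pow, ← pow_mul]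
      ring
    rw [e]
    exact h5.mul_left (2 * t)
  have ho : HasSum (fun m : ℕ => (2 : ℂ) ^ (m + 1) * t ^ (2 * m + 2))
      (2 * t ^ 2 * (1 - 2 * t ^ 2)⁻¹) := by
    have e : (fun m : ℕ => (2 : ℂ) ^ (m + 1) * t ^ (2 * m + 2)) =
        fun m => 2 * t ^ 2 * (2 * t ^ 2) ^ m := by
      funext m
      rw [mul_pow, ← pow_mul]
      ring
    rw [e]
    exact h5.mul_left (2 * t ^ 2)
  have h6 : HasSum (fun n : ℕ => (2 : ℂ) ^ ((n + 2) / 2) * t ^ (n + 1))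
      (2 * t * (1 - 2 * t ^ 2)⁻¹ + 2 * t ^ 2 * (1 - 2 * t ^ 2)⁻¹) := by
    refine HasSum.even_add_odd ?_ ?_
    · convert he using 3 with m
      congr 1
      omega
    · convert ho using 3 with m
      congr 1
      omega
  rw [csum]
  have h4 : (fun n : ℕ => (A (n + 1) : ℂ) * t ^ (n + 1)) = fun n : ℕ =>
      (1 / 2 : ℂ) * ((2 * t) ^ (n + 1) + (2 : ℂ) ^ ((n + 2) / 2) * t ^ (n + 1)) := by
    funext n
    have e : (2 : ℂ) * (A (n + 1) : ℂ) = 2 ^ (n + 1) + 2 ^ ((n + 2) / 2) := by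
      have := hA (n + 1) (by omega)
      exact_mod_cast this
    rw [mul_pow]
    linear_combination (1 / 2 : ℂ) * t ^ (n + 1) * e
  rw [h4, ((h3.add h6).mul_left (1 / 2 : ℂ)).tsum_eq]
  push_cast
  simp only [Finset.range_one, Finset.sum_singleton, pow_zero]
  rw [div_eq_mul_inv, div_eq_mul_inv]
  ring

theorem hol_jord : DifferentiableOn ℂ
    (fun t => -(1 / 2) + (t + t ^ 2) / (1 - 2 * t ^ 2) : ℂ → ℂ) (Metric.ball 0 (7 / 10)) := by
  intro t ht
  rw [mem_ball_zero_iff] at ht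
  have h1 : (1 - 2 * t ^ 2) ≠ 0 := by
    intro h
    have h2 : ‖2 * t ^ 2‖ < 1 := by
      rw [norm_mul, norm_pow]
      norm_num
      nlinarith [norm_nonneg t]
    rw [sub_eq_zero] at h
    rw [← h] at h2
    norm_num at h2
  apply DifferentiableAt.differentiableWithinAt
  fun_prop (disch := exact h1)

section jord

variable {k : Type u} [Field k] [CharZero k]

theorem jord_dim (n : ℕ) (hn : 1 ≤ n) :
    2 * Module.finrank k (qcomp (jordRel k 2) n) = 2 ^ n + 2 ^ ((n + 1) / 2) :=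
  le_antisymm (Pool.Agent.Y515.KI.shirshov k n) (Pool.Agent.Y515.KI.jord_two_lower k n hn)

/-- two generators -/
theorem jord_two_inf
    (h : (∀ p, 2 ≤ p → Module.Finite k (trivH (fun X : Sl 2 k =>
          glAct (tagData k (FreeJord k 2) jord_comm jord_id) X.1)
        (fun X => Pool.Agent.Y484.KM.glAct_br _ X.1) p) ∧
        Module.Finite k (adjH (fun X : Sl 2 k =>
          glAct (tagData k (FreeJord k 2) jord_comm jord_id) X.1)
        (fun X => Pool.Agent.Y484.KM.glAct_br _ X.1) p)) ∧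
      ∃ p₀, ∀ p, p₀ ≤ p → trivH (fun X : Sl 2 k =>
          glAct (tagData k (FreeJord k 2) jord_comm jord_id) X.1)
        (fun X => Pool.Agent.Y484.KM.glAct_br _ X.1) p = ⊥ ∧
        adjH (fun X : Sl 2 k => glAct (tagData k (FreeJord k 2) jord_comm jord_id) X.1)
        (fun X => Pool.Agent.Y484.KM.glAct_br _ X.1) p = ⊥) : False := by
  obtain ⟨h1, h2⟩ := prop_hdata (jord_gr k 2) h
  have h0 : Module.finrank k (qcomp (jordRel k 2) 0) = 0 := by
    rw [Pool.Agent.Y960.KM.qcomp_zero]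
    exact finrank_bot k _
  refine inf_of_gr (Or.inl rfl) (jord_gr k 2) (repN2 k)
    (hgen2 (jord_gr k 2) two_ne_zero jord_comm
      (fun n hn => Pool.Agent.Y960.KM.qcomp_gen _ hn)) 1 ?_ (1 / 2) (7 / 10) (by norm_num)
    (by norm_num) _ hol_jord ?_ (csum_jord ?_) h1 h2
  · intro n
    rcases Nat.eq_zero_or_pos n with rfl | hn
    · rw [h0]; simp
    · have e := jord_dim (k := k) n hn
      rw [one_mul]
      push_cast
      rw [abs_of_nonneg (by positivity)]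
      have e2 : (2 : ℝ) * (Module.finrank k (qcomp (jordRel k 2) n) : ℝ) =
          2 ^ n + 2 ^ ((n + 1) / 2) := by exact_mod_cast e
      have e3 : (2 : ℝ) ^ ((n + 1) / 2) ≤ 2 ^ n :=
        pow_le_pow_right₀ (by norm_num) (by omega)
      have e4 : (2 : ℝ) ^ n ≤ 4 ^ n := pow_le_pow_left₀ (by norm_num) (by norm_num) n
      linarith
  · intro t _
    have : (-(1 / 2) + ((t : ℂ) + (t : ℂ) ^ 2) / (1 - 2 * (t : ℂ) ^ 2)) =
        ((-(1 / 2) + (t + t ^ 2) / (1 - 2 * t ^ 2) : ℝ) : ℂ) := by push_cast; ring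
    show (-(1 / 2) + ((t : ℂ) + (t : ℂ) ^ 2) / (1 - 2 * (t : ℂ) ^ 2)).im = 0
    rw [this, Complex.ofReal_im]
  · intro n hn
    exact_mod_cast jord_dim (k := k) n hn

variable {A : Type u} [NonUnitalNonAssocRing A] [Module k A]
  [IsScalarTower k A A] [SMulCommClass k A A]

theorem jord_inf {d : ℕ}
    (hd2 : 2 ≤ d) {x : Fin d → A} (hx : IsFreeJord k x) {L : Type u} [LieRing L] [LieAlgebra k L]
    {s : Sl 2 k →ₗ[k] A →ₗ[k] L} {w : BSp k A →ₗ[k] L} {E : Sl 2 k → L →ₗ[k] L}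
    (hL : IsTAG s w) (hE : IsSlAct s w E)
    (hfin : (∀ p, 2 ≤ p → Module.Finite k (trivH E hE.der p) ∧
        Module.Finite k (adjH E hE.der p)) ∧
      ∃ p₀, ∀ p, p₀ ≤ p → trivH E hE.der p = ⊥ ∧ adjH E hE.der p = ⊥) : False := by
  have h1 : ∀ a b : A, a * b = b * a := fun a b => (hx.1 a b).1
  have h2 : ∀ a b : A, ((a * a) * b) * a = (a * a) * (b * a) := fun a b => (hx.1 a b).2
  -- the retract
  have hF := Pool.Agent.Y681.KM.freeJord_isFree k 2
  obtain ⟨φ, hφ, -⟩ := hF.2 A hx.1 ![x ⟨0, by omega⟩, x ⟨1, by omega⟩]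
  obtain ⟨ψ, hψ, -⟩ := hx.2 (FreeJord k 2) hF.1 (fun i : Fin d => if i.1 = 0 then
    qmk (jordRel k 2) (MonoidAlgebra.single (FreeMagma.of 0) 1) else
      qmk (jordRel k 2) (MonoidAlgebra.single (FreeMagma.of 1) 1))
  have hφψ : ∀ a, ψ (φ a) = a := by
    obtain ⟨χ, -, hχ⟩ := hF.2 (FreeJord k 2) hF.1
      (fun i : Fin 2 => qmk (jordRel k 2) (MonoidAlgebra.single (FreeMagma.of i) 1))
    have e1 := hχ (ψ.comp φ) (by
      intro i
      rw [NonUnitalAlgHom.comp_apply, hφ]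
      fin_cases i
      · exact (hψ ⟨0, by omega⟩).trans (if_pos rfl)
      · exact (hψ ⟨1, by omega⟩).trans (if_neg (by norm_num)))
    have e2 := hχ (NonUnitalAlgHom.id k (FreeJord k 2)) (fun i => rfl)
    intro a
    exact DFunLike.congr_fun (e1.trans e2.symm) a
  obtain ⟨F, G, hF1, hG1, hGF, hact⟩ := Pool.Agent.Y275.KI.tfun
    (tagData k (FreeJord k 2) jord_comm jord_id) (tagData k A h1 h2) rfl φ ψ hφψ
    (fun a b c => map_jdop (φ : FreeJord k 2 →+ A) (fun a b => map_mul φ a b) a b c)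
    (fun a b c => map_jdop (ψ : A →+ FreeJord k 2) (fun a b => map_mul ψ a b) a b c)
  obtain ⟨θ, hθ⟩ := exists_theta' k A 2
  obtain ⟨Ψ, hS, hW⟩ := exists_psi (T := tagData k A h1 h2) θ hθ s w hL.1
  have hΨ := lie_iso θ hθ s w Ψ hS hW (by
    intro X Y p q
    rw [br_tag h1 h2 X Y p q, hL.2.1 X Y p q]
    rw [map_add, map_smul, hS, hW]) hL.2.2
  have hΨs : ∀ x y, Ψ.symm.toLinearMap ⁅x, y⁆ = ⁅Ψ.symm.toLinearMap x, Ψ.symm.toLinearMap y⁆ := by
    intro x y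
    apply Ψ.injective
    show Ψ (Ψ.symm ⁅x, y⁆) = Ψ ⁅Ψ.symm x, Ψ.symm y⁆
    rw [hΨ, Ψ.apply_symm_apply, Ψ.apply_symm_apply, Ψ.apply_symm_apply]
  refine jord_two_inf (k := k) ?_
  refine prop_retract (Ψ.toLinearMap ∘ₗ F) (G ∘ₗ Ψ.symm.toLinearMap) ?_ ?_ ?_ E hE.der _ _ ?_
    hfin
  · intro x y
    show Ψ (F ⁅x, y⁆) = ⁅Ψ (F x), Ψ (F y)⁆
    rw [hF1, hΨ]
  · intro x y
    show G (Ψ.symm.toLinearMap ⁅x, y⁆) = _
    rw [hΨs, hG1]
    rfl
  · intro x
    show G (Ψ.symm (Ψ (F x))) = x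
    rw [Ψ.symm_apply_apply, hGF]
  · intro X x
    show Ψ (F (glAct _ X.1 x)) = E X (Ψ (F x))
    rw [hact]
    exact act_psi θ hθ s w Ψ hS hW E hE X (F x)

end jord

end Pool.Agent.Y80.KI
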