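import Pool.Agent.Y80.KI.ShangTwo
import Pool.Agent.Y80.KI.Adim
import Pool.Agent.Y80.KI.JordFin
import Pool.Agent.Y515.KI.JDimB

set_option autoImplicit false

open scoped BigOperators Topology

/-! The character formulas fail in infinitely many degrees. -/

namespace Pool.Agent.Y80.KI

open Pool.Agent.Y80.KM (e0 egl)

/-- finitely many changes of the exponents -/
theorem no_rel_fin (N : ℕ) (hN : N = 2 ∨ N = 3) (z A A0 : ℕ → ℤ) (n₀ : ℕ)
    (hAA : ∀ n, n₀ ≤ n → A n = A0 n) (C : ℝ) (hA : ∀ n, |(A0 n : ℝ)| ≤ C * 4 ^ n)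
    (r ρ : ℝ) (hr : 0 < r)
    (hρ : 1 / 2 < ρ) (h : ℂ → ℂ) (hh : DifferentiableOn ℂ h (Metric.ball 0 ρ))
    (hreal : ∀ t : ℝ, |t| < ρ → (h t).im = 0)
    (hc : ∀ᶠ t in 𝓝 (0 : ℂ), csum A0 t = r / (1 - 2 * t) + h t)
    (P0 P1 : Polynomial ℤ) (hP : P0 ≠ 0)
    (h0 : ∀ n, e0 N (fun μ => (PowerSeries.coeff n (fullp N z A n)).coeff μ) = P0.coeff n)
    (h1 : ∀ n, egl N (fun μ => (PowerSeries.coeff n (fullp N z A n)).coeff μ) = P1.coeff n) :
    False := by
  have hC : 0 ≤ C := by
    have := (abs_nonneg _).trans (hA 0)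
    simpa using this
  refine no_rel N hN z A (C + ∑ n ∈ Finset.range n₀, |(A n : ℝ)|) ?_ r ρ hr hρ
    (fun t => h t + ∑ n ∈ Finset.range n₀, ((A (n + 1) - A0 (n + 1) : ℤ) : ℂ) * t ^ (n + 1))
    ?_ ?_ ?_ P0 P1 hP h0 h1
  · intro n
    have hs : 0 ≤ ∑ n ∈ Finset.range n₀, |(A n : ℝ)| :=
      Finset.sum_nonneg fun _ _ => abs_nonneg _
    have h4 : (1 : ℝ) ≤ 4 ^ n := one_le_pow₀ (by norm_num)
    by_cases hn : n₀ ≤ n
    · rw [hAA n hn]
      refine (hA n).trans ?_
      apply mul_le_mul_of_nonneg_right _ (by positivity)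
      linarith
    · have h5 : |(A n : ℝ)| ≤ ∑ n ∈ Finset.range n₀, |(A n : ℝ)| :=
        Finset.single_le_sum (f := fun n => |(A n : ℝ)|) (fun _ _ => abs_nonneg _)
          (Finset.mem_range.2 (by omega))
      calc |(A n : ℝ)| ≤ C + ∑ n ∈ Finset.range n₀, |(A n : ℝ)| := by linarith
        _ = (C + ∑ n ∈ Finset.range n₀, |(A n : ℝ)|) * 1 := by ring
        _ ≤ _ := mul_le_mul_of_nonneg_left h4 (by linarith)
  · apply hh.add
    apply DifferentiableOn.fun_sum
    intro n _
    fun_prop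
  · intro t ht
    show (h t + ∑ n ∈ Finset.range n₀, ((A (n + 1) - A0 (n + 1) : ℤ) : ℂ) *
      (t : ℂ) ^ (n + 1)).im = 0
    rw [Complex.add_im, hreal t ht, zero_add]
    have : (∑ n ∈ Finset.range n₀, ((A (n + 1) - A0 (n + 1) : ℤ) : ℂ) * (t : ℂ) ^ (n + 1)) =
        ((∑ n ∈ Finset.range n₀, ((A (n + 1) - A0 (n + 1) : ℤ) : ℝ) * t ^ (n + 1) : ℝ) : ℂ) := by
      push_cast
      rfl
    rw [this, Complex.ofReal_im]
  · have hball : ∀ᶠ t in 𝓝 (0 : ℂ), t ∈ Metric.ball (0 : ℂ) (1 / 8) :=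
      Metric.ball_mem_nhds _ (by norm_num)
    filter_upwards [hc, hball] with t ht htb
    rw [mem_ball_zero_iff] at htb
    have hsum : Summable fun n : ℕ => (A0 (n + 1) : ℂ) * t ^ (n + 1) := by
      refine Summable.of_norm_bounded (g := fun n : ℕ => C * (4 * ‖t‖) ^ (n + 1)) ?_ ?_
      · apply Summable.mul_left
        exact (summable_nat_add_iff 1).mpr
          (summable_geometric_of_lt_one (by positivity) (by linarith))
      · intro n
        rw [norm_mul, norm_pow, mul_pow, ← mul_assoc]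
        apply mul_le_mul_of_nonneg_right _ (by positivity)
        have := hA (n + 1)
        rw [Complex.norm_intCast]
        exact this
    have e : (fun n : ℕ => (A (n + 1) : ℂ) * t ^ (n + 1)) = fun n : ℕ =>
        (A0 (n + 1) : ℂ) * t ^ (n + 1) + ((A (n + 1) - A0 (n + 1) : ℤ) : ℂ) * t ^ (n + 1) := by
      funext n
      push_cast
      ring
    have hz : ∀ n, n ∉ Finset.range n₀ →
        ((A (n + 1) - A0 (n + 1) : ℤ) : ℂ) * t ^ (n + 1) = 0 := by
      intro n hn
      rw [Finset.mem_range, not_lt] at hn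
      rw [hAA (n + 1) (by omega), sub_self, Int.cast_zero, zero_mul]
    rw [csum, e, hsum.tsum_add (summable_of_ne_finset_zero hz), tsum_eq_sum hz]
    rw [csum] at ht
    rw [ht, add_assoc]

theorem coeff_P1 (n : ℕ) : (1 - Polynomial.C 2 * Polynomial.X : Polynomial ℤ).coeff n =
    if n = 0 then 1 else if n = 1 then -2 else 0 := by
  rw [Polynomial.coeff_sub, Polynomial.coeff_one, Polynomial.coeff_C_mul, Polynomial.coeff_X]
  rcases n with _ | _ | n
  · simp
  · simp
  · simp

/-- Shang's formula -/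
theorem shang_inf (k : Type*) [Field k] {d : ℕ} (i j : Fin d) (hij : i ≠ j)
    (a b : MvPowerSeries (Fin d) ℤ) (hab : Pool.Agent.Y80.Shang.IsShangPair a b) (n₀ : ℕ) :
    ∃ l m, n₀ ≤ l + m ∧
      MvPowerSeries.coeff (Finsupp.single i l + Finsupp.single j m) a ≠
      MvPowerSeries.coeff (Finsupp.single i l + Finsupp.single j m)
        (Pool.Agent.Y80.Shang.altChar k d) := by
  by_contra hcon
  push Not at hcon
  let A : ℕ → ℤ := fun n => ∑ m ∈ Finset.range (n + 1),
      MvPowerSeries.coeff (Finsupp.single i m + Finsupp.single j (n - m)) a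
  let B : ℕ → ℤ := fun n => ∑ m ∈ Finset.range (n + 1),
      MvPowerSeries.coeff (Finsupp.single i m + Finsupp.single j (n - m)) b
  have hAA : ∀ n, n₀ + 1 ≤ n → A n = 2 ^ n := by
    intro n hn
    have e : ∀ m ∈ Finset.range (n + 1),
        MvPowerSeries.coeff (Finsupp.single i m + Finsupp.single j (n - m)) a =
          (n.choose m : ℤ) := by
      intro m hm
      rw [Finset.mem_range] at hm
      rw [hcon m (n - m) (by omega)]
      change ((Module.finrank k (Pool.Agent.Y80.Shang.altComponent k d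
        (Finsupp.single i m + Finsupp.single j (n - m))) : ℕ) : ℤ) = _
      rw [altComponent_two k d (Finsupp.single i m + Finsupp.single j (n - m)) i j hij
        (fun l h1 h2 => GS.pr_l h1 h2 m (n - m)) ?_]
      · have e1 : (Finsupp.single i m + Finsupp.single j (n - m) : Fin d →₀ ℕ) i = m :=
          GS.pr_i hij _ _
        have e2 : (Finsupp.single i m + Finsupp.single j (n - m) : Fin d →₀ ℕ) j = n - m :=
          GS.pr_j hij _ _
        rw [e1, e2, show m + (n - m) = n by omega]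
      · intro h4
        have h5 := GS.pr_sum i j m (n - m)
        rw [GS.pr, h4] at h5
        simp only [Finsupp.coe_zero, Pi.zero_apply, Finset.sum_const_zero] at h5
        omega
    show ∑ m ∈ Finset.range (n + 1),
      MvPowerSeries.coeff (Finsupp.single i m + Finsupp.single j (n - m)) a = 2 ^ n
    rw [Finset.sum_congr rfl e]
    have := Nat.sum_range_choose n
    exact_mod_cast this
  refine no_rel_fin 3 (Or.inr rfl) (fun m => 2 * A m + B m) A (fun n => 2 ^ n) (n₀ + 1) hAA 1 ?_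
    1 1 one_pos (by norm_num) (fun _ => -1) (differentiableOn_const _) (fun t _ => by simp)
    (csum_alt (A := fun n => 2 ^ n) fun n _ => rfl) 1 (1 - Polynomial.C 2 * Polynomial.X)
    one_ne_zero ?_ ?_
  · intro n
    push_cast
    rw [one_mul, abs_of_nonneg (by positivity)]
    exact pow_le_pow_left₀ (by norm_num) (by norm_num) n
  · intro n
    rw [(shang_two i j hij a b hab A B (fun _ => rfl) (fun _ => rfl) n n le_rfl).1,
      Polynomial.coeff_one]
  · intro n
    rw [(shang_two i j hij a b hab A B (fun _ => rfl) (fun _ => rfl) n n le_rfl).2, coeff_P1]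

/-- the formula of Kashuba and Mathieu -/
theorem km_inf (k : Type*) [Field k] [CharZero k] {d : ℕ} (i j : Fin d) (hij : i ≠ j)
    (a b : MvPowerSeries (Fin d) ℤ) (hab : Pool.Agent.Y80.KM.IsKMPair a b) (n₀ : ℕ) :
    ∃ l m, n₀ ≤ l + m ∧
      MvPowerSeries.coeff (Finsupp.single i l + Finsupp.single j m) a ≠
      MvPowerSeries.coeff (Finsupp.single i l + Finsupp.single j m)
        (Pool.Agent.Y80.KM.jordChar k d) := by
  by_contra hcon
  push Not at hcon
  let A : ℕ → ℤ := fun n => ∑ m ∈ Finset.range (n + 1),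
      MvPowerSeries.coeff (Finsupp.single i m + Finsupp.single j (n - m)) a
  let B : ℕ → ℤ := fun n => ∑ m ∈ Finset.range (n + 1),
      MvPowerSeries.coeff (Finsupp.single i m + Finsupp.single j (n - m)) b
  let A0 : ℕ → ℤ := fun n => (Module.finrank k
    (Pool.Agent.Y80.KM.qcomp (Pool.Agent.Y80.KM.jordRel k 2) n) : ℤ)
  have hAA : ∀ n, n₀ ≤ n → A n = A0 n := by
    intro n hn
    have e : ∀ m ∈ Finset.range (n + 1),
        MvPowerSeries.coeff (Finsupp.single i m + Finsupp.single j (n - m)) a =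
          ((Module.finrank k (Pool.Agent.Y80.KM.qmcomp (Pool.Agent.Y80.KM.jordRel k d)
            (Finsupp.single i m + Finsupp.single j (n - m))) : ℕ) : ℤ) := by
      intro m hm
      rw [Finset.mem_range] at hm
      rw [hcon m (n - m) (by omega)]
      rfl
    show ∑ m ∈ Finset.range (n + 1),
      MvPowerSeries.coeff (Finsupp.single i m + Finsupp.single j (n - m)) a = A0 n
    rw [Finset.sum_congr rfl e]
    have := Pool.Agent.Y515.KI.jord_letters k d i j hij n
    show _ = ((Module.finrank k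
      (Pool.Agent.Y80.KM.qcomp (Pool.Agent.Y80.KM.jordRel k 2) n) : ℕ) : ℤ)
    rw [← this]
    push_cast
    rfl
  have hdim : ∀ n, 1 ≤ n → 2 * A0 n = 2 ^ n + 2 ^ ((n + 1) / 2) := by
    intro n hn
    have := le_antisymm (Pool.Agent.Y515.KI.shirshov k n)
      (Pool.Agent.Y515.KI.jord_two_lower k n hn)
    show 2 * ((Module.finrank k
      (Pool.Agent.Y80.KM.qcomp (Pool.Agent.Y80.KM.jordRel k 2) n) : ℕ) : ℤ) = _
    exact_mod_cast this
  have h00 : A0 0 = 0 := by
    show ((Module.finrank k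
      (Pool.Agent.Y80.KM.qcomp (Pool.Agent.Y80.KM.jordRel k 2) 0) : ℕ) : ℤ) = 0
    rw [Pool.Agent.Y960.KM.qcomp_zero]
    simp
  refine no_rel_fin 2 (Or.inl rfl) (fun m => A m + B m) A A0 n₀ hAA 1 ?_
    (1 / 2) (7 / 10) (by norm_num) (by norm_num) _ hol_jord ?_
    (csum_jord hdim) 1 (1 - Polynomial.C 2 * Polynomial.X)
    one_ne_zero ?_ ?_
  · intro n
    rcases Nat.eq_zero_or_pos n with rfl | hn
    · rw [h00]; simp
    · have e := hdim n hn
      have e2 : (2 : ℝ) * (A0 n : ℝ) = 2 ^ n + 2 ^ ((n + 1) / 2) := by exact_mod_cast e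
      have e3 : (2 : ℝ) ^ ((n + 1) / 2) ≤ 2 ^ n :=
        pow_le_pow_right₀ (by norm_num) (by omega)
      have e4 : (2 : ℝ) ^ n ≤ 4 ^ n := pow_le_pow_left₀ (by norm_num) (by norm_num) n
      have e5 : (0 : ℝ) < 2 ^ n := by positivity
      have e6 : (0 : ℝ) < 2 ^ ((n + 1) / 2) := by positivity
      rw [one_mul, abs_of_nonneg (by linarith)]
      linarith
  · intro t _
    have : (-(1 / 2) + ((t : ℂ) + (t : ℂ) ^ 2) / (1 - 2 * (t : ℂ) ^ 2)) =
        ((-(1 / 2) + (t + t ^ 2) / (1 - 2 * t ^ 2) : ℝ) : ℂ) := by push_cast; ring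
    show (-(1 / 2) + ((t : ℂ) + (t : ℂ) ^ 2) / (1 - 2 * (t : ℂ) ^ 2)).im = 0
    rw [this, Complex.ofReal_im]
  · intro n
    rw [(km_two i j hij a b hab A B (fun _ => rfl) (fun _ => rfl) n n le_rfl).1,
      Polynomial.coeff_one]
  · intro n
    rw [(km_two i j hij a b hab A B (fun _ => rfl) (fun _ => rfl) n n le_rfl).2, coeff_P1]

end Pool.Agent.Y80.KI
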