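import Pool.Agent.Y80.KM.HStruct
import Pool.Agent.Y80.KM.ADefs

set_option autoImplicit false

open scoped BigOperators DirectSum
open MeasureTheory

/-! Definitions of project KI (infinitely many failures of the conjectures of Shang and of Kashuba
and Mathieu). -/

namespace Pool.Agent.Y80.KI

open Pool.Agent.Y80.KM

/-! ### formal part -/

section formal

variable {R : Type*} [CommRing R]

/-- integer powers of a power series with constant coefficient one -/
noncomputable def ipw (f : PowerSeries R) (n : ℤ) : PowerSeries R :=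
  if 0 ≤ n then f ^ n.toNat else (PowerSeries.invOfUnit f 1) ^ (-n).toNat

/-- `∏_{1 ≤ n ≤ N0} ∏_i (1 - X^n z_i)^{A_n}` -/
noncomputable def fprod {ι : Type*} [Fintype ι] (z : ι → R) (A : ℕ → ℤ) (N0 : ℕ) :
    PowerSeries R :=
  ∏ n ∈ Finset.Icc 1 N0, ∏ i, ipw (1 - PowerSeries.monomial n (z i)) (A n)

end formal

/-- characters of the diagonal torus of `GL_N` -/
abbrev TG (N : ℕ) : Type := AddMonoidAlgebra ℤ (Fin N → ℤ)

/-- the pairs `i ≠ j` -/
abbrev Rt (N : ℕ) : Type := {p : Fin N × Fin N // p.1 ≠ p.2}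

/-- the exponential of the root `ε_i - ε_j` -/
noncomputable def rootE (N : ℕ) (p : Rt N) : TG N :=
  AddMonoidAlgebra.single (epsd p.1.1 p.1.2) 1

/-- the graded Euler characteristic of a Lie algebra `sl_N ⊗ A ⊕ B` with exponents `z` for the
weight zero and `A` for every root -/
noncomputable def fullp (N : ℕ) (z A : ℕ → ℤ) (N0 : ℕ) : PowerSeries (TG N) :=
  (∏ n ∈ Finset.Icc 1 N0, ipw (1 - PowerSeries.monomial n (1 : TG N)) (z n)) *
    fprod (rootE N) A N0

/-- invariance under permutations of the coordinates -/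
def WInv {N : ℕ} (f : TG N) : Prop :=
  ∀ (σ : Equiv.Perm (Fin N)) (μ : Fin N → ℤ), f.coeff (μ ∘ σ) = f.coeff μ

/-! ### the torus -/

/-- the compact torus -/
abbrev KT (N : ℕ) : Type := UnitAddTorus (Fin N)

/-- the Haar measure of total mass one -/
noncomputable def muT (N : ℕ) : Measure (KT N) :=
  Measure.pi fun _ : Fin N => (AddCircle.haarAddCircle : Measure UnitAddCircle)

/-- evaluation of characters on the torus -/
noncomputable def evT (N : ℕ) : TG N →+* C(KT N, ℂ) :=
  (AddMonoidAlgebra.lift ℤ (C(KT N, ℂ)) (Fin N → ℤ)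
    { toFun := fun μ => UnitAddTorus.mFourier μ.toAdd
      map_one' := UnitAddTorus.mFourier_zero
      map_mul' := fun a b => by
        ext θ
        exact UnitAddTorus.mFourier_add } : TG N →ₐ[ℤ] C(KT N, ℂ)).toRingHom

/-- the Weyl denominator -/
noncomputable def vand (N : ℕ) : C(KT N, ℂ) :=
  ∑ σ : Equiv.Perm (Fin N), ((Equiv.Perm.sign σ : ℤ) : ℂ) •
    UnitAddTorus.mFourier (fun i => ((σ i : ℕ) : ℤ))

/-- the Weyl density -/
noncomputable def wgt (N : ℕ) : C(KT N, ℝ) :=
  ⟨fun θ => ‖vand N θ‖ ^ 2, by fun_prop⟩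

/-- `|χ|²` for the standard representation -/
noncomputable def chN (N : ℕ) : C(KT N, ℝ) :=
  ⟨fun θ => ‖∑ j : Fin N, UnitAddTorus.mFourier (Pi.single j (1 : ℤ)) θ‖ ^ 2, by fun_prop⟩

/-! ### analysis -/

/-- a real function as a complex function -/
noncomputable def toC {K : Type*} [TopologicalSpace K] (f : C(K, ℝ)) : C(K, ℂ) :=
  ⟨fun θ => (f θ : ℂ), by fun_prop⟩

/-- `∑_{n ≥ 1} A_n t^n` -/
noncomputable def csum (A : ℕ → ℤ) (t : ℂ) : ℂ := ∑' n : ℕ, (A (n + 1) : ℂ) * t ^ (n + 1)

/-! ### homology -/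

section hom

universe u

variable {k L : Type u} [Field k] [LieRing L] [LieAlgebra k L] {N : ℕ} {I : Type u}

/-- the invariants of `H_p(L)` -/
def hInv (H : HData k L N I) (p : ℕ) : Submodule k (LieHomology k L p) where
  carrier := {m | ∀ X : Matrix (Fin N) (Fin N) k, X.trace = 0 →
    hact (H.act X) (H.hder X) p m = 0}
  add_mem' := by
    intro a b ha hb X hX
    rw [map_add, ha X hX, hb X hX, add_zero]
  zero_mem' := fun X _ => map_zero _
  smul_mem' := by
    intro c a ha X hX
    rw [map_smul, ha X hX, smul_zero]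

/-- the homomorphisms of `sl_N`-modules from `sl_N` to `H_p(L)` -/
def hAdj (H : HData k L N I) (p : ℕ) :
    Submodule k (LieAlgebra.SpecialLinear.sl (Fin N) k →ₗ[k] LieHomology k L p) where
  carrier := {f | ∀ X Y : LieAlgebra.SpecialLinear.sl (Fin N) k,
      f ⁅X, Y⁆ = hact (H.act X.1) (H.hder X.1) p (f Y)}
  add_mem' := by
    intro f g hf hg X Y
    rw [LinearMap.add_apply, LinearMap.add_apply, hf, hg, map_add]
  zero_mem' := fun X Y => by
    rw [LinearMap.zero_apply, LinearMap.zero_apply, map_zero]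
  smul_mem' := by
    intro c f hf X Y
    rw [LinearMap.smul_apply, LinearMap.smul_apply, hf, map_smul]

/-- the invariants of `H_p(L, k)` for an action `E` of `sl_N` by derivations -/
def trivH {k L : Type*} [Field k] [LieRing L] [LieAlgebra k L] {N : ℕ}
    (E : Sl N k → L →ₗ[k] L)
    (hE : ∀ X x y, E X ⁅x, y⁆ = ⁅E X x, y⁆ + ⁅x, E X y⁆) (p : ℕ) :
    Submodule k (LieHomology k L p) where
  carrier := {m | ∀ X, hact (E X) (hE X) p m = 0}
  add_mem' := by
    intro a b ha hb X
    rw [map_add, ha X, hb X, add_zero]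
  zero_mem' := fun X => map_zero _
  smul_mem' := by
    intro c a ha X
    rw [map_smul, ha X, smul_zero]

/-- the homomorphisms of `sl_N`-modules from the adjoint module `sl_N` to `H_p(L, k)` -/
def adjH {k L : Type*} [Field k] [LieRing L] [LieAlgebra k L] {N : ℕ}
    (E : Sl N k → L →ₗ[k] L)
    (hE : ∀ X x y, E X ⁅x, y⁆ = ⁅E X x, y⁆ + ⁅x, E X y⁆) (p : ℕ) :
    Submodule k (Sl N k →ₗ[k] LieHomology k L p) where
  carrier := {f | ∀ X Y, f ⁅X, Y⁆ = hact (E X) (hE X) p (f Y)}
  add_mem' := by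
    intro f g hf hg X Y
    rw [LinearMap.add_apply, LinearMap.add_apply, hf, hg, map_add]
  zero_mem' := fun X Y => by
    rw [LinearMap.zero_apply, LinearMap.zero_apply, map_zero]
  smul_mem' := by
    intro c f hf X Y
    rw [LinearMap.smul_apply, LinearMap.smul_apply, hf, map_smul]

end hom

end Pool.Agent.Y80.KI
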