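import Pool.Agent.Y80.KM.ADefs
import Pool.Agent.Y80.KM.Free

set_option autoImplicit false

open scoped BigOperators

/-! Definitions for Shirshov's theorem on Jordan algebras with two generators. -/

namespace Pool.Agent.Y80.KI

/-- the operators `X i j = U_{x^i,x^j}`, `Y i j = U_{y^i,y^j}`, `T i j = U_{x^i,y^j}` and the unit
`e` -/
structure TwoOps (k M : Type*) [Field k] [AddCommGroup M] [Module k M] where
  X : ℕ → ℕ → Module.End k M
  Y : ℕ → ℕ → Module.End k M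
  T : ℕ → ℕ → Module.End k M
  e : M
  Xs : ∀ i j, X i j = X j i
  Ys : ∀ i j, Y i j = Y j i
  X00 : X 0 0 = 2
  Y00 : Y 0 0 = 2
  T0 : ∀ i, T i 0 = X i 0
  T0' : ∀ j, T 0 j = Y j 0
  XX : ∀ i j a b, X i j * X a b = X (i + a) (j + b) + X (i + b) (j + a)
  YY : ∀ i j a b, Y i j * Y a b = Y (i + a) (j + b) + Y (i + b) (j + a)
  XYY : ∀ m b, X m 0 * Y b b = 2 * (T m b * Y b 0 - T m (2 * b))
  YXX : ∀ m b, Y m 0 * X b b = 2 * (T b m * X b 0 - T (2 * b) m)
  TXX : ∀ i j l, T i j * X l l = 2 * (T (i + l) j * X l 0 - T (i + 2 * l) j)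
  TYY : ∀ i j l, T i j * Y l l = 2 * (T i (j + l) * Y l 0 - T i (j + 2 * l))
  XT : ∀ m n j, 2 * (X m 0 * T (m + n) j) = 2 * T (m + m + n) j + X m m * T n j
  XT' : ∀ m n j, 2 * (X (m + n) 0 * T n j) =
    2 * T (m + n + n) j + X n n * (X m 0 * Y j 0 - T m j)
  YT : ∀ m n j, 2 * (Y m 0 * T j (m + n)) = 2 * T j (m + m + n) + Y m m * T j n
  YT' : ∀ m n j, 2 * (Y (m + n) 0 * T j n) =
    2 * T j (m + n + n) + Y n n * (Y m 0 * X j 0 - T j m)
  eX : ∀ i j, X i j e = X (i + j) 0 e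
  eY : ∀ i j, Y i j e = Y (i + j) 0 e
  TX : ∀ i j n, T i j (X n 0 e) = (2 : k) • T (i + n) j e
  TY : ∀ i j n, T i j (Y n 0 e) = (2 : k) • T i (j + n) e

/-- powers in a unital nonassociative ring -/
def pw {J : Type*} [NonAssocRing J] (x : J) : ℕ → J
  | 0 => 1
  | n + 1 => x * pw x n

/-- `U_{a,b} = 2 (L_a L_b + L_b L_a - L_{ab})` -/
noncomputable def uop (k : Type*) {J : Type*} [Field k] [NonAssocRing J] [Module k J]
    [IsScalarTower k J J] [SMulCommClass k J J] (a b : J) : Module.End k J :=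
  2 * (LinearMap.mulLeft k a * LinearMap.mulLeft k b +
    LinearMap.mulLeft k b * LinearMap.mulLeft k a - LinearMap.mulLeft k (a * b))

end Pool.Agent.Y80.KI
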