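import Pool.Agent.Y80.KI.Ana2
import Pool.Agent.Y43.KI.CT
import Pool.Agent.Y43.KI.Pts
import Pool.Agent.Y968.KI.Taylor

set_option autoImplicit false

open scoped BigOperators Topology
open MeasureTheory

/-! From the graded Euler characteristic to the analytic contradiction. -/

namespace Pool.Agent.Y80.KI

open Pool.Agent.Y80.KM

section stable

variable {R : Type*} [CommRing R]

theorem dvd_ipw {n : ℕ} {f : PowerSeries R} (hf : PowerSeries.X ^ n ∣ f - 1)
    (hc : PowerSeries.constantCoeff f = 1) (a : ℤ) : PowerSeries.X ^ n ∣ ipw f a - 1 := by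
  have hpow : ∀ (g : PowerSeries R) (m : ℕ), PowerSeries.X ^ n ∣ g - 1 →
      PowerSeries.X ^ n ∣ g ^ m - 1 := by
    intro g m hg
    refine hg.trans ?_
    have := sub_dvd_pow_sub_pow g 1 m
    rwa [one_pow] at this
  unfold ipw
  split_ifs
  · exact hpow f _ hf
  · apply hpow
    have h1 : f * PowerSeries.invOfUnit f 1 = 1 :=
      PowerSeries.mul_invOfUnit f 1 (by rw [hc, Units.val_one])
    have h2 : PowerSeries.invOfUnit f 1 - 1 = -((f - 1) * PowerSeries.invOfUnit f 1) := by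
      rw [sub_mul, h1, one_mul]
      ring
    rw [h2]
    exact (hf.mul_right _).neg_right

theorem dvd_prod {ι : Type*} {n : ℕ} (s : Finset ι) (f : ι → PowerSeries R)
    (hf : ∀ i ∈ s, PowerSeries.X ^ n ∣ f i - 1) : PowerSeries.X ^ n ∣ (∏ i ∈ s, f i) - 1 := by
  classical
  induction s using Finset.induction_on with
  | empty => simp
  | insert a s ha ih =>
    rw [Finset.prod_insert ha]
    have h1 := hf a (Finset.mem_insert_self a s)
    have h2 := ih fun i hi => hf i (Finset.mem_insert_of_mem hi)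
    have h3 : f a * ∏ i ∈ s, f i - 1 = (f a - 1) * ∏ i ∈ s, f i + ((∏ i ∈ s, f i) - 1) := by ring
    rw [h3]
    exact dvd_add (h1.mul_right _) h2

theorem fprod_stable {ι : Type*} [Fintype ι] (z : ι → R) (A : ℕ → ℤ) (m N0 : ℕ) (h : m ≤ N0) :
    PowerSeries.coeff m (fprod z A N0) = PowerSeries.coeff m (fprod z A m) := by
  induction N0, h using Nat.le_induction with
  | base => rfl
  | succ N0 h ih =>
    rw [← ih]
    have h1 : fprod z A (N0 + 1) = fprod z A N0 *
        ∏ i, ipw (1 - PowerSeries.monomial (N0 + 1) (z i)) (A (N0 + 1)) := by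
      unfold fprod
      rw [Finset.prod_Icc_succ_top (by omega)]
    have h2 : PowerSeries.X ^ (N0 + 1) ∣
        (∏ i, ipw (1 - PowerSeries.monomial (N0 + 1) (z i)) (A (N0 + 1))) - 1 := by
      apply dvd_prod
      intro i _
      apply dvd_ipw _ (Pool.Agent.Y43.KI.cc_one_sub _ (by omega) _)
      rw [sub_sub_cancel_left]
      refine Dvd.dvd.neg_right ?_
      rw [PowerSeries.X_pow_dvd_iff]
      intro l hl
      rw [PowerSeries.coeff_monomial, if_neg (by omega)]
    have h3 : fprod z A (N0 + 1) = fprod z A N0 + fprod z A N0 *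
        ((∏ i, ipw (1 - PowerSeries.monomial (N0 + 1) (z i)) (A (N0 + 1))) - 1) := by
      rw [h1]
      ring
    rw [h3, map_add]
    have h4 := (PowerSeries.X_pow_dvd_iff.mp (h2.mul_left (fprod z A N0))) m (by omega)
    rw [h4, add_zero]

end stable

/-- the number of invariants in degree `n` of the product over the roots -/
noncomputable def e0c (N : ℕ) (A : ℕ → ℤ) (n : ℕ) : ℤ :=
  e0 N (fun μ => (PowerSeries.coeff n (fprod (rootE N) A n)).coeff μ)

/-- the multiplicity of `gl_N` in degree `n` of the product over the roots -/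
noncomputable def eglc (N : ℕ) (A : ℕ → ℤ) (n : ℕ) : ℤ :=
  egl N (fun μ => (PowerSeries.coeff n (fprod (rootE N) A n)).coeff μ)

/-- the factor without weights -/
noncomputable def gser (z : ℕ → ℤ) : PowerSeries ℤ :=
  PowerSeries.mk fun i => PowerSeries.coeff i (fprod (fun _ : Unit => (1 : ℤ)) z i)

theorem e0_lin' {ι : Type*} (N : ℕ) (s : Finset ι) (c : ι → ℤ) (f : ι → (Fin N → ℤ) → ℤ) :
    e0 N (fun μ => ∑ p ∈ s, c p * f p μ) = ∑ p ∈ s, c p * e0 N (f p) := by
  unfold e0
  simp only [Finset.mul_sum]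
  rw [Finset.sum_comm]
  refine Finset.sum_congr rfl fun p _ => Finset.sum_congr rfl fun σ _ => ?_
  ring

theorem egl_lin' {ι : Type*} (N : ℕ) (s : Finset ι) (c : ι → ℤ) (f : ι → (Fin N → ℤ) → ℤ) :
    egl N (fun μ => ∑ p ∈ s, c p * f p μ) = ∑ p ∈ s, c p * egl N (f p) := by
  unfold egl
  simp only [Finset.mul_sum]
  rw [Finset.sum_comm' (t' := Finset.univ) (s' := fun _ => s) (by simp)]
  refine Finset.sum_congr rfl fun i _ => ?_
  rw [Finset.sum_comm]
  refine Finset.sum_congr rfl fun j _ => ?_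
  exact e0_lin' N s c fun p μ => f p (μ + epsd i j)

theorem fullp_coeff (N : ℕ) (z A : ℕ → ℤ) (n : ℕ) (μ : Fin N → ℤ) :
    (PowerSeries.coeff n (fullp N z A n)).coeff μ =
      ∑ x ∈ Finset.HasAntidiagonal.antidiagonal n, PowerSeries.coeff x.1 (gser z) *
        (PowerSeries.coeff x.2 (fprod (rootE N) A x.2)).coeff μ := by
  have h1 : (∏ m ∈ Finset.Icc 1 n, ipw (1 - PowerSeries.monomial m (1 : TG N)) (z m)) =
      PowerSeries.map (algebraMap ℤ (TG N)) (fprod (fun _ : Unit => (1 : ℤ)) z n) := by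
    rw [Pool.Agent.Y43.KI.map_fprod]
    unfold fprod
    refine Finset.prod_congr rfl fun m _ => ?_
    rw [Finset.univ_unique, Finset.prod_singleton]
    show _ = ipw (1 - PowerSeries.monomial m (algebraMap ℤ (TG N) 1)) (z m)
    rw [map_one (algebraMap ℤ (TG N))]
  rw [fullp, h1, PowerSeries.coeff_mul, AddMonoidAlgebra.coeff_sum, Finsupp.finsetSum_apply]
  refine Finset.sum_congr rfl fun x hx => ?_
  rw [Finset.HasAntidiagonal.mem_antidiagonal] at hx
  rw [PowerSeries.coeff_map, fprod_stable _ z x.1 n (by omega),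
    fprod_stable (rootE N) A x.2 n (by omega)]
  rw [← Algebra.smul_def, gser, PowerSeries.coeff_mk]
  rfl

theorem rel_of_full (N : ℕ) (z A : ℕ → ℤ) (P0 P1 : Polynomial ℤ)
    (h0 : ∀ n, e0 N (fun μ => (PowerSeries.coeff n (fullp N z A n)).coeff μ) = P0.coeff n)
    (h1 : ∀ n, egl N (fun μ => (PowerSeries.coeff n (fullp N z A n)).coeff μ) = P1.coeff n)
    (n : ℕ) : ∑ x ∈ Finset.HasAntidiagonal.antidiagonal n, e0c N A x.1 * P1.coeff x.2 =
      ∑ x ∈ Finset.HasAntidiagonal.antidiagonal n, eglc N A x.1 * P0.coeff x.2 := by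
  have e0' : (P0 : PowerSeries ℤ) = gser z * PowerSeries.mk (e0c N A) := by
    ext m
    rw [Polynomial.coeff_coe, ← h0 m, PowerSeries.coeff_mul]
    simp only [fullp_coeff, PowerSeries.coeff_mk]
    rw [e0_lin' N _ (fun x : ℕ × ℕ => PowerSeries.coeff x.1 (gser z))
      (fun x μ => (PowerSeries.coeff x.2 (fprod (rootE N) A x.2)).coeff μ)]
    rfl
  have e1' : (P1 : PowerSeries ℤ) = gser z * PowerSeries.mk (eglc N A) := by
    ext m
    rw [Polynomial.coeff_coe, ← h1 m, PowerSeries.coeff_mul]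
    simp only [fullp_coeff, PowerSeries.coeff_mk]
    rw [egl_lin' N _ (fun x : ℕ × ℕ => PowerSeries.coeff x.1 (gser z))
      (fun x μ => (PowerSeries.coeff x.2 (fprod (rootE N) A x.2)).coeff μ)]
    rfl
  have h : PowerSeries.mk (e0c N A) * (P1 : PowerSeries ℤ) =
      PowerSeries.mk (eglc N A) * (P0 : PowerSeries ℤ) := by
    rw [e0', e1']
    ring
  have h2 := congrArg (PowerSeries.coeff n) h
  rw [PowerSeries.coeff_mul, PowerSeries.coeff_mul] at h2
  simpa only [PowerSeries.coeff_mk, Polynomial.coeff_coe] using h2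

/-- the real class function `∑_{i ≠ j} e^{k (ε_i - ε_j)}` -/
noncomputable def Sk (N k : ℕ) : C(KT N, ℝ) :=
  ⟨fun θ => ‖∑ j : Fin N, UnitAddTorus.mFourier (Pi.single j (k : ℤ)) θ‖ ^ 2 - N, by fun_prop⟩

theorem Sk_bound (N k : ℕ) (θ : KT N) : |Sk N k θ| ≤ N ^ 2 + N := by
  have h1 : ‖∑ j : Fin N, UnitAddTorus.mFourier (Pi.single j (k : ℤ)) θ‖ ≤ N := by
    refine (norm_sum_le _ _).trans ?_
    calc ∑ j : Fin N, ‖UnitAddTorus.mFourier (Pi.single j (k : ℤ)) θ‖ ≤ ∑ _j : Fin N, (1 : ℝ) := by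
          refine Finset.sum_le_sum fun j _ => ?_
          refine ((UnitAddTorus.mFourier (Pi.single j (k : ℤ))).norm_coe_le_norm θ).trans ?_
          rw [UnitAddTorus.mFourier_norm]
      _ = N := by simp
  have h2 : Sk N k θ = ‖∑ j : Fin N, UnitAddTorus.mFourier (Pi.single j (k : ℤ)) θ‖ ^ 2 - N := rfl
  rw [h2, abs_le]
  have h3 := norm_nonneg (∑ j : Fin N, UnitAddTorus.mFourier (Pi.single j (k : ℤ)) θ)
  have h4 : (0 : ℝ) ≤ N := Nat.cast_nonneg N
  constructor
  · nlinarith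
  · nlinarith

theorem no_rel (N : ℕ) (hN : N = 2 ∨ N = 3) (z A : ℕ → ℤ) (C : ℝ)
    (hA : ∀ n, |(A n : ℝ)| ≤ C * 4 ^ n) (r ρ : ℝ) (hr : 0 < r) (hρ : 1 / 2 < ρ)
    (h : ℂ → ℂ) (hh : DifferentiableOn ℂ h (Metric.ball 0 ρ))
    (hreal : ∀ t : ℝ, |t| < ρ → (h t).im = 0)
    (hc : ∀ᶠ t in 𝓝 (0 : ℂ), csum A t = r / (1 - 2 * t) + h t)
    (P0 P1 : Polynomial ℤ) (hP : P0 ≠ 0)
    (h0 : ∀ n, e0 N (fun μ => (PowerSeries.coeff n (fullp N z A n)).coeff μ) = P0.coeff n)
    (h1 : ∀ n, egl N (fun μ => (PowerSeries.coeff n (fullp N z A n)).coeff μ) = P1.coeff n) :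
    False := by
  have hμ1 := (Pool.Agent.Y43.KI.openPos N).1
  have hμ2 := (Pool.Agent.Y43.KI.openPos N).2
  obtain ⟨θ₀, θ₁, hw0, hw1, hch⟩ := Pool.Agent.Y43.KI.points N hN
  have hz : ∀ p : Rt N, ‖evT N (rootE N p)‖ ≤ 1 := by
    intro p
    rw [rootE, Pool.Agent.Y43.KI.evT_single, Int.cast_one, one_smul, UnitAddTorus.mFourier_norm]
  obtain ⟨p, hp1, hp2⟩ := Pool.Agent.Y968.KI.taylor (fun q : Rt N => evT N (rootE N q)) hz A C hA
  have hpm : ∀ m, p m = evT N (PowerSeries.coeff m (fprod (rootE N) A m)) := by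
    intro m
    rw [← hp1 m m le_rfl, ← PowerSeries.coeff_map, Pool.Agent.Y43.KI.map_fprod]
  have hSk1 : ∀ θ, Sk N 1 θ = chN N θ - N := by
    intro θ
    show ‖∑ j : Fin N, UnitAddTorus.mFourier (Pi.single j ((1 : ℕ) : ℤ)) θ‖ ^ 2 - N = _
    rw [Nat.cast_one]
    rfl
  have hD : ∀ m, ell (muT N) (wgt N) (p m) = (N.factorial : ℂ) * (e0c N A m : ℂ) := by
    intro m
    rw [ell_apply, hpm]
    exact Pool.Agent.Y43.KI.ct_e0 _ (Pool.Agent.Y43.KI.winv_fprod N A m m)
  have hX : ∀ m, ell (muT N) (Sk N 1 * wgt N) (p m) =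
      (N.factorial : ℂ) * ((eglc N A m : ℂ) - N * (e0c N A m : ℂ)) := by
    intro m
    have e1 : ell (muT N) (Sk N 1 * wgt N) (p m) =
        ell (muT N) (chN N * wgt N) (p m) - N * ell (muT N) (wgt N) (p m) := by
      rw [ell_apply, ell_apply, ell_apply, ← integral_const_mul, ← integral_sub]
      · refine integral_congr_ae (Filter.Eventually.of_forall fun θ => ?_)
        simp only [ContinuousMap.mul_apply]
        rw [hSk1]
        push_cast
        ring
      · exact Continuous.integrable_of_hasCompactSupport (by fun_prop)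
          (HasCompactSupport.of_compactSpace _)
      · exact Continuous.integrable_of_hasCompactSupport (by fun_prop)
          (HasCompactSupport.of_compactSpace _)
    rw [e1, hD, ell_apply, hpm]
    have e2 : ∫ θ, evT N (PowerSeries.coeff m (fprod (rootE N) A m)) θ *
        (((chN N * wgt N) θ : ℝ) : ℂ) ∂(muT N) = (N.factorial : ℂ) * (eglc N A m : ℂ) := by
      have := Pool.Agent.Y43.KI.ct_egl _ (Pool.Agent.Y43.KI.winv_fprod N A m m)
      rw [eglc, ← this]
      refine integral_congr_ae (Filter.Eventually.of_forall fun θ => ?_)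
      simp only [ContinuousMap.mul_apply]
      push_cast
      ring
    rw [e2]
    ring
  have hrel := rel_of_full N z A P0 P1 h0 h1
  refine an (muT N) (Sk N) (N ^ 2 + N) (Sk_bound N) (wgt N) (fun θ => sq_nonneg _) θ₀ θ₁ hw0 hw1
    (by rw [hSk1, hSk1]; linarith) A r ρ hr hρ h hh hreal hc p ?_
    (P0.map (Int.castRingHom ℝ)) ((P1 - (N : Polynomial ℤ) * P0).map (Int.castRingHom ℝ)) ?_ ?_
  · filter_upwards [hp2] with t ht
    have e : ∀ k : ℕ, toC (Sk N (k + 1)) = ∑ i : Rt N, evT N (rootE N i) ^ (k + 1) := by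
      intro k
      ext θ
      have := Pool.Agent.Y43.KI.sroot N (k + 1) θ
      rw [ContinuousMap.sum_apply, this]
      rfl
    simp only [e]
    exact ht
  · rw [Ne, Polynomial.map_eq_zero_iff (RingHom.injective_int _)]
    exact hP
  · intro n
    have h2 : ∀ x : ℕ × ℕ, ell (muT N) (wgt N) (p x.1) *
        ((((P1 - (N : Polynomial ℤ) * P0).map (Int.castRingHom ℝ)).coeff x.2 : ℝ) : ℂ) =
        (N.factorial : ℂ) * (((e0c N A x.1 * P1.coeff x.2 : ℤ) : ℂ) -
          N * ((e0c N A x.1 * P0.coeff x.2 : ℤ) : ℂ)) := by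
      intro x
      rw [hD, Polynomial.coeff_map, Polynomial.coeff_sub]
      have : ((N : Polynomial ℤ) * P0).coeff x.2 = N * P0.coeff x.2 := by
        rw [← Polynomial.C_eq_natCast, Polynomial.coeff_C_mul]
      rw [this]
      push_cast
      simp only [eq_intCast]
      push_cast
      ring
    have h3 : ∀ x : ℕ × ℕ, ell (muT N) (Sk N 1 * wgt N) (p x.1) *
        (((P0.map (Int.castRingHom ℝ)).coeff x.2 : ℝ) : ℂ) =
        (N.factorial : ℂ) * (((eglc N A x.1 * P0.coeff x.2 : ℤ) : ℂ) -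
          N * ((e0c N A x.1 * P0.coeff x.2 : ℤ) : ℂ)) := by
      intro x
      rw [hX, Polynomial.coeff_map]
      simp only [eq_intCast]
      push_cast
      ring
    simp only [h2, h3]
    rw [← Finset.mul_sum, ← Finset.mul_sum, Finset.sum_sub_distrib, Finset.sum_sub_distrib]
    have h4 := congrArg (fun a : ℤ => (a : ℂ)) (hrel n)
    simp only [Int.cast_sum] at h4
    rw [h4]

end Pool.Agent.Y80.KI
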