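import Mathlib

set_option autoImplicit false

/-! Trivial and adjoint components of modules over a Lie algebra. -/

namespace Pool.Agent.Y80.KI

/-- The vectors killed by all the operators `act X`. -/
def invG {k S H : Type*} [Field k] [AddCommGroup H] [Module k H] (act : S → H →ₗ[k] H) :
    Submodule k H where
  carrier := {m | ∀ X, act X m = 0}
  add_mem' := by
    intro a b ha hb X
    rw [map_add, ha X, hb X, add_zero]
  zero_mem' := fun X => map_zero _
  smul_mem' := by
    intro c a ha X
    rw [map_smul, ha X, smul_zero]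

/-- The linear maps `f : S → H` with `f [X, Y] = X · f Y`, that is, the homomorphisms from the
adjoint module `S` to `H`. -/
def homG {k S H : Type*} [Field k] [AddCommGroup H] [Module k H] [LieRing S] [LieAlgebra k S]
    (act : S → H →ₗ[k] H) : Submodule k (S →ₗ[k] H) where
  carrier := {f | ∀ X Y, f ⁅X, Y⁆ = act X (f Y)}
  add_mem' := by
    intro f g hf hg X Y
    rw [LinearMap.add_apply, LinearMap.add_apply, hf, hg, map_add]
  zero_mem' := fun X Y => by
    rw [LinearMap.zero_apply, LinearMap.zero_apply, map_zero]
  smul_mem' := by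
    intro c f hf X Y
    rw [LinearMap.smul_apply, LinearMap.smul_apply, hf, map_smul]

/-- `H` has a nonzero invariant vector or a submodule isomorphic to the adjoint module `S`. -/
def HasG {k S H : Type*} [Field k] [AddCommGroup H] [Module k H] [LieRing S] [LieAlgebra k S]
    (act : S → H →ₗ[k] H) : Prop :=
  (∃ m : H, m ≠ 0 ∧ ∀ X, act X m = 0) ∨
  ∃ f : S →ₗ[k] H, Function.Injective f ∧ ∀ X Y, f ⁅X, Y⁆ = act X (f Y)

/-- All the spaces of invariants of `H p` and of homomorphisms from the adjoint module `S` to
`H p`, `p ≥ 2`, are finite-dimensional, and from some `p₀` on `H p` has neither a nonzero invariant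
vector nor a submodule isomorphic to the adjoint module. -/
def FinG {k S : Type*} {H : ℕ → Type*} [Field k] [∀ p, AddCommGroup (H p)]
    [∀ p, Module k (H p)] [LieRing S] [LieAlgebra k S] (act : ∀ p, S → H p →ₗ[k] H p) : Prop :=
  (∀ p, 2 ≤ p → Module.Finite k (invG (act p)) ∧ Module.Finite k (homG (act p))) ∧
    ∃ p₀, ∀ p, p₀ ≤ p → ¬ HasG (act p)

end Pool.Agent.Y80.KI
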