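import Pool.Agent.Y43.KI.CT

set_option autoImplicit false

open scoped BigOperators

/-! Specialisation of a product over multidegrees to one variable, all but two of the variables
being sent to zero. -/

namespace Pool.Agent.Y80.KI.GS

open Pool.Agent.Y80.KI

variable {d : ℕ} {R S : Type*} [CommRing R] [CommRing S]

/-- integer powers -/
noncomputable def gz (f : MvPowerSeries (Fin d) R) (n : ℤ) : MvPowerSeries (Fin d) R :=
  if 0 ≤ n then f ^ n.toNat else (MvPowerSeries.invOfUnit f 1) ^ (-n).toNat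

theorem gz_unit (f : MvPowerSeries (Fin d) R) (h : MvPowerSeries.constantCoeff f = 1) :
    ∃ u : (MvPowerSeries (Fin d) R)ˣ, (u : MvPowerSeries (Fin d) R) = f ∧
      ∀ n : ℤ, gz f n = ((u ^ n : (MvPowerSeries (Fin d) R)ˣ) : MvPowerSeries (Fin d) R) := by
  have h1 : MvPowerSeries.constantCoeff f = ((1 : Rˣ) : R) := by simpa using h
  refine ⟨⟨f, MvPowerSeries.invOfUnit f 1, MvPowerSeries.mul_invOfUnit f 1 h1,
    MvPowerSeries.invOfUnit_mul f 1 h1⟩, rfl, ?_⟩
  intro n
  unfold gz
  split_ifs with hn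
  · obtain ⟨m, rfl⟩ := Int.eq_ofNat_of_zero_le hn
    simp
  · obtain ⟨m, hm⟩ := Int.eq_ofNat_of_zero_le (show 0 ≤ -n by omega)
    have hn2 : n = -(m : ℤ) := by omega
    subst hn2
    simp

theorem ipw_unit (f : PowerSeries R) (h : PowerSeries.constantCoeff f = 1) :
    ∃ u : (PowerSeries R)ˣ, (u : PowerSeries R) = f ∧
      ∀ n : ℤ, ipw f n = ((u ^ n : (PowerSeries R)ˣ) : PowerSeries R) := by
  have h1 : PowerSeries.constantCoeff f = ((1 : Rˣ) : R) := by simpa using h
  refine ⟨⟨f, PowerSeries.invOfUnit f 1, PowerSeries.mul_invOfUnit f 1 h1,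
    PowerSeries.invOfUnit_mul f 1 h1⟩, rfl, ?_⟩
  intro n
  unfold ipw
  split_ifs with hn
  · obtain ⟨m, rfl⟩ := Int.eq_ofNat_of_zero_le hn
    simp
  · obtain ⟨m, hm⟩ := Int.eq_ofNat_of_zero_le (show 0 ≤ -n by omega)
    have hn2 : n = -(m : ℤ) := by omega
    subst hn2
    simp

theorem ipw_sum {ι : Type*} (f : PowerSeries R) (h : PowerSeries.constantCoeff f = 1)
    (s : Finset ι) (g : ι → ℤ) : ipw f (∑ i ∈ s, g i) = ∏ i ∈ s, ipw f (g i) := by
  classical
  obtain ⟨u, -, hu⟩ := ipw_unit f h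
  simp only [hu]
  induction s using Finset.induction_on with
  | empty => simp
  | insert a s ha ih =>
    rw [Finset.sum_insert ha, Finset.prod_insert ha, zpow_add, Units.val_mul, ih]

/-- two letters -/
noncomputable def pr (i j : Fin d) (a b : ℕ) : Fin d →₀ ℕ := Finsupp.single i a + Finsupp.single j b

theorem pr_i {i j : Fin d} (hij : i ≠ j) (a b : ℕ) : pr i j a b i = a := by
  rw [pr, Finsupp.add_apply, Finsupp.single_eq_same, Finsupp.single_eq_of_ne hij, add_zero]

theorem pr_j {i j : Fin d} (hij : i ≠ j) (a b : ℕ) : pr i j a b j = b := by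
  rw [pr, Finsupp.add_apply, Finsupp.single_eq_same, Finsupp.single_eq_of_ne hij.symm, zero_add]

theorem pr_l {i j l : Fin d} (hi : l ≠ i) (hj : l ≠ j) (a b : ℕ) : pr i j a b l = 0 := by
  rw [pr, Finsupp.add_apply, Finsupp.single_eq_of_ne hi, Finsupp.single_eq_of_ne hj, add_zero]

theorem pr_sum (i j : Fin d) (a b : ℕ) : ∑ l, pr i j a b l = a + b := by
  simp only [pr, Finsupp.add_apply, Finset.sum_add_distrib, Finsupp.single_apply]
  simp

/-- supported on the two letters -/
def ok (i j : Fin d) (β : Fin d →₀ ℕ) : Prop := ∀ l, l ≠ i → l ≠ j → β l = 0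

theorem ok_pr (i j : Fin d) (a b : ℕ) : ok i j (pr i j a b) := fun _ h1 h2 => pr_l h1 h2 a b

theorem eq_pr {i j : Fin d} (hij : i ≠ j) {β : Fin d →₀ ℕ} (h : ok i j β) :
    β = pr i j (β i) (β j) := by
  ext l
  by_cases h1 : l = i
  · subst h1; rw [pr_i hij]
  · by_cases h2 : l = j
    · subst h2; rw [pr_j hij]
    · rw [pr_l h1 h2, h l h1 h2]

open Classical in
/-- all other variables are sent to zero -/
noncomputable def pi2 (i j : Fin d) : MvPowerSeries (Fin d) R →+* MvPowerSeries (Fin d) R where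
  toFun f := fun β => if ok i j β then MvPowerSeries.coeff β f else 0
  map_one' := by
    ext β
    show (if ok i j β then MvPowerSeries.coeff β (1 : MvPowerSeries (Fin d) R) else 0) = _
    split_ifs with h
    · rfl
    · rw [MvPowerSeries.coeff_one, if_neg]
      rintro rfl
      exact h fun l _ _ => rfl
  map_mul' := by
    intro f g
    ext β
    rw [MvPowerSeries.coeff_mul]
    show (if ok i j β then MvPowerSeries.coeff β (f * g) else 0) =
      ∑ p ∈ Finset.HasAntidiagonal.antidiagonal β, (if ok i j p.1 then MvPowerSeries.coeff p.1 f else 0) *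
        (if ok i j p.2 then MvPowerSeries.coeff p.2 g else 0)
    split_ifs with h
    · rw [MvPowerSeries.coeff_mul]
      refine Finset.sum_congr rfl fun p hp => ?_
      rw [Finset.HasAntidiagonal.mem_antidiagonal] at hp
      have h1 : ∀ l, p.1 l + p.2 l = β l := fun l => by rw [← hp]; rfl
      rw [if_pos, if_pos]
      · intro l a b; have := h1 l; rw [h l a b] at this; omega
      · intro l a b; have := h1 l; rw [h l a b] at this; omega
    · symm
      apply Finset.sum_eq_zero
      intro p hp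
      rw [Finset.HasAntidiagonal.mem_antidiagonal] at hp
      by_cases h1 : ok i j p.1
      · by_cases h2 : ok i j p.2
        · exfalso
          apply h
          intro l a b
          rw [← hp, Finsupp.add_apply, h1 l a b, h2 l a b]
        · rw [if_neg h2, mul_zero]
      · rw [if_neg h1, zero_mul]
  map_zero' := by
    ext β
    show (if ok i j β then MvPowerSeries.coeff β (0 : MvPowerSeries (Fin d) R) else 0) = _
    split_ifs <;> simp
  map_add' := by
    intro f g
    ext β
    show (if ok i j β then MvPowerSeries.coeff β (f + g) else 0) =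
      (if ok i j β then MvPowerSeries.coeff β f else 0) +
        (if ok i j β then MvPowerSeries.coeff β g else 0)
    split_ifs <;> simp

open Classical in
theorem coeff_pi2 (i j : Fin d) (f : MvPowerSeries (Fin d) R) (β : Fin d →₀ ℕ) :
    MvPowerSeries.coeff β (pi2 i j f) = if ok i j β then MvPowerSeries.coeff β f else 0 := rfl

theorem pi2_monomial {i j : Fin d} {α : Fin d →₀ ℕ} (h : ok i j α) (r : R) :
    pi2 i j (MvPowerSeries.monomial α r) = MvPowerSeries.monomial α r := by
  classical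
  ext β
  rw [coeff_pi2, MvPowerSeries.coeff_monomial]
  split_ifs with h1 h2 h2
  · rfl
  · rfl
  · subst h2; exact absurd h h1
  · rfl

/-- all variables are sent to one variable -/
noncomputable def psi : MvPowerSeries (Fin d) R →ₐ[R] PowerSeries R :=
  MvPowerSeries.rename (fun _ : Fin d => ())

theorem mapDomain_unit (α : Fin d →₀ ℕ) :
    Finsupp.mapDomain (fun _ : Fin d => ()) α = Finsupp.single () (∑ i, α i) := by
  ext
  rw [Finsupp.mapDomain, Finsupp.sum_apply, Finsupp.single_eq_same]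
  rw [Finsupp.sum_fintype _ _ (by simp)]
  simp

theorem psi_monomial (α : Fin d →₀ ℕ) (r : R) :
    psi (MvPowerSeries.monomial α r) = PowerSeries.monomial (∑ i, α i) r := by
  rw [psi, MvPowerSeries.rename_monomial, mapDomain_unit]
  rfl

theorem coeff_psi (f : MvPowerSeries (Fin d) R) (n : ℕ) : PowerSeries.coeff n (psi f) =
    ∑ β ∈ Finset.finsuppAntidiag (Finset.univ : Finset (Fin d)) n, MvPowerSeries.coeff β f := by
  rw [PowerSeries.coeff, psi, MvPowerSeries.coeff_rename]
  refine Finset.sum_congr ?_ fun _ _ => rfl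
  ext β
  rw [Set.Finite.mem_toFinset, Set.mem_preimage, Set.mem_singleton_iff, mapDomain_unit,
    Finset.mem_finsuppAntidiag]
  constructor
  · intro h
    refine ⟨?_, Finset.subset_univ _⟩
    have := DFunLike.congr_fun h ()
    simpa using this
  · rintro ⟨h, -⟩
    rw [← h]

/-- the specialisation -/
noncomputable def Psi (i j : Fin d) (φ : R →+* S) : MvPowerSeries (Fin d) R →+* PowerSeries S :=
  (PowerSeries.map φ).comp ((psi (d := d) (R := R) : MvPowerSeries (Fin d) R →+* PowerSeries R).comp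
    (pi2 i j))

theorem Psi_apply (i j : Fin d) (φ : R →+* S) (f : MvPowerSeries (Fin d) R) :
    Psi i j φ f = PowerSeries.map φ (psi (pi2 i j f)) := rfl

theorem coeff_Psi {i j : Fin d} (hij : i ≠ j) (φ : R →+* S) (f : MvPowerSeries (Fin d) R) (n : ℕ) :
    PowerSeries.coeff n (Psi i j φ f) =
      ∑ l ∈ Finset.range (n + 1), φ (MvPowerSeries.coeff (pr i j l (n - l)) f) := by
  classical
  rw [Psi_apply, PowerSeries.coeff_map, coeff_psi, map_sum]
  simp only [coeff_pi2, apply_ite φ, map_zero]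
  rw [← Finset.sum_filter]
  symm
  refine Finset.sum_nbij' (fun l => pr i j l (n - l)) (fun β => β i) ?_ ?_ ?_ ?_ ?_
  · intro l hl
    rw [Finset.mem_range] at hl
    rw [Finset.mem_filter, Finset.mem_finsuppAntidiag, pr_sum]
    exact ⟨⟨by omega, Finset.subset_univ _⟩, ok_pr i j _ _⟩
  · intro β hβ
    rw [Finset.mem_filter, Finset.mem_finsuppAntidiag] at hβ
    rw [Finset.mem_range]
    have h1 := hβ.1.1
    rw [eq_pr hij hβ.2, pr_sum] at h1
    omega
  · intro l _
    exact pr_i hij _ _
  · intro β hβ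
    rw [Finset.mem_filter, Finset.mem_finsuppAntidiag] at hβ
    have h1 := hβ.1.1
    rw [eq_pr hij hβ.2, pr_sum] at h1
    have h2 : n - β i = β j := by omega
    show pr i j (β i) (n - β i) = β
    rw [h2]
    exact (eq_pr hij hβ.2).symm
  · intro l _
    rfl

theorem Psi_const {i j : Fin d} (hij : i ≠ j) (φ : R →+* S) (f : MvPowerSeries (Fin d) R)
    (h : MvPowerSeries.constantCoeff f = 1) : PowerSeries.constantCoeff (Psi i j φ f) = 1 := by
  rw [← PowerSeries.coeff_zero_eq_constantCoeff_apply, coeff_Psi hij]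
  simp only [zero_add, Finset.range_one, Finset.sum_singleton, Nat.sub_self]
  have : pr i j 0 0 = 0 := by simp [pr]
  rw [this, MvPowerSeries.coeff_zero_eq_constantCoeff_apply, h, map_one]

theorem Psi_gz {i j : Fin d} (hij : i ≠ j) (φ : R →+* S) (f : MvPowerSeries (Fin d) R)
    (h : MvPowerSeries.constantCoeff f = 1) (n : ℤ) :
    Psi i j φ (gz f n) = ipw (Psi i j φ f) n := by
  obtain ⟨u, hu1, hu⟩ := gz_unit f h
  obtain ⟨v, hv1, hv⟩ := ipw_unit (Psi i j φ f) (Psi_const hij φ f h)
  rw [hu, hv]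
  have h2 : Units.map (Psi i j φ : MvPowerSeries (Fin d) R →* PowerSeries S) u = v := by
    ext1
    rw [hv1, ← hu1]
    rfl
  rw [← h2, ← map_zpow]
  rfl

theorem const_one_sub {α : Fin d →₀ ℕ} (hα : α ≠ 0) (r : R) :
    MvPowerSeries.constantCoeff (1 - MvPowerSeries.monomial α r) = 1 := by
  classical
  rw [map_sub, map_one, ← MvPowerSeries.coeff_zero_eq_constantCoeff_apply,
    MvPowerSeries.coeff_monomial, if_neg (Ne.symm hα), sub_zero]

theorem Psi_one_sub (i j : Fin d) (φ : R →+* S) (a b : ℕ) (r : R) :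
    Psi i j φ (1 - MvPowerSeries.monomial (pr i j a b) r) =
      1 - PowerSeries.monomial (a + b) (φ r) := by
  rw [map_sub, map_one, Psi_apply, pi2_monomial (ok_pr i j a b), psi_monomial, pr_sum]
  congr 1
  ext m
  rw [PowerSeries.coeff_map, PowerSeries.coeff_monomial, PowerSeries.coeff_monomial]
  split_ifs <;> simp

/-- series without terms below `β` -/
def lowIdeal (β : Fin d →₀ ℕ) : Ideal (MvPowerSeries (Fin d) R) where
  carrier := {f | ∀ γ ≤ β, MvPowerSeries.coeff γ f = 0}
  zero_mem' := by intro γ _; simp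
  add_mem' := by
    intro f g hf hg γ hγ
    simp [hf γ hγ, hg γ hγ]
  smul_mem' := by
    classical
    intro c f hf γ hγ
    rw [smul_eq_mul, MvPowerSeries.coeff_mul]
    apply Finset.sum_eq_zero
    intro x hx
    rw [Finset.HasAntidiagonal.mem_antidiagonal] at hx
    rw [hf x.2 (le_trans (by rw [← hx]; exact le_add_self) hγ), mul_zero]

theorem mk_gz {β : Fin d →₀ ℕ} {f : MvPowerSeries (Fin d) R}
    (h : MvPowerSeries.constantCoeff f = 1)
    (hf : Ideal.Quotient.mk (lowIdeal β) f = 1) (n : ℤ) :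
    Ideal.Quotient.mk (lowIdeal β) (gz f n) = 1 := by
  obtain ⟨u, hu1, hu⟩ := gz_unit f h
  rw [hu]
  have h2 : Units.map (Ideal.Quotient.mk (lowIdeal (R := R) β)).toMonoidHom u = 1 := by
    ext1
    rw [Units.val_one, ← hf, ← hu1]
    rfl
  have h3 : Units.map (Ideal.Quotient.mk (lowIdeal (R := R) β)).toMonoidHom (u ^ n)
      = 1 := by
    rw [map_zpow, h2, one_zpow]
  exact congrArg Units.val h3

variable {K : Type*} [Fintype K]

/-- the factor of multidegree `α` -/
noncomputable def gterm (w : K → R) (c : K → (Fin d →₀ ℕ) → ℤ) (α : Fin d →₀ ℕ) :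
    MvPowerSeries (Fin d) R :=
  ∏ κ, gz (1 - MvPowerSeries.monomial α (w κ)) (c κ α)

/-- the coefficient of the product -/
noncomputable def gphi (w : K → R) (c : K → (Fin d →₀ ℕ) → ℤ) (β : Fin d →₀ ℕ) : R :=
  MvPowerSeries.coeff β (∏ α ∈ (Finset.Icc 0 β).erase 0, gterm w c α)

theorem mk_gterm (w : K → R) (c : K → (Fin d →₀ ℕ) → ℤ) {α β : Fin d →₀ ℕ} (h : ¬ α ≤ β) :
    Ideal.Quotient.mk (lowIdeal β) (gterm w c α) = 1 := by
  classical
  have hα : α ≠ 0 := by
    rintro rfl
    exact h bot_le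
  rw [gterm, map_prod]
  apply Finset.prod_eq_one
  intro κ _
  apply mk_gz (const_one_sub hα _)
  refine Eq.trans ?_ (map_one (Ideal.Quotient.mk (lowIdeal (R := R) β)))
  rw [Ideal.Quotient.mk_eq_mk_iff_sub_mem]
  intro γ hγ
  rw [sub_sub_cancel_left, map_neg, MvPowerSeries.coeff_monomial, if_neg, neg_zero]
  rintro rfl
  exact h hγ

theorem coeff_congr_mk {β : Fin d →₀ ℕ} {f g : MvPowerSeries (Fin d) R}
    (h : Ideal.Quotient.mk (lowIdeal β) f = Ideal.Quotient.mk (lowIdeal β) g) :
    MvPowerSeries.coeff β f = MvPowerSeries.coeff β g := by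
  rw [Ideal.Quotient.mk_eq_mk_iff_sub_mem] at h
  have h2 := h β le_rfl
  rwa [map_sub, sub_eq_zero] at h2

theorem coeff_prod {i j : Fin d} (hij : i ≠ j) (w : K → R) (c : K → (Fin d →₀ ℕ) → ℤ) (N0 a b : ℕ)
    (hab : a + b ≤ N0) :
    MvPowerSeries.coeff (pr i j a b) (∏ m ∈ Finset.Icc 1 N0, ∏ l ∈ Finset.range (m + 1),
      gterm w c (pr i j l (m - l))) = gphi w c (pr i j a b) := by
  classical
  set β := pr i j a b with hβ
  rw [gphi]
  apply coeff_congr_mk
  rw [Finset.prod_sigma', map_prod, map_prod]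
  rw [← Finset.prod_filter_of_ne (p := fun x : (Σ _ : ℕ, ℕ) => pr i j x.2 (x.1 - x.2) ≤ β)
    (fun x _ hx => by
      by_contra hcon
      exact hx (mk_gterm w c hcon))]
  refine Finset.prod_nbij' (fun x => pr i j x.2 (x.1 - x.2)) (fun α => ⟨α i + α j, α i⟩)
    ?_ ?_ ?_ ?_ ?_
  · rintro ⟨m, l⟩ hx
    rw [Finset.mem_filter, Finset.mem_sigma, Finset.mem_Icc, Finset.mem_range] at hx
    obtain ⟨⟨h1, h2⟩, h3⟩ := hx
    rw [Finset.mem_erase, Finset.mem_Icc]
    refine ⟨?_, bot_le, h3⟩
    intro h4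
    have h5 := pr_sum i j l (m - l)
    simp only at h4 h2 h1
    rw [h4] at h5
    simp only [Finsupp.coe_zero, Pi.zero_apply, Finset.sum_const_zero] at h5
    omega
  · intro α hα
    rw [Finset.mem_erase, Finset.mem_Icc] at hα
    obtain ⟨h0, -, hle⟩ := hα
    have hok : ok i j α := fun l h1 h2 => by
      have := hle l
      rw [hβ, pr_l h1 h2] at this
      omega
    have h1 : α i ≤ a := by
      have := hle i
      rwa [hβ, pr_i hij] at this
    have h2 : α j ≤ b := by
      have := hle j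
      rwa [hβ, pr_j hij] at this
    rw [Finset.mem_filter, Finset.mem_sigma, Finset.mem_Icc, Finset.mem_range]
    refine ⟨⟨⟨?_, ?_⟩, ?_⟩, ?_⟩
    · by_contra hcon
      apply h0
      rw [eq_pr hij hok]
      have e1 : α i = 0 := by simp only at hcon; omega
      have e2 : α j = 0 := by simp only at hcon; omega
      rw [e1, e2]
      simp [pr]
    · simp only
      omega
    · simp only
      omega
    · simp only
      rw [Nat.add_sub_cancel_left, ← eq_pr hij hok]
      exact hle
  · rintro ⟨m, l⟩ hx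
    rw [Finset.mem_filter, Finset.mem_sigma, Finset.mem_Icc, Finset.mem_range] at hx
    obtain ⟨⟨h1, h2⟩, h3⟩ := hx
    simp only at h1 h2 ⊢
    rw [pr_i hij, pr_j hij]
    congr 1
    omega
  · intro α hα
    rw [Finset.mem_erase, Finset.mem_Icc] at hα
    obtain ⟨h0, -, hle⟩ := hα
    have hok : ok i j α := fun l h1 h2 => by
      have := hle l
      rw [hβ, pr_l h1 h2] at this
      omega
    simp only
    rw [Nat.add_sub_cancel_left, ← eq_pr hij hok]
  · intro x _
    rfl

theorem gspec {i j : Fin d} (hij : i ≠ j) (φ : R →+* S) (w : K → R) (c : K → (Fin d →₀ ℕ) → ℤ)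
    (N0 n : ℕ) (hn : n ≤ N0) :
    PowerSeries.coeff n (∏ m ∈ Finset.Icc 1 N0, ∏ κ, ipw (1 - PowerSeries.monomial m (φ (w κ)))
      (∑ l ∈ Finset.range (m + 1), c κ (pr i j l (m - l)))) =
      ∑ l ∈ Finset.range (n + 1), φ (gphi w c (pr i j l (n - l))) := by
  classical
  have h1 : Psi i j φ (∏ m ∈ Finset.Icc 1 N0, ∏ l ∈ Finset.range (m + 1),
      gterm w c (pr i j l (m - l))) = ∏ m ∈ Finset.Icc 1 N0, ∏ κ,
        ipw (1 - PowerSeries.monomial m (φ (w κ)))
          (∑ l ∈ Finset.range (m + 1), c κ (pr i j l (m - l))) := by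
    rw [map_prod]
    refine Finset.prod_congr rfl fun m hm => ?_
    rw [Finset.mem_Icc] at hm
    rw [map_prod]
    have h2 : ∀ κ, ipw (1 - PowerSeries.monomial m (φ (w κ)))
          (∑ l ∈ Finset.range (m + 1), c κ (pr i j l (m - l))) =
        ∏ l ∈ Finset.range (m + 1), ipw (1 - PowerSeries.monomial m (φ (w κ)))
          (c κ (pr i j l (m - l))) := by
      intro κ
      apply ipw_sum
      rw [map_sub, map_one, ← PowerSeries.coeff_zero_eq_constantCoeff_apply,
        PowerSeries.coeff_monomial, if_neg (by omega), sub_zero]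
    simp only [h2]
    rw [Finset.prod_comm]
    refine Finset.prod_congr rfl fun l hl => ?_
    rw [Finset.mem_range] at hl
    rw [gterm, map_prod]
    refine Finset.prod_congr rfl fun κ _ => ?_
    have h0 : pr i j l (m - l) ≠ 0 := by
      intro h4
      have h5 := pr_sum i j l (m - l)
      rw [h4] at h5
      simp only [Finsupp.coe_zero, Pi.zero_apply, Finset.sum_const_zero] at h5
      omega
    rw [Psi_gz hij φ _ (const_one_sub h0 _), Psi_one_sub, show l + (m - l) = m by omega]
  rw [← h1, coeff_Psi hij]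
  refine Finset.sum_congr rfl fun l hl => ?_
  rw [Finset.mem_range] at hl
  rw [coeff_prod hij w c N0 l (n - l) (by omega)]

end Pool.Agent.Y80.KI.GS
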