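import Pool.Agent.Y80.KI.Form
import Pool.Agent.Y80.KM.Fin
import Pool.Agent.Y430.KI.Graded
import Pool.Agent.Y430.KI.Full
import Pool.Agent.Y275.KI.Fun

set_option autoImplicit false
set_option linter.unusedSectionVars false

open scoped BigOperators Topology DirectSum TensorProduct
open MeasureTheory

/-! Infinitely many trivial or adjoint components. -/

namespace Pool.Agent.Y80.KI

open Pool.Agent.Y80.KM

universe u

section ds

variable {k : Type*} [Field k] {V : ℕ → Type*} [∀ i, AddCommMonoid (V i)]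
  [∀ i, Module k (V i)]

theorem ds_finite (h : Module.Finite k (⨁ p : ℕ, V p)) :
    (∀ p, Module.Finite k (V p)) ∧ ∃ p₀, ∀ p, p₀ ≤ p → ∀ v : V p, v = 0 := by
  classical
  constructor
  · intro p
    exact Module.Finite.of_surjective (DirectSum.component k ℕ V p) fun v =>
      ⟨DirectSum.lof k ℕ V p v, by rw [DirectSum.component.lof_self]⟩
  · obtain ⟨s, hs⟩ := h.fg_top
    refine ⟨(s.biUnion fun x => DFinsupp.support x).sup id + 1, fun p hp v => ?_⟩
    have h1 : ∀ x ∈ Submodule.span k (s : Set (⨁ p : ℕ, V p)),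
        DirectSum.component k ℕ V p x = 0 := by
      intro x hx
      induction hx using Submodule.span_induction with
      | mem x hx =>
        by_contra hne
        have h2 : p ∈ s.biUnion fun x => DFinsupp.support x := by
          rw [Finset.mem_biUnion]
          exact ⟨x, hx, DFinsupp.mem_support_iff.mpr hne⟩
        have h3 : p ≤ (s.biUnion fun x => DFinsupp.support x).sup id :=
          Finset.le_sup (f := id) h2
        omega
      | zero => exact map_zero _
      | add x y _ _ hx hy => rw [map_add, hx, hy, add_zero]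
      | smul c x _ hx => rw [map_smul, hx, smul_zero]
    have h2 := h1 (DirectSum.lof k ℕ V p v) (by rw [hs]; trivial)
    rwa [DirectSum.component.lof_self] at h2

end ds

theorem exists_poly (f : ℕ → ℤ) (n₀ : ℕ) (h : ∀ n, n₀ ≤ n → f n = 0) :
    ∃ P : Polynomial ℤ, ∀ n, f n = P.coeff n := by
  refine ⟨∑ n ∈ Finset.range n₀, Polynomial.C (f n) * Polynomial.X ^ n, fun n => ?_⟩
  rw [Polynomial.finsetSum_coeff]
  simp only [Polynomial.coeff_C_mul_X_pow]
  rw [Finset.sum_ite_eq]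
  split_ifs with h1
  · rfl
  · exact h n (by simpa using h1)

theorem e0_one (N : ℕ) (z A : ℕ → ℤ) :
    e0 N (fun μ => (PowerSeries.coeff 0 (fullp N z A 0)).coeff μ) = 1 := by
  have h1 : fullp N z A 0 = 1 := by
    simp [fullp, fprod]
  rw [h1, e0]
  rw [Finset.sum_eq_single (1 : Equiv.Perm (Fin N))]
  · simp only [Equiv.Perm.sign_one, Units.val_one, one_mul, Equiv.Perm.coe_one, id_eq, sub_self,
      PowerSeries.coeff_zero_one]
    rw [AddMonoidAlgebra.one_def]
    show (AddMonoidAlgebra.single (0 : Fin N → ℤ) (1 : ℤ)).coeff (fun _ => 0) = 1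
    rw [AddMonoidAlgebra.coeff_single]
    exact Finsupp.single_eq_same
  · intro σ _ hσ
    rw [PowerSeries.coeff_zero_one, AddMonoidAlgebra.one_def, AddMonoidAlgebra.coeff_single,
      Finsupp.single_eq_of_ne, mul_zero]
    intro h2
    apply hσ
    ext i
    have h3 := congrFun h2 i
    simp only [Pi.zero_apply] at h3
    have h4 : ((σ i : ℕ) : ℤ) = (i : ℕ) := by linarith
    exact_mod_cast h4
  · intro h; exact absurd (Finset.mem_univ _) h

section main

variable {k A : Type u} [Field k] [CharZero k] [NonUnitalNonAssocRing A] [Module k A]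
  [IsScalarTower k A A] [SMulCommClass k A A] {N : ℕ} [NeZero N] {T : TitsData k A N}
  {𝒜 : ℕ → Submodule k A}

theorem inf_of_gr (hN : N = 2 ∨ N = 3) (hd : GrData T 𝒜) (hR : RepN k N)
    (hgen : ∀ n, 2 ≤ n → ∀ μ, hsp (tData hd).b (tData hd).γ (n, μ) ≤ Submodule.span k
      {x | ∃ g g' : ℕ × (Fin N → ℤ), g + g' = (n, μ) ∧ ∃ y ∈ hsp (tData hd).b (tData hd).γ g,
        ∃ z ∈ hsp (tData hd).b (tData hd).γ g', x = ⁅y, z⁆})
    (C : ℝ) (hA : ∀ n, |((Module.finrank k (𝒜 n) : ℤ) : ℝ)| ≤ C * 4 ^ n) (r ρ : ℝ) (hr : 0 < r)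
    (hρ : 1 / 2 < ρ) (h : ℂ → ℂ) (hh : DifferentiableOn ℂ h (Metric.ball 0 ρ))
    (hreal : ∀ t : ℝ, |t| < ρ → (h t).im = 0)
    (hc : ∀ᶠ t in 𝓝 (0 : ℂ), csum (fun n => (Module.finrank k (𝒜 n) : ℤ)) t =
      r / (1 - 2 * t) + h t)
    (h1 : ∀ p, 2 ≤ p → FiniteDimensional k (hInv (tData hd) p) ∧
      FiniteDimensional k (hAdj (tData hd) p))
    (h2 : ∃ p₀, ∀ p, p₀ ≤ p → hInv (tData hd) p = ⊥ ∧ hAdj (tData hd) p = ⊥) : False := by
  obtain ⟨n₀, hn₀⟩ := Pool.Agent.Y430.KI.graded (by omega) (tData hd) hR hgen h1 h2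
  set z : ℕ → ℤ := fun m =>
    (((N - 1) * Module.finrank k (𝒜 m) + Module.finrank k (bcomp 𝒜 m) : ℕ) : ℤ) with hz
  set Af : ℕ → ℤ := fun n => (Module.finrank k (𝒜 n) : ℤ) with hAf
  have hfull : ∀ n, (fun μ => (PowerSeries.coeff n (fullp N z Af n)).coeff μ) =
      (tData hd).chi n := by
    intro n
    funext μ
    exact Pool.Agent.Y430.KI.full_chi hd n n le_rfl μ
  obtain ⟨P0, hP0⟩ := exists_poly (fun n => e0 N ((tData hd).chi n)) n₀
    fun n hn => (hn₀ n hn).1
  obtain ⟨P1, hP1⟩ := exists_poly (fun n => egl N ((tData hd).chi n)) n₀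
    fun n hn => (hn₀ n hn).2
  refine no_rel N hN z Af C hA r ρ hr hρ h hh hreal hc P0 P1 ?_ ?_ ?_
  · rintro rfl
    have e1 := hP0 0
    simp only [Polynomial.coeff_zero] at e1
    rw [← hfull 0, e0_one] at e1
    exact one_ne_zero e1
  · intro n
    rw [hfull n]
    exact hP0 n
  · intro n
    rw [hfull n]
    exact hP1 n

end main

/-- `2^n`, `n ≥ 1` -/
theorem csum_alt {A : ℕ → ℤ} (hA : ∀ n, 1 ≤ n → A n = 2 ^ n) :
    ∀ᶠ t in 𝓝 (0 : ℂ), csum A t = (1 : ℝ) / (1 - 2 * t) + (fun _ => -1 : ℂ → ℂ) t := by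
  have hball : ∀ᶠ t in 𝓝 (0 : ℂ), t ∈ Metric.ball (0 : ℂ) (1 / 4) :=
    Metric.ball_mem_nhds _ (by norm_num)
  filter_upwards [hball] with t ht
  rw [mem_ball_zero_iff] at ht
  have h1 : ‖2 * t‖ < 1 := by
    rw [norm_mul]
    norm_num
    linarith
  have h2 := hasSum_geometric_of_norm_lt_one h1
  have h3 := (hasSum_nat_add_iff' 1).mpr h2
  rw [csum]
  have h4 : (fun n : ℕ => (A (n + 1) : ℂ) * t ^ (n + 1)) = fun n : ℕ => (2 * t) ^ (n + 1) := by
    funext n
    rw [hA (n + 1) (by omega), mul_pow]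
    push_cast
    ring
  rw [h4, h3.tsum_eq]
  simp
  ring

end Pool.Agent.Y80.KI
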