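import Pool.Agent.Y80.KI.GSpec
import Pool.Agent.Y80.KM.CharDefs

set_option autoImplicit false

open scoped BigOperators

/-! Specialisation of the defining property of the pair of Kashuba and Mathieu. -/

namespace Pool.Agent.Y80.KI

open Pool.Agent.Y80.KM Pool.Agent.Y80.KI.GS

theorem map_one_sub_mono {R S : Type*} [CommRing R] [CommRing S] (φ : R →+* S) (m : ℕ) (r : R) :
    PowerSeries.map φ (1 - PowerSeries.monomial m r) = 1 - PowerSeries.monomial m (φ r) := by
  rw [map_sub, map_one]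
  congr 1
  ext l
  rw [PowerSeries.coeff_map, PowerSeries.coeff_monomial, PowerSeries.coeff_monomial]
  split_ifs <;> simp

theorem winv_fullp (N : ℕ) (z A : ℕ → ℤ) (N0 n : ℕ) :
    WInv (PowerSeries.coeff n (fullp N z A N0)) := by
  apply Pool.Agent.Y43.KI.winv_of
  intro σ
  rw [← PowerSeries.coeff_map]
  congr 1
  rw [fullp, map_mul, Pool.Agent.Y43.KI.map_permR_fprod, map_prod]
  congr 1
  refine Finset.prod_congr rfl fun m hm => ?_
  rw [Finset.mem_Icc] at hm
  rw [Pool.Agent.Y43.KI.map_ipw _ _ (Pool.Agent.Y43.KI.cc_one_sub m hm.1 _), map_one_sub_mono,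
    map_one]

theorem prod_Rt {N : ℕ} {M : Type*} [CommMonoid M] (f : Fin N × Fin N → M) :
    ∏ p : Rt N, f p.1 = ∏ i, ∏ j, if i ≠ j then f (i, j) else 1 := by
  classical
  rw [← Finset.prod_subtype (Finset.univ.filter fun p : Fin N × Fin N => p.1 ≠ p.2)
    (fun x => by simp) f, Finset.prod_filter, Fintype.prod_prod_type]

/-- the coordinates of the weights -/
def emb2 : ℤ →+ (Fin 2 → ℤ) where
  toFun m := ![m, -m]
  map_zero' := by ext i; fin_cases i <;> simp
  map_add' a b := by ext i; fin_cases i <;> simp; ring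

/-- the coordinates of the characters -/
noncomputable def phi2 : Pool.Agent.Y80.KM.TorusChar →+* TG 2 :=
  AddMonoidAlgebra.mapDomainRingHom ℤ emb2

theorem emb2_inj : Function.Injective emb2 := by
  intro a b h
  exact congrFun h 0

theorem phi2_coeff (x : Pool.Agent.Y80.KM.TorusChar) (m : ℤ) :
    (phi2 x).coeff ![m, -m] = x.coeff m := by
  change Finsupp.mapDomain emb2 x.coeff (emb2 m) = _
  exact Finsupp.mapDomain_apply emb2_inj _ _

theorem e02 (F : (Fin 2 → ℤ) → ℤ) : e0 2 F = F ![0, 0] - F ![1, -1] := by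
  unfold e0
  have h : (Finset.univ : Finset (Equiv.Perm (Fin 2))) = {1, Equiv.swap 0 1} := by decide
  rw [h, Finset.sum_insert (by decide), Finset.sum_singleton, Equiv.Perm.sign_one,
    Equiv.Perm.sign_swap (by decide)]
  have e1 : (fun i : Fin 2 => (((1 : Equiv.Perm (Fin 2)) i : ℕ) : ℤ) - ((i : ℕ) : ℤ)) = ![0, 0] := by
    ext i; fin_cases i <;> simp
  have e2 : (fun i : Fin 2 => (((Equiv.swap (0 : Fin 2) 1) i : ℕ) : ℤ) - ((i : ℕ) : ℤ)) =
      ![1, -1] := by
    ext i; fin_cases i <;> simp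
  rw [e1, e2]
  push_cast
  ring

theorem egl2 (F : (Fin 2 → ℤ) → ℤ) : egl 2 F = 2 * (F ![0, 0] - F ![1, -1]) +
    (F ![1, -1] - F ![2, -2]) + (F ![-1, 1] - F ![0, 0]) := by
  unfold egl
  simp only [Fin.sum_univ_two, e02]
  have a1 : (![0, 0] : Fin 2 → ℤ) + epsd 0 0 = ![0, 0] := by
    ext i; fin_cases i <;> simp [epsd]
  have a2 : (![1, -1] : Fin 2 → ℤ) + epsd 0 0 = ![1, -1] := by
    ext i; fin_cases i <;> simp [epsd]
  have a3 : (![0, 0] : Fin 2 → ℤ) + epsd 1 1 = ![0, 0] := by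
    ext i; fin_cases i <;> simp [epsd]
  have a4 : (![1, -1] : Fin 2 → ℤ) + epsd 1 1 = ![1, -1] := by
    ext i; fin_cases i <;> simp [epsd]
  have a5 : (![0, 0] : Fin 2 → ℤ) + epsd 0 1 = ![1, -1] := by
    ext i; fin_cases i <;> simp [epsd]
  have a6 : (![1, -1] : Fin 2 → ℤ) + epsd 0 1 = ![2, -2] := by
    ext i; fin_cases i <;> simp [epsd]
  have a7 : (![0, 0] : Fin 2 → ℤ) + epsd 1 0 = ![-1, 1] := by
    ext i; fin_cases i <;> simp [epsd]
  have a8 : (![1, -1] : Fin 2 → ℤ) + epsd 1 0 = ![0, 0] := by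
    ext i; fin_cases i <;> simp [epsd]
  rw [a1, a2, a3, a4, a5, a6, a7, a8]
  ring

theorem multj_eq (m : ℤ) (x : Pool.Agent.Y80.KM.TorusChar) :
    multj m x = x.coeff m - x.coeff (m + 1) := by
  unfold multj wtj
  rw [mul_sub, mul_one, AddMonoidAlgebra.coeff_sub, Finsupp.sub_apply]
  congr 1
  have := AddMonoidAlgebra.coeff_mul_single_apply x (1 : ℤ) (-1 : ℤ) m
  rw [this, mul_one]
  congr 1

variable {d : ℕ}

/-- the weights of the adjoint module -/
noncomputable def wj : Fin 3 → Pool.Agent.Y80.KM.TorusChar := ![wtj 0, wtj 1, wtj (-1)]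

/-- the exponents -/
noncomputable def cj (a b : MvPowerSeries (Fin d) ℤ) : Fin 3 → (Fin d →₀ ℕ) → ℤ :=
  ![fun α => MvPowerSeries.coeff α a + MvPowerSeries.coeff α b,
    fun α => MvPowerSeries.coeff α a, fun α => MvPowerSeries.coeff α a]

theorem phi_eq (a b : MvPowerSeries (Fin d) ℤ) (β : Fin d →₀ ℕ) :
    gphi wj (cj a b) β = Pool.Agent.Y80.KM.phi a b β := by
  rw [gphi, Pool.Agent.Y80.KM.phi]
  refine congrArg (MvPowerSeries.coeff β) (Finset.prod_congr rfl fun α _ => ?_)
  have hz : ∀ (f : CharJ d) (n : ℤ), gz f n = Pool.Agent.Y80.KM.zpw f n := fun f n => by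
    unfold gz Pool.Agent.Y80.KM.zpw
    rfl
  have w0 : wj 0 = wtj 0 := rfl
  have w1 : wj 1 = wtj 1 := rfl
  have w2 : wj 2 = wtj (-1) := rfl
  have c0 : cj a b 0 α = MvPowerSeries.coeff α a + MvPowerSeries.coeff α b := rfl
  have c1 : cj a b 1 α = MvPowerSeries.coeff α a := rfl
  have c2 : cj a b 2 α = MvPowerSeries.coeff α a := rfl
  rw [gterm, Fin.prod_univ_three, mul_assoc, hz, hz, hz, w0, w1, w2, c0, c1, c2,
    Pool.Agent.Y80.KM.lamTerm, Pool.Agent.Y80.KM.lamOne, Pool.Agent.Y80.KM.lamOne,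
    Pool.Agent.Y80.KM.lamOne]

theorem phi2_wtj (m : ℤ) : phi2 (wtj m) = AddMonoidAlgebra.single ![m, -m] 1 := by
  unfold phi2 wtj
  exact AddMonoidAlgebra.mapDomain_single

theorem fullp_two (a b : MvPowerSeries (Fin d) ℤ) (i j : Fin d) (A B : ℕ → ℤ)
    (hA : ∀ n, A n = ∑ m ∈ Finset.range (n + 1),
      MvPowerSeries.coeff (Finsupp.single i m + Finsupp.single j (n - m)) a)
    (hB : ∀ n, B n = ∑ m ∈ Finset.range (n + 1),
      MvPowerSeries.coeff (Finsupp.single i m + Finsupp.single j (n - m)) b) (N0 : ℕ) :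
    fullp 2 (fun m => A m + B m) A N0 = ∏ m ∈ Finset.Icc 1 N0, ∏ κ,
      ipw (1 - PowerSeries.monomial m (phi2 (wj κ)))
        (∑ l ∈ Finset.range (m + 1), cj a b κ (pr i j l (m - l))) := by
  rw [fullp, fprod, ← Finset.prod_mul_distrib]
  refine Finset.prod_congr rfl fun m _ => ?_
  rw [Fin.prod_univ_three]
  have h0 : phi2 (wj 0) = 1 := by
    change phi2 (wtj 0) = 1
    exact map_one phi2
  have h1 : phi2 (wj 1) = rootE 2 ⟨(0, 1), by decide⟩ := by
    change phi2 (wtj 1) = _
    rw [phi2_wtj]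
    unfold rootE
    congr 1
    ext i; fin_cases i <;> simp [epsd]
  have h2 : phi2 (wj 2) = rootE 2 ⟨(1, 0), by decide⟩ := by
    change phi2 (wtj (-1)) = _
    rw [phi2_wtj]
    unfold rootE
    congr 1
    ext i; fin_cases i <;> simp [epsd]
  have c0 : ∑ l ∈ Finset.range (m + 1), cj a b 0 (pr i j l (m - l)) = A m + B m := by
    rw [hA, hB, ← Finset.sum_add_distrib]
    rfl
  have c1 : ∑ l ∈ Finset.range (m + 1), cj a b 1 (pr i j l (m - l)) = A m := by
    rw [hA]
    rfl
  have c2 : ∑ l ∈ Finset.range (m + 1), cj a b 2 (pr i j l (m - l)) = A m := by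
    rw [hA]
    rfl
  rw [h0, h1, h2, c0, c1, c2, mul_assoc]
  congr 1
  have := prod_Rt (N := 2) (fun p => ipw (1 - PowerSeries.monomial m
    (AddMonoidAlgebra.single (epsd p.1 p.2) 1 : TG 2)) (A m))
  refine Eq.trans this ?_
  simp only [Fin.prod_univ_two]
  simp [rootE]

theorem km_two (i j : Fin d) (hij : i ≠ j) (a b : MvPowerSeries (Fin d) ℤ)
    (hab : IsKMPair a b) (A B : ℕ → ℤ)
    (hA : ∀ n, A n = ∑ m ∈ Finset.range (n + 1),
      MvPowerSeries.coeff (Finsupp.single i m + Finsupp.single j (n - m)) a)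
    (hB : ∀ n, B n = ∑ m ∈ Finset.range (n + 1),
      MvPowerSeries.coeff (Finsupp.single i m + Finsupp.single j (n - m)) b)
    (N0 n : ℕ) (hn : n ≤ N0) :
    e0 2 (fun μ => (PowerSeries.coeff n (fullp 2 (fun m => A m + B m) A N0)).coeff μ) =
      (if n = 0 then 1 else 0) ∧
    egl 2 (fun μ => (PowerSeries.coeff n (fullp 2 (fun m => A m + B m) A N0)).coeff μ) =
      (if n = 0 then 1 else if n = 1 then -2 else 0) := by
  have hw := winv_fullp 2 (fun m => A m + B m) A N0 n
  have hs := hw (Equiv.swap 0 1) ![1, -1]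
  have e1 : (![1, -1] : Fin 2 → ℤ) ∘ (Equiv.swap 0 1) = ![-1, 1] := by
    ext i; fin_cases i <;> simp
  rw [e1] at hs
  have hf := fullp_two a b i j A B hA hB N0
  have hc := gspec hij phi2 wj (cj a b) N0 n hn
  rw [← hf, ← map_sum] at hc
  simp only [phi_eq] at hc
  set X := ∑ l ∈ Finset.range (n + 1), Pool.Agent.Y80.KM.phi a b (pr i j l (n - l)) with hX
  rw [hc] at hs ⊢
  have x0 := phi2_coeff X 0
  have x1 := phi2_coeff X 1
  have x2 := phi2_coeff X 2
  have x3 := phi2_coeff X (-1)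
  rw [neg_zero] at x0
  rw [neg_neg] at x3
  rw [x1, x3] at hs
  have m0 : multj 0 X = if n = 0 then 1 else 0 := by
    have : multj 0 X = ∑ l ∈ Finset.range (n + 1),
        multj 0 (Pool.Agent.Y80.KM.phi a b (pr i j l (n - l))) := by
      simp only [multj_eq, hX, AddMonoidAlgebra.coeff_sum, Finsupp.finsetSum_apply,
        Finset.sum_sub_distrib]
    rw [this]
    simp only [hab.trivial_part]
    split_ifs with h
    · subst h
      simp [pr]
    · apply Finset.sum_eq_zero
      intro l hl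
      rw [Finset.mem_range] at hl
      rw [if_neg]
      intro h4
      have h5 := pr_sum i j l (n - l)
      rw [h4] at h5
      simp only [Finsupp.coe_zero, Pi.zero_apply, Finset.sum_const_zero] at h5
      omega
  have m1 : multj 1 X = if n = 1 then -2 else 0 := by
    have : multj 1 X = ∑ l ∈ Finset.range (n + 1),
        multj 1 (Pool.Agent.Y80.KM.phi a b (pr i j l (n - l))) := by
      simp only [multj_eq, hX, AddMonoidAlgebra.coeff_sum, Finsupp.finsetSum_apply,
        Finset.sum_sub_distrib]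
    rw [this]
    simp only [hab.adjoint_part]
    split_ifs with h
    · subst h
      rw [Finset.sum_range_succ, Finset.sum_range_one, if_pos, if_pos]
      · norm_num
      · exact ⟨i, by simp [pr]⟩
      · exact ⟨j, by simp [pr]⟩
    · apply Finset.sum_eq_zero
      intro l hl
      rw [Finset.mem_range] at hl
      rw [if_neg]
      rintro ⟨q, hq⟩
      have h5 := pr_sum i j l (n - l)
      rw [hq] at h5
      have h6 : ∑ x, (Finsupp.single q 1 : Fin d →₀ ℕ) x = 1 := by
        simp [Finsupp.single_apply]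
      omega
  rw [multj_eq] at m0 m1
  constructor
  · rw [e02, x0, x1]
    simpa using m0
  · rw [egl2, x0, x1, x2, x3]
    norm_num at m0 m1
    rw [← hs]
    split_ifs with h1 h2
    · subst h1
      simp at m0 m1
      linarith
    · rw [if_neg h1] at m0
      rw [if_pos h2] at m1
      linarith
    · rw [if_neg h1] at m0
      rw [if_neg h2] at m1
      linarith

end Pool.Agent.Y80.KI
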