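import Pool.Agent.Y80.KI.KMTwo
import Pool.Agent.Y80.Shang.Mult
import Pool.Agent.Y815.KM.Chi

set_option autoImplicit false

open scoped BigOperators

/-! Specialisation of the defining property of the pair of Shang. -/

namespace Pool.Agent.Y80.KI

open Pool.Agent.Y80.Shang Pool.Agent.Y80.KI.GS
open Pool.Agent.Y80.KM (epsd e0 egl)

/-- the coordinates of the weights -/
def emb3 : ℤ × ℤ →+ (Fin 3 → ℤ) where
  toFun p := ![p.1, p.2 - p.1, -p.2]
  map_zero' := by ext i; fin_cases i <;> simp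
  map_add' a b := by ext i; fin_cases i <;> simp <;> ring

/-- the coordinates of the characters -/
noncomputable def phi3 : Pool.Agent.Y80.Shang.TorusChar →+* TG 3 :=
  AddMonoidAlgebra.mapDomainRingHom ℤ emb3

theorem emb3_inj : Function.Injective emb3 := by
  intro a b h
  have h0 := congrFun h 0
  have h2 := congrFun h 2
  change a.1 = b.1 at h0
  change -a.2 = -b.2 at h2
  exact Prod.ext h0 (neg_injective h2)

theorem phi3_coeff (x : Pool.Agent.Y80.Shang.TorusChar) (p : ℤ × ℤ) :
    (phi3 x).coeff (emb3 p) = x.coeff p := by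
  change Finsupp.mapDomain emb3 x.coeff (emb3 p) = _
  exact Finsupp.mapDomain_apply emb3_inj _ _

/-- `f (m, n) - f (m + 1, n) - ...` -/
theorem mult_eq (m n : ℤ) (x : Pool.Agent.Y80.Shang.TorusChar) :
    mult (m, n) x = x.coeff (m, n) - x.coeff (m + 1, n) - x.coeff (m, n + 1) +
      x.coeff (m + 2, n + 1) + x.coeff (m + 1, n + 2) - x.coeff (m + 2, n + 2) := by
  have e : (1 - wt (-1) 0) * (1 - wt 0 (-1)) * (1 - wt (-1) (-1)) =
      1 - wt (-1) 0 - wt 0 (-1) + wt (-2) (-1) + wt (-1) (-2) - wt (-2) (-2) := by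
    have a1 : wt (-1) (-1) = wt (-1) 0 * wt 0 (-1) := by rw [wt_mul]; norm_num
    have a2 : wt (-2) (-1) = wt (-1) 0 * (wt (-1) 0 * wt 0 (-1)) := by
      rw [wt_mul, wt_mul]; norm_num
    have a3 : wt (-1) (-2) = wt 0 (-1) * (wt (-1) 0 * wt 0 (-1)) := by
      rw [wt_mul, wt_mul]; norm_num
    have a4 : wt (-2) (-2) = (wt (-1) 0 * wt 0 (-1)) * (wt (-1) 0 * wt 0 (-1)) := by
      rw [wt_mul, wt_mul]; norm_num
    rw [a1, a2, a3, a4]
    ring
  unfold mult
  rw [e]
  simp only [mul_add, mul_sub, mul_one, AddMonoidAlgebra.coeff_add, AddMonoidAlgebra.coeff_sub,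
    Finsupp.add_apply, Finsupp.sub_apply]
  have hc : ∀ a b : ℤ, (x * wt a b).coeff (m, n) = x.coeff (m - a, n - b) := by
    intro a b
    rw [mul_comm, coeff_wt_mul]
  simp only [hc]
  norm_num

theorem egl3_eq (c : ℤ × ℤ → ℤ) (h1 : ∀ m n, c (m, n) = c (n - m, n))
    (h2 : ∀ m n, c (m, n) = c (m, m - n)) : Pool.Agent.Y80.KM.egl3 c =
      (c (0, 0) - c (1, 0) - c (0, 1) + c (2, 1) + c (1, 2) - c (2, 2)) +
      (c (1, 1) - c (2, 1) - c (1, 2) + c (3, 2) + c (2, 3) - c (3, 3)) := by
  have w_m1_m1 : c (-1, -1) = c (1, 1) := by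
    have t0 : c (-1, -1) = c (0, -1) := by
      have := h1 (-1) (-1)
      norm_num at this
      exact this
    have t1 : c (0, -1) = c (0, 1) := by
      have := h2 (0) (-1)
      norm_num at this
      exact this
    have t2 : c (0, 1) = c (1, 1) := by
      have := h1 (0) (1)
      norm_num at this
      exact this
    exact (t0.trans t1).trans t2
  have w_m1_0 : c (-1, 0) = c (1, 1) := by
    have t0 : c (-1, 0) = c (1, 0) := by
      have := h1 (-1) (0)
      norm_num at this
      exact this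
    have t1 : c (1, 0) = c (1, 1) := by
      have := h2 (1) (0)
      norm_num at this
      exact this
    exact t0.trans t1
  have w_m1_1 : c (-1, 1) = c (2, 1) := by
    have t0 : c (-1, 1) = c (2, 1) := by
      have := h1 (-1) (1)
      norm_num at this
      exact this
    exact t0
  have w_0_m1 : c (0, -1) = c (1, 1) := by
    have t0 : c (0, -1) = c (0, 1) := by
      have := h2 (0) (-1)
      norm_num at this
      exact this
    have t1 : c (0, 1) = c (1, 1) := by
      have := h1 (0) (1)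
      norm_num at this
      exact this
    exact t0.trans t1
  have w_0_1 : c (0, 1) = c (1, 1) := by
    have t0 : c (0, 1) = c (1, 1) := by
      have := h1 (0) (1)
      norm_num at this
      exact this
    exact t0
  have w_0_2 : c (0, 2) = c (2, 2) := by
    have t0 : c (0, 2) = c (2, 2) := by
      have := h1 (0) (2)
      norm_num at this
      exact this
    exact t0
  have w_1_m1 : c (1, -1) = c (1, 2) := by
    have t0 : c (1, -1) = c (1, 2) := by
      have := h2 (1) (-1)
      norm_num at this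
      exact this
    exact t0
  have w_1_0 : c (1, 0) = c (1, 1) := by
    have t0 : c (1, 0) = c (1, 1) := by
      have := h2 (1) (0)
      norm_num at this
      exact this
    exact t0
  have w_1_3 : c (1, 3) = c (2, 3) := by
    have t0 : c (1, 3) = c (2, 3) := by
      have := h1 (1) (3)
      norm_num at this
      exact this
    exact t0
  have w_2_0 : c (2, 0) = c (2, 2) := by
    have t0 : c (2, 0) = c (2, 2) := by
      have := h2 (2) (0)
      norm_num at this
      exact this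
    exact t0
  have w_3_1 : c (3, 1) = c (3, 2) := by
    have t0 : c (3, 1) = c (3, 2) := by
      have := h2 (3) (1)
      norm_num at this
      exact this
    exact t0
  simp only [Pool.Agent.Y80.KM.egl3, Pool.Agent.Y80.KM.glw, Pool.Agent.Y80.KM.e03, List.map_cons,
    List.map_nil, List.sum_cons, List.sum_nil, Prod.mk_add_mk]
  norm_num
  simp only [w_m1_m1, w_m1_0, w_m1_1, w_0_m1, w_0_1, w_0_2, w_1_m1, w_1_0, w_1_3, w_2_0, w_3_1]
  ring

theorem prod_Rt3 {M : Type*} [CommMonoid M] (g : Fin 3 × Fin 3 → M) :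
    ∏ p : Rt 3, g p.1 =
      g (0, 1) * (g (1, 2) * (g (0, 2) * (g (1, 0) * (g (2, 1) * g (2, 0))))) := by
  rw [prod_Rt]
  simp only [Fin.prod_univ_three]
  simp only [ne_eq, not_true_eq_false, if_false, one_mul, mul_one, Fin.reduceEq, not_false_eq_true,
    if_true]
  ac_rfl

variable {d : ℕ}

/-- the weights of the adjoint module -/
noncomputable def ws : Fin 7 → Pool.Agent.Y80.Shang.TorusChar :=
  ![wt 0 0, wt 1 0, wt 0 1, wt 1 1, wt (-1) 0, wt 0 (-1), wt (-1) (-1)]

/-- the exponents -/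
noncomputable def cs (a b : MvPowerSeries (Fin d) ℤ) : Fin 7 → (Fin d →₀ ℕ) → ℤ :=
  ![fun α => 2 * MvPowerSeries.coeff α a + MvPowerSeries.coeff α b,
    fun α => MvPowerSeries.coeff α a, fun α => MvPowerSeries.coeff α a,
    fun α => MvPowerSeries.coeff α a, fun α => MvPowerSeries.coeff α a,
    fun α => MvPowerSeries.coeff α a, fun α => MvPowerSeries.coeff α a]

theorem phis_eq (a b : MvPowerSeries (Fin d) ℤ) (β : Fin d →₀ ℕ) :
    gphi ws (cs a b) β = Pool.Agent.Y80.Shang.phi a b β := by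
  rw [gphi, Pool.Agent.Y80.Shang.phi]
  refine congrArg (MvPowerSeries.coeff β) (Finset.prod_congr rfl fun α _ => ?_)
  have hz : ∀ (f : Char d) (n : ℤ), gz f n = Pool.Agent.Y80.Shang.zpw f n := fun f n => by
    unfold gz Pool.Agent.Y80.Shang.zpw
    rfl
  rw [gterm, Pool.Agent.Y80.Shang.lamTerm, Fin.prod_univ_seven]
  simp only [hz, roots, List.map_cons, List.map_nil, List.prod_cons, List.prod_nil,
    Pool.Agent.Y80.Shang.lamOne, mul_one]
  have w0 : ws 0 = wt 0 0 := rfl
  have w1 : ws 1 = wt 1 0 := rfl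
  have w2 : ws 2 = wt 0 1 := rfl
  have w3 : ws 3 = wt 1 1 := rfl
  have w4 : ws 4 = wt (-1) 0 := rfl
  have w5 : ws 5 = wt 0 (-1) := rfl
  have w6 : ws 6 = wt (-1) (-1) := rfl
  have c0 : cs a b 0 α = 2 * MvPowerSeries.coeff α a + MvPowerSeries.coeff α b := rfl
  have c1 : cs a b 1 α = MvPowerSeries.coeff α a := rfl
  have c2 : cs a b 2 α = MvPowerSeries.coeff α a := rfl
  have c3 : cs a b 3 α = MvPowerSeries.coeff α a := rfl
  have c4 : cs a b 4 α = MvPowerSeries.coeff α a := rfl
  have c5 : cs a b 5 α = MvPowerSeries.coeff α a := rfl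
  have c6 : cs a b 6 α = MvPowerSeries.coeff α a := rfl
  rw [w0, w1, w2, w3, w4, w5, w6, c0, c1, c2, c3, c4, c5, c6]
  simp only [mul_assoc]

theorem phi3_wt (m n : ℤ) : phi3 (wt m n) = AddMonoidAlgebra.single (emb3 (m, n)) 1 := by
  unfold phi3 wt
  exact AddMonoidAlgebra.mapDomain_single

theorem fullp_three (a b : MvPowerSeries (Fin d) ℤ) (i j : Fin d) (A B : ℕ → ℤ)
    (hA : ∀ n, A n = ∑ m ∈ Finset.range (n + 1),
      MvPowerSeries.coeff (Finsupp.single i m + Finsupp.single j (n - m)) a)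
    (hB : ∀ n, B n = ∑ m ∈ Finset.range (n + 1),
      MvPowerSeries.coeff (Finsupp.single i m + Finsupp.single j (n - m)) b) (N0 : ℕ) :
    fullp 3 (fun m => 2 * A m + B m) A N0 = ∏ m ∈ Finset.Icc 1 N0, ∏ κ,
      ipw (1 - PowerSeries.monomial m (phi3 (ws κ)))
        (∑ l ∈ Finset.range (m + 1), cs a b κ (pr i j l (m - l))) := by
  rw [fullp, fprod, ← Finset.prod_mul_distrib]
  refine Finset.prod_congr rfl fun m _ => ?_
  rw [Fin.prod_univ_seven]
  have h0 : phi3 (ws 0) = 1 := by
    change phi3 (wt 0 0) = 1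
    exact map_one phi3
  have hr : ∀ (p q : ℤ) (x y : Fin 3) (hxy : x ≠ y), emb3 (p, q) = epsd x y →
      phi3 (wt p q) = AddMonoidAlgebra.single (epsd x y) 1 := by
    intro p q x y hxy h
    rw [phi3_wt, h]
  have h1 : phi3 (ws 1) = AddMonoidAlgebra.single (epsd 0 1) 1 := by
    refine hr 1 0 0 1 (by decide) ?_
    ext i; fin_cases i <;> simp [epsd, emb3]
  have h2 : phi3 (ws 2) = AddMonoidAlgebra.single (epsd 1 2) 1 := by
    refine hr 0 1 1 2 (by decide) ?_
    ext i; fin_cases i <;> simp [epsd, emb3]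
  have h3 : phi3 (ws 3) = AddMonoidAlgebra.single (epsd 0 2) 1 := by
    refine hr 1 1 0 2 (by decide) ?_
    ext i; fin_cases i <;> simp [epsd, emb3]
  have h4 : phi3 (ws 4) = AddMonoidAlgebra.single (epsd 1 0) 1 := by
    refine hr (-1) 0 1 0 (by decide) ?_
    ext i; fin_cases i <;> simp [epsd, emb3]
  have h5 : phi3 (ws 5) = AddMonoidAlgebra.single (epsd 2 1) 1 := by
    refine hr 0 (-1) 2 1 (by decide) ?_
    ext i; fin_cases i <;> simp [epsd, emb3]
  have h6 : phi3 (ws 6) = AddMonoidAlgebra.single (epsd 2 0) 1 := by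
    refine hr (-1) (-1) 2 0 (by decide) ?_
    ext i; fin_cases i <;> simp [epsd, emb3]
  have c0 : ∑ l ∈ Finset.range (m + 1), cs a b 0 (pr i j l (m - l)) = 2 * A m + B m := by
    rw [hA, hB, Finset.mul_sum, ← Finset.sum_add_distrib]
    rfl
  have c1 : ∑ l ∈ Finset.range (m + 1), cs a b 1 (pr i j l (m - l)) = A m := by rw [hA]; rfl
  have c2 : ∑ l ∈ Finset.range (m + 1), cs a b 2 (pr i j l (m - l)) = A m := by rw [hA]; rfl
  have c3 : ∑ l ∈ Finset.range (m + 1), cs a b 3 (pr i j l (m - l)) = A m := by rw [hA]; rfl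
  have c4 : ∑ l ∈ Finset.range (m + 1), cs a b 4 (pr i j l (m - l)) = A m := by rw [hA]; rfl
  have c5 : ∑ l ∈ Finset.range (m + 1), cs a b 5 (pr i j l (m - l)) = A m := by rw [hA]; rfl
  have c6 : ∑ l ∈ Finset.range (m + 1), cs a b 6 (pr i j l (m - l)) = A m := by rw [hA]; rfl
  rw [h0, h1, h2, h3, h4, h5, h6, c0, c1, c2, c3, c4, c5, c6]
  simp only [mul_assoc]
  refine congrArg (fun x => ipw (1 - PowerSeries.monomial m 1) (2 * A m + B m) * x) ?_
  exact prod_Rt3 (fun p => ipw (1 - PowerSeries.monomial m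
    (AddMonoidAlgebra.single (epsd p.1 p.2) 1 : TG 3)) (A m))

theorem shang_two (i j : Fin d) (hij : i ≠ j) (a b : MvPowerSeries (Fin d) ℤ)
    (hab : IsShangPair a b) (A B : ℕ → ℤ)
    (hA : ∀ n, A n = ∑ m ∈ Finset.range (n + 1),
      MvPowerSeries.coeff (Finsupp.single i m + Finsupp.single j (n - m)) a)
    (hB : ∀ n, B n = ∑ m ∈ Finset.range (n + 1),
      MvPowerSeries.coeff (Finsupp.single i m + Finsupp.single j (n - m)) b)
    (N0 n : ℕ) (hn : n ≤ N0) :
    e0 3 (fun μ => (PowerSeries.coeff n (fullp 3 (fun m => 2 * A m + B m) A N0)).coeff μ) =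
      (if n = 0 then 1 else 0) ∧
    egl 3 (fun μ => (PowerSeries.coeff n (fullp 3 (fun m => 2 * A m + B m) A N0)).coeff μ) =
      (if n = 0 then 1 else if n = 1 then -2 else 0) := by
  have hw := winv_fullp 3 (fun m => 2 * A m + B m) A N0 n
  have hf := fullp_three a b i j A B hA hB N0
  have hc := gspec hij phi3 ws (cs a b) N0 n hn
  rw [← hf, ← map_sum] at hc
  simp only [phis_eq] at hc
  set X := ∑ l ∈ Finset.range (n + 1), Pool.Agent.Y80.Shang.phi a b (pr i j l (n - l)) with hX
  rw [hc] at hw ⊢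
  have hs1 : ∀ p q : ℤ, X.coeff (p, q) = X.coeff (q - p, q) := by
    intro p q
    rw [← phi3_coeff X (p, q), ← phi3_coeff X (q - p, q), ← hw (Equiv.swap 0 1) (emb3 (q - p, q))]
    congr 1
    ext i; fin_cases i <;> simp [emb3, Equiv.swap_apply_def]
  have hs2 : ∀ p q : ℤ, X.coeff (p, q) = X.coeff (p, p - q) := by
    intro p q
    rw [← phi3_coeff X (p, q), ← phi3_coeff X (p, p - q), ← hw (Equiv.swap 1 2) (emb3 (p, p - q))]
    congr 1
    ext i; fin_cases i <;> simp [emb3, Equiv.swap_apply_def]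
  have hmu : ∀ μ : Fin 3 → ℤ, ∑ j, μ j = 0 → X.coeff (μ 0, -μ 2) = (phi3 X).coeff μ := by
    intro μ hμ
    rw [← phi3_coeff X]
    congr 1
    rw [Fin.sum_univ_three] at hμ
    ext i; fin_cases i
    · rfl
    · change -μ 2 - μ 0 = μ 1
      linarith
    · exact neg_neg _
  have m0 : mult (0, 0) X = if n = 0 then 1 else 0 := by
    have : mult (0, 0) X = ∑ l ∈ Finset.range (n + 1),
        mult (0, 0) (Pool.Agent.Y80.Shang.phi a b (pr i j l (n - l))) := by
      simp only [mult_eq, hX, AddMonoidAlgebra.coeff_sum, Finsupp.finsetSum_apply,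
        Finset.sum_sub_distrib, Finset.sum_add_distrib]
    rw [this]
    simp only [hab.trivial_part]
    split_ifs with h
    · subst h
      simp [pr]
    · apply Finset.sum_eq_zero
      intro l hl
      rw [Finset.mem_range] at hl
      rw [if_neg]
      intro h4
      have h5 := pr_sum i j l (n - l)
      rw [h4] at h5
      simp only [Finsupp.coe_zero, Pi.zero_apply, Finset.sum_const_zero] at h5
      omega
  have m1 : mult (1, 1) X = if n = 1 then -2 else 0 := by
    have : mult (1, 1) X = ∑ l ∈ Finset.range (n + 1),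
        mult (1, 1) (Pool.Agent.Y80.Shang.phi a b (pr i j l (n - l))) := by
      simp only [mult_eq, hX, AddMonoidAlgebra.coeff_sum, Finsupp.finsetSum_apply,
        Finset.sum_sub_distrib, Finset.sum_add_distrib]
    rw [this]
    simp only [hab.adjoint_part]
    split_ifs with h
    · subst h
      rw [Finset.sum_range_succ, Finset.sum_range_one, if_pos, if_pos]
      · norm_num
      · exact ⟨i, by simp [pr]⟩
      · exact ⟨j, by simp [pr]⟩
    · apply Finset.sum_eq_zero
      intro l hl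
      rw [Finset.mem_range] at hl
      rw [if_neg]
      rintro ⟨q, hq⟩
      have h5 := pr_sum i j l (n - l)
      rw [hq] at h5
      have h6 : ∑ x, (Finsupp.single q 1 : Fin d →₀ ℕ) x = 1 := by
        simp [Finsupp.single_apply]
      omega
  rw [mult_eq] at m0 m1
  norm_num at m0 m1
  have k0 : Pool.Agent.Y80.KM.e0 3 (fun μ => (phi3 X).coeff μ) =
      if n = 0 then 1 else 0 := by
    rw [← Pool.Agent.Y815.KM.e0_e03 (fun p => X.coeff p) _ hmu, Pool.Agent.Y80.KM.e03]
    linarith
  have k1 : Pool.Agent.Y80.KM.egl 3 (fun μ => (phi3 X).coeff μ) =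
      (if n = 0 then 1 else 0) + (if n = 1 then -2 else 0) := by
    rw [← Pool.Agent.Y815.KM.egl_egl3 (fun p => X.coeff p) _ hmu, egl3_eq _ hs1 hs2]
    linarith
  refine ⟨k0, k1.trans ?_⟩
  split_ifs with h1 h2
  · omega
  · rfl
  · rfl
  · rfl

end Pool.Agent.Y80.KI
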